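import Pool.Agent.R908.AbDefs
import Pool.Agent.W552.Fr

/-!
# Contractions in the cohomology of an abelian variety

`A` is a variety with an addition `m` whose cohomology behaves like that of an abelian variety. For
a class `c` on `A` we consider the operator `y ↦ q_* (p^* c · m^* y)`.
-/

open CategoryTheory AlgebraicGeometry

universe u v

namespace Pool.Agent.K7.H9

open Pool.Agent.H914 Pool.Agent.H914.VarClass Pool.Agent.H914.VarClass.Obj
  Pool.Agent.H914.WeilCohomology Pool.Agent.R908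

variable {k : Type u} [Field k] {𝒱 : VarClass k} {ops : CycleOps 𝒱}
  {W : WeilCohomology.{u, v} ops} {A : 𝒱.Obj} {m : A.prod A ⟶ A}

/-- The operator `z ↦ q_* (p^* c · z)`. -/
noncomputable def slc (W : WeilCohomology.{u, v} ops) (A : 𝒱.Obj) (c : W.H A) :
    W.H (A.prod A) →ₗ[W.K] W.H A :=
  W.push (snd A A) ∘ₗ LinearMap.mulLeft W.K (W.map (fst A A) c)

lemma slc_apply (c : W.H A) (z : W.H (A.prod A)) :
    slc W A c z = W.push (snd A A) (W.map (fst A A) c * z) := rfl

lemma slc_tmul (c a b : W.H A) :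
    slc W A c (W.map (fst A A) a * W.map (snd A A) b) = W.tr A (c * a) • b := by
  rw [slc_apply, ← mul_assoc, ← map_mul, W.push_snd]

lemma slc_fst (c x : W.H A) (z : W.H (A.prod A)) :
    slc W A c (W.map (fst A A) x * z) = slc W A (c * x) z := by
  rw [slc_apply, slc_apply, ← mul_assoc, ← map_mul]

lemma slc_snd {j : ℕ} {c : W.H A} (hc : c ∈ W.gr A j) {x : W.H A} (hx : x ∈ W.gr A 1)
    (z : W.H (A.prod A)) :
    slc W A c (W.map (snd A A) x * z) = (-1 : W.K) ^ j • (x * slc W A c z) := by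
  refine W.kunneth_induction (p := fun z => slc W A c (W.map (snd A A) x * z) =
    (-1 : W.K) ^ j • (x * slc W A c z)) ?_ ?_ z
  · intro a b ha hb
    rw [mul_add, map_add, ha, hb, map_add, mul_add, smul_add]
  · intro i i' a ha b _
    have h1 : W.map (snd A A) x * (W.map (fst A A) a * W.map (snd A A) b) =
        (-1 : W.K) ^ i • (W.map (fst A A) a * W.map (snd A A) (x * b)) := by
      rw [← mul_assoc, W.comm (W.map_mem (snd A A) hx) (W.map_mem (fst A A) ha), smul_mul_assoc,
        mul_assoc, ← map_mul, one_mul]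
    rw [h1, map_smul, slc_tmul, slc_tmul, mul_smul_comm, smul_smul, smul_smul]
    by_cases hij : j + i = 2 * A.dim
    · have h2 : (-1 : W.K) ^ i = (-1) ^ j := by
        have h3 : (-1 : W.K) ^ (j + i) = 1 := by rw [hij, pow_mul]; simp
        have h4 : (-1 : W.K) ^ j * (-1) ^ j = 1 := by rw [← mul_pow]; simp
        calc (-1 : W.K) ^ i = ((-1) ^ j * (-1) ^ j) * (-1) ^ i := by rw [h4, one_mul]
          _ = (-1) ^ j * (-1) ^ (j + i) := by rw [pow_add]; ring
          _ = (-1) ^ j := by rw [h3, mul_one]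
      rw [h2]
    · rw [W.tr_eq_zero (W.mul_mem hc ha) hij, mul_zero, mul_zero]

/-- The operator `y ↦ q_* (p^* c · m^* y)`. -/
noncomputable def ctr (W : WeilCohomology.{u, v} ops) (m : A.prod A ⟶ A) (c : W.H A) :
    Module.End W.K (W.H A) :=
  slc W A c ∘ₗ (W.map m).toLinearMap

lemma ctr_apply (c y : W.H A) : ctr W m c y = slc W A c (W.map m y) := rfl

lemma ctr_add (c c' y : W.H A) : ctr W m (c + c') y = ctr W m c y + ctr W m c' y := by
  rw [ctr_apply, ctr_apply, ctr_apply, slc_apply, slc_apply, slc_apply, map_add, add_mul, map_add]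

lemma ctr_smul (r : W.K) (c y : W.H A) : ctr W m (r • c) y = r • ctr W m c y := by
  rw [ctr_apply, ctr_apply, slc_apply, slc_apply, map_smul, smul_mul_assoc, map_smul]

section

variable (hA : IsAbelianLike W A m)

include hA

lemma ctr_mul {j : ℕ} {c : W.H A} (hc : c ∈ W.gr A j) {x : W.H A} (hx : x ∈ W.gr A 1)
    (y : W.H A) : ctr W m c (x * y) = ctr W m (c * x) y + (-1 : W.K) ^ j • (x * ctr W m c y) := by
  rw [ctr_apply, map_mul, hA.add x hx, add_mul, map_add, slc_fst, slc_snd hc hx]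
  rfl

omit hA in
lemma ctr_one {j : ℕ} {c : W.H A} (hc : c ∈ W.gr A j) (hj : j ≠ 2 * A.dim) :
    ctr W m c 1 = 0 := by
  rw [ctr_apply, map_one, slc_apply, mul_one, W.push_snd', W.tr_eq_zero hc hj, zero_smul]

/-- Induction on the degree. -/
lemma gen_induction {p : W.H A → Prop} (hadd : ∀ a b, p a → p b → p (a + b))
    (h1 : ∀ r : W.K, p (r • 1)) (hmul : ∀ x ∈ W.gr A 1, ∀ y, p y → p (x * y)) (y : W.H A) :
    p y := by
  have key : ∀ i, ∀ y ∈ W.gr A 1 ^ i, p y := by
    intro i
    induction i with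
    | zero =>
      intro y hy
      rw [pow_zero, Submodule.mem_one] at hy
      obtain ⟨c, rfl⟩ := hy
      rw [Algebra.algebraMap_eq_smul_one]
      exact h1 c
    | succ i ih =>
      intro y hy
      rw [pow_succ'] at hy
      exact Submodule.mul_induction_on hy (fun x hx y hy => hmul x hx y (ih y hy)) hadd
  exact gr_induction (W.isInternal A) (fun i y hy => key i y (hA.gen i hy)) hadd y

lemma gen_induction' {p : ℕ → W.H A → Prop} (hadd : ∀ i a b, p i a → p i b → p i (a + b))
    (h1 : ∀ r : W.K, p 0 (r • 1)) (hmul : ∀ i, ∀ x ∈ W.gr A 1, ∀ y ∈ W.gr A i, p i y →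
      p (i + 1) (x * y)) {i : ℕ} {y : W.H A} (hy : y ∈ W.gr A i) : p i y := by
  have hsub : ∀ i, ∀ y ∈ W.gr A 1 ^ i, y ∈ W.gr A i := by
    intro i
    induction i with
    | zero =>
      intro y hy
      rw [pow_zero, Submodule.mem_one] at hy
      obtain ⟨c, rfl⟩ := hy
      rw [Algebra.algebraMap_eq_smul_one]
      exact Submodule.smul_mem _ _ (W.one_mem A)
    | succ i ih =>
      intro y hy
      rw [pow_succ'] at hy
      refine Submodule.mul_induction_on hy (fun x hx y hy => ?_) (fun _ _ => Submodule.add_mem _)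
      rw [add_comm]
      exact W.mul_mem hx (ih y hy)
  have key : ∀ i, ∀ y ∈ W.gr A 1 ^ i, p i y := by
    intro i
    induction i with
    | zero =>
      intro y hy
      rw [pow_zero, Submodule.mem_one] at hy
      obtain ⟨c, rfl⟩ := hy
      rw [Algebra.algebraMap_eq_smul_one]
      exact h1 c
    | succ i ih =>
      intro y hy
      rw [pow_succ'] at hy
      exact Submodule.mul_induction_on hy (fun x hx y hy => hmul i x hx y (hsub i y hy) (ih y hy))
        (fun _ _ => hadd _ _ _)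
  exact key i y (hA.gen i hy)

/-- Contraction with a class of top degree. -/
lemma ctr_top {c : W.H A} (hc : c ∈ W.gr A (2 * A.dim)) (y : W.H A) :
    ctr W m c y = W.tr A c • y := by
  refine gen_induction hA (p := fun y => ctr W m c y = W.tr A c • y) ?_ ?_ ?_ y
  · intro a b ha hb
    rw [map_add, ha, hb, smul_add]
  · intro r
    rw [map_smul, ctr_apply, map_one, slc_apply, mul_one, W.push_snd', smul_comm]
  · intro x hx y hy
    have h0 : c * x = 0 := by
      have := W.mul_mem hc hx
      rw [W.gr_eq_bot A _ (by omega), Submodule.mem_bot] at this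
      exact this
    have h1 : ctr W m (0 : W.H A) y = 0 := by
      rw [ctr_apply, slc_apply, map_zero, zero_mul, map_zero]
    rw [ctr_mul hA hc hx, h0, h1, zero_add, hy, pow_mul]
    simp

/-- Contraction with a class of degree `2 g - 1` is an antiderivation. -/
lemma ctr_odd {j : ℕ} (hj : j + 1 = 2 * A.dim) {c : W.H A} (hc : c ∈ W.gr A j) {x : W.H A}
    (hx : x ∈ W.gr A 1) (y : W.H A) :
    ctr W m c (x * y) = W.tr A (c * x) • y - x * ctr W m c y := by
  have h1 : c * x ∈ W.gr A (2 * A.dim) := by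
    rw [← hj]; exact W.mul_mem hc hx
  have h2 : (-1 : W.K) ^ j = -1 := by
    apply Odd.neg_one_pow
    exact ⟨A.dim - 1, by omega⟩
  rw [ctr_mul hA hc hx, ctr_top hA h1, h2, neg_one_smul, sub_eq_add_neg]

lemma ctr_odd_deg {j : ℕ} (hj : j + 1 = 2 * A.dim) {c : W.H A} (hc : c ∈ W.gr A j) {i : ℕ}
    {y : W.H A} (hy : y ∈ W.gr A (i + 1)) : ctr W m c y ∈ W.gr A i := by
  have h1 := gen_induction' hA (p := fun i y => (∀ l, l + 1 = i → ctr W m c y ∈ W.gr A l) ∧
    (i = 0 → ctr W m c y = 0)) ?_ ?_ ?_ hy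
  · exact h1.1 i rfl
  · rintro i a b ⟨ha, ha'⟩ ⟨hb, hb'⟩
    refine ⟨fun l hl => ?_, fun h => ?_⟩
    · rw [map_add]; exact Submodule.add_mem _ (ha l hl) (hb l hl)
    · rw [map_add, ha' h, hb' h, add_zero]
  · intro r
    refine ⟨fun l hl => by omega, fun _ => ?_⟩
    rw [map_smul, ctr_one hc (by omega), smul_zero]
  · rintro i x hx y hy ⟨h, h'⟩
    refine ⟨fun l hl => ?_, fun h => by omega⟩
    obtain rfl : l = i := by omega
    rw [ctr_odd hA hj hc hx]
    refine Submodule.sub_mem _ (Submodule.smul_mem _ _ hy) ?_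
    rcases Nat.eq_zero_or_pos l with h0 | h0
    · subst h0
      rw [h' rfl, mul_zero]
      exact Submodule.zero_mem _
    · have h1 := W.mul_mem hx (h (l - 1) (by omega))
      rwa [show 1 + (l - 1) = l by omega] at h1

/-- The antiderivation property for products with a class of degree two. -/
lemma ctr_odd_two {j : ℕ} (hj : j + 1 = 2 * A.dim) {c : W.H A} (hc : c ∈ W.gr A j) {z : W.H A}
    (hz : z ∈ W.gr A 2) (y : W.H A) :
    ctr W m c (z * y) = ctr W m c z * y + z * ctr W m c y := by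
  have h1 := hA.gen 2 hz
  rw [pow_two] at h1
  refine Submodule.mul_induction_on h1 ?_ ?_
  · intro x hx x' hx'
    have e1 := ctr_odd hA hj hc hx' 1
    rw [mul_one, ctr_one hc (by omega), mul_zero, sub_zero] at e1
    rw [mul_assoc, ctr_odd hA hj hc hx, ctr_odd hA hj hc hx', ctr_odd hA hj hc hx, e1, mul_sub,
      sub_mul, smul_mul_assoc, mul_smul_comm, mul_smul_comm, smul_mul_assoc, mul_one,
      mul_assoc]
    abel
  · intro a b ha hb
    rw [add_mul, map_add, ha, hb, map_add, add_mul, add_mul]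
    abel

omit hA in
lemma two_comm {z : W.H A} (hz : z ∈ W.gr A 2) (y : W.H A) : z * y = y * z :=
  W.even_comm (p := 1) hz y

omit hA in
lemma pow_mem_gr {z : W.H A} (hz : z ∈ W.gr A 2) (n : ℕ) : z ^ n ∈ W.gr A (2 * n) := by
  induction n with
  | zero => rw [pow_zero, mul_zero]; exact W.one_mem A
  | succ n ih =>
    rw [pow_succ, show 2 * (n + 1) = 2 * n + 2 by ring]
    exact W.mul_mem ih hz

omit hA in
lemma two_pow_comm {z : W.H A} (hz : z ∈ W.gr A 2) (n : ℕ) (y : W.H A) :
    z ^ n * y = y * z ^ n := W.even_comm (pow_mem_gr hz n) y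

lemma ctr_odd_pow {j : ℕ} (hj : j + 1 = 2 * A.dim) {c : W.H A} (hc : c ∈ W.gr A j) {z : W.H A}
    (hz : z ∈ W.gr A 2) (n : ℕ) (y : W.H A) :
    ctr W m c (z ^ (n + 1) * y) = ((n + 1 : ℕ) : W.K) • (ctr W m c z * (z ^ n * y)) +
      z ^ (n + 1) * ctr W m c y := by
  induction n with
  | zero =>
    rw [zero_add, pow_one, ctr_odd_two hA hj hc hz, pow_zero, one_mul, Nat.cast_one, one_smul]
  | succ n ih =>
    rw [pow_succ' z (n + 1), mul_assoc, ctr_odd_two hA hj hc hz, ih, mul_add, mul_smul_comm,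
      ← mul_assoc z (ctr W m c z), two_comm hz (ctr W m c z), mul_assoc (ctr W m c z) z,
      ← mul_assoc z (z ^ n), ← pow_succ', ← mul_assoc z, ← add_assoc, Nat.cast_succ (n + 1),
      add_smul, one_smul, add_comm (ctr W m c z * _)]

end

end Pool.Agent.K7.H9
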