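import Pool.Agent.K7.H9.Lieb1

/-!
# Hard Lefschetz and the lowering operator for abelian varieties

For a class `θ` of degree two with `tr (θ ^ g) ≠ 0` on an abelian variety of dimension `g` we prove
the injectivity of the Lefschetz operators, and that the operator `y ↦ q_* (p^* θ^(g-1) · m^* y)` is, up
to a factor, the lowering operator of an `sl_2`-triple.
-/

open CategoryTheory AlgebraicGeometry

universe u v

namespace Pool.Agent.K7.H9

open Pool.Agent.H914 Pool.Agent.H914.VarClass Pool.Agent.H914.VarClass.Obj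
  Pool.Agent.H914.WeilCohomology Pool.Agent.R908 Pool.Agent.H281R3.HT

variable {k : Type u} [Field k] {𝒱 : VarClass k} {ops : CycleOps 𝒱}
  {W : WeilCohomology.{u, v} ops} {A : 𝒱.Obj} {m : A.prod A ⟶ A}

/-- Every linear functional is given by a class. -/
lemma exists_functional (φ : W.H A →ₗ[W.K] W.K) : ∃ c : W.H A, ∀ x, W.tr A (c * x) = φ x := by
  have hinj : Function.Injective (bil W A) := by
    intro a b hab
    apply W.tr_ext
    intro c
    have := congrArg (fun f => f c) hab
    simpa [bil_apply] using this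
  have hsurj : Function.Surjective (bil W A) := by
    apply (LinearMap.injective_iff_surjective_of_finrank_eq_finrank ?_).1 hinj
    exact (Subspace.dual_finrank_eq).symm
  obtain ⟨c, hc⟩ := hsurj φ
  refine ⟨c, fun x => ?_⟩
  rw [← hc, bil_apply]

/-- Functionals on the first cohomology. -/
lemma exists_functional_one {j : ℕ} (hj : j + 1 = 2 * A.dim) (φ : W.gr A 1 →ₗ[W.K] W.K) :
    ∃ c ∈ W.gr A j, ∀ x : W.gr A 1, W.tr A (c * x) = φ x := by
  obtain ⟨ψ, hψ⟩ := LinearMap.exists_extend φ
  obtain ⟨c, hc⟩ := exists_functional ψ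
  refine ⟨proj (W.isInternal A) j c, proj_mem _ j c, fun x => ?_⟩
  have h1 : W.tr A (proj (W.isInternal A) j c * x) = W.tr A (c * x) := by
    refine gr_induction (W.isInternal A) (p := fun c => W.tr A (proj (W.isInternal A) j c * x) =
      W.tr A (c * x)) ?_ ?_ c
    · intro i a ha
      by_cases hi : i = j
      · subst hi; rw [proj_same _ ha]
      · rw [proj_ne _ ha hi, zero_mul, map_zero, W.tr_eq_zero (W.mul_mem ha x.2) (by omega)]
    · intro a b ha hb
      rw [map_add, add_mul, map_add, ha, hb, add_mul, map_add]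
  rw [h1, hc]
  have := congrArg (fun f => f x) hψ
  simpa using this

/-- **The Euler identity.** -/
lemma euler (hA : IsAbelianLike W A m) {j : ℕ} (hj : j + 1 = 2 * A.dim) :
    ∃ (r : ℕ) (x b : Fin r → W.H A), (∀ s, x s ∈ W.gr A 1) ∧ (∀ s, b s ∈ W.gr A j) ∧
      ∀ i, ∀ y ∈ W.gr A i, ∑ s, x s * ctr W m (b s) y = (i : W.K) • y := by
  classical
  let B := Module.finBasis W.K (W.gr A 1)
  choose b hb hbx using fun s => exists_functional_one (W := W) hj (B.coord s)
  refine ⟨_, fun s => (B s : W.H A), b, fun s => (B s).2, hb, ?_⟩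
  intro i y hy
  refine gen_induction' hA (p := fun i y => ∑ s, (B s : W.H A) * ctr W m (b s) y =
    (i : W.K) • y) ?_ ?_ ?_ hy
  · intro i a c ha hc
    simp only [map_add, mul_add, Finset.sum_add_distrib, ha, hc, smul_add]
  · intro r
    rw [Nat.cast_zero, zero_smul]
    apply Finset.sum_eq_zero
    intro s _
    rw [map_smul, ctr_one (hb s) (by omega), smul_zero, mul_zero]
  · intro i x hx y _ ih
    have h1 : ∀ s, (B s : W.H A) * ctr W m (b s) (x * y) =
        (W.tr A (b s * x)) • (B s : W.H A) * y + x * ((B s : W.H A) * ctr W m (b s) y) := by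
      intro s
      have h2 : (B s : W.H A) * x = -(x * (B s : W.H A)) := by
        rw [W.comm (B s).2 hx, mul_one, pow_one, neg_one_smul]
      rw [ctr_odd hA hj (hb s) hx, mul_sub, mul_smul_comm, ← mul_assoc _ x, h2, neg_mul,
        sub_neg_eq_add, mul_assoc, smul_mul_assoc]
    rw [Finset.sum_congr rfl (fun s _ => h1 s), Finset.sum_add_distrib, ← Finset.sum_mul,
      ← Finset.mul_sum, ih]
    have h3 : ∑ s, (W.tr A (b s * x)) • (B s : W.H A) = x := by
      have h4 := B.sum_repr ⟨x, hx⟩
      have h5 := congrArg (fun z : W.gr A 1 => (z : W.H A)) h4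
      simp only [Submodule.coe_sum, Submodule.coe_smul] at h5
      rw [← h5]
      apply Finset.sum_congr rfl
      intro s _
      congr 1
      have h6 := hbx s ⟨x, hx⟩
      rw [Module.Basis.coord_apply] at h6
      rw [← h6]
      congr 2
    rw [h3, mul_smul_comm, Nat.cast_succ, add_smul, one_smul, add_comm]

section

variable (hA : IsAbelianLike W A m) {θ : W.H A} (hθ : θ ∈ W.gr A 2)
  (ht : W.tr A (θ ^ A.dim) ≠ 0)

include hA hθ ht

/-- **Hard Lefschetz** (injectivity). -/
theorem hl_inj : ∀ i ≤ A.dim, ∀ y ∈ W.gr A i, θ ^ (A.dim - i) * y = 0 → y = 0 := by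
  intro i
  induction i with
  | zero =>
    intro _ y hy h0
    rw [W.gr_zero A, Submodule.mem_span_singleton] at hy
    obtain ⟨r, rfl⟩ := hy
    rw [mul_smul_comm, mul_one, Nat.sub_zero] at h0
    rcases smul_eq_zero.1 h0 with h | h
    · rw [h, zero_smul]
    · exact absurd (by rw [h, map_zero]) ht
  | succ i ih =>
    intro hi y hy h0
    have hj : (2 * A.dim - 1) + 1 = 2 * A.dim := by omega
    obtain ⟨r, x, b, _, hb, he⟩ := euler hA hj
    have h1 : ∀ s, ctr W m (b s) y = 0 := by
      intro s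
      apply ih (by omega) _ (ctr_odd_deg hA hj (hb s) hy)
      have h2 := ctr_odd_pow hA hj (hb s) hθ (A.dim - (i + 1)) y
      rw [h0, mul_zero, smul_zero, zero_add, pow_succ', mul_assoc, h0, mul_zero, map_zero,
        ← pow_succ'] at h2
      rw [show A.dim - i = A.dim - (i + 1) + 1 by omega]
      exact h2.symm
    have h2 := he (i + 1) y hy
    rw [Finset.sum_eq_zero (fun s _ => by rw [h1 s, mul_zero])] at h2
    rcases smul_eq_zero.1 h2.symm with h | h
    · exact absurd h (by exact_mod_cast Nat.succ_ne_zero i)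
    · exact h

/-- **Lieberman's identity.** -/
theorem lieberman (hg : 0 < A.dim) {x : W.H A} (hx : x ∈ W.gr A 1) :
    (A.dim : W.K) • ctr W m (θ ^ (A.dim - 1) * x) θ = -(W.tr A (θ ^ A.dim)) • x := by
  have hj : (2 * (A.dim - 1) + 1) + 1 = 2 * A.dim := by omega
  set b := θ ^ (A.dim - 1) * x with hb
  have hbm : b ∈ W.gr A (2 * (A.dim - 1) + 1) := W.mul_mem (pow_mem_gr hθ _) hx
  have hcm : ctr W m b θ ∈ W.gr A 1 := ctr_odd_deg hA hj hbm hθ
  have key : ∀ y ∈ W.gr A 1, W.tr A (θ ^ (A.dim - 1) *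
      ((A.dim : W.K) • ctr W m b θ + (W.tr A (θ ^ A.dim)) • x) * y) = 0 := by
    intro y hy
    have h1 : y * θ ^ A.dim = 0 := by
      have h2 := W.mul_mem hy (pow_mem_gr hθ A.dim)
      rw [W.gr_eq_bot A _ (by omega), Submodule.mem_bot] at h2
      exact h2
    have h2 := ctr_odd hA hj hbm hy (θ ^ A.dim)
    have h3 := ctr_odd_pow hA hj hbm hθ (A.dim - 1) 1
    rw [ctr_one hbm (by omega), mul_zero, add_zero, mul_one, mul_one,
      show A.dim - 1 + 1 = A.dim by omega] at h3
    rw [h1, map_zero, h3] at h2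
    have h4 := congrArg (W.tr A) h2
    rw [map_zero, map_sub, map_smul, mul_smul_comm, map_smul] at h4
    have h5 : y * (ctr W m b θ * θ ^ (A.dim - 1)) = -(θ ^ (A.dim - 1) * ctr W m b θ * y) := by
      rw [← mul_assoc, ← two_pow_comm hθ, W.comm hy hcm, mul_smul_comm, mul_one, pow_one,
        neg_one_smul, mul_assoc]
    rw [h5, map_neg, smul_eq_mul, smul_eq_mul, hb] at h4
    rw [mul_add, add_mul, mul_smul_comm, mul_smul_comm, smul_mul_assoc, smul_mul_assoc, map_add,
      map_smul, map_smul, smul_eq_mul, smul_eq_mul]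
    linear_combination -h4
  have h6 : (A.dim : W.K) • ctr W m b θ + (W.tr A (θ ^ A.dim)) • x = 0 := by
    have hmem : (A.dim : W.K) • ctr W m b θ + (W.tr A (θ ^ A.dim)) • x ∈ W.gr A 1 :=
      Submodule.add_mem _ (Submodule.smul_mem _ _ hcm) (Submodule.smul_mem _ _ hx)
    apply hl_inj hA hθ ht 1 hg _ hmem
    apply W.nondeg
    intro y
    refine gr_induction (W.isInternal A) (p := fun y => W.tr A (θ ^ (A.dim - 1) *
      ((A.dim : W.K) • ctr W m b θ + (W.tr A (θ ^ A.dim)) • x) * y) = 0) ?_ ?_ y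
    · intro i y hy
      by_cases hi : i = 1
      · subst hi; exact key y hy
      · exact W.tr_eq_zero (W.mul_mem (W.mul_mem (pow_mem_gr hθ _) hmem) hy) (by omega)
    · intro y y' h1 h2
      rw [mul_add, map_add, h1, h2, add_zero]
  rw [neg_smul, eq_neg_iff_add_eq_zero]
  exact h6

omit ht in
lemma ctr_even_theta (hg : 0 < A.dim) {c : W.H A} (hc : c ∈ W.gr A (2 * (A.dim - 1))) :
    ctr W m c θ = W.tr A (c * θ) • (1 : W.H A) := by
  have h1 := hA.gen 2 hθ
  rw [pow_two] at h1
  have hev : (-1 : W.K) ^ (2 * (A.dim - 1)) = 1 := by rw [pow_mul]; simp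
  refine Submodule.mul_induction_on h1 ?_ ?_
  · intro x hx x' hx'
    have hj : (2 * (A.dim - 1) + 1) + 1 = 2 * A.dim := by omega
    have hcx' : c * x' ∈ W.gr A (2 * (A.dim - 1) + 1) := W.mul_mem hc hx'
    have hcx : c * x ∈ W.gr A (2 * (A.dim - 1) + 1) := W.mul_mem hc hx
    have e1 : ctr W m c x' = 0 := by
      have := ctr_mul hA hc hx' 1
      rwa [ctr_one hcx' (by omega), ctr_one hc (by omega), mul_zero, smul_zero, add_zero,
        mul_one] at this
    have e2 : ctr W m (c * x) x' = W.tr A (c * x * x') • (1 : W.H A) := by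
      have := ctr_odd hA hj hcx hx' 1
      rwa [ctr_one hcx (by omega), mul_zero, sub_zero, mul_one] at this
    rw [ctr_mul hA hc hx, e1, mul_zero, smul_zero, add_zero, e2, mul_assoc]
  · intro a b ha hb
    rw [map_add, ha, hb, mul_add, map_add, add_smul]

/-- The commutator with the Lefschetz operator. -/
theorem comm_rel (hg : 0 < A.dim) : ∀ i, ∀ y ∈ W.gr A i,
    ctr W m (θ ^ (A.dim - 1)) (θ * y) - θ * ctr W m (θ ^ (A.dim - 1)) y =
      (W.tr A (θ ^ A.dim) * (1 - (i : W.K) / A.dim)) • y := by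
  intro i y hy
  have hg' : (A.dim : W.K) ≠ 0 := by exact_mod_cast hg.ne'
  set c := θ ^ (A.dim - 1) with hc
  set t := W.tr A (θ ^ A.dim) with htt
  have hcm : c ∈ W.gr A (2 * (A.dim - 1)) := pow_mem_gr hθ _
  have hev : (-1 : W.K) ^ (2 * (A.dim - 1)) = 1 := by rw [pow_mul]; simp
  have hj : (2 * (A.dim - 1) + 1) + 1 = 2 * A.dim := by omega
  have hct : c * θ = θ ^ A.dim := by
    rw [hc, ← pow_succ, show A.dim - 1 + 1 = A.dim by omega]
  refine gen_induction' hA (p := fun i y => ctr W m c (θ * y) - θ * ctr W m c y =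
    (t * (1 - (i : W.K) / A.dim)) • y) ?_ ?_ ?_ hy
  · intro i a b ha hb
    rw [mul_add, map_add, map_add, mul_add, smul_add, ← ha, ← hb]
    abel
  · intro r
    rw [map_smul, mul_smul_comm, mul_one, map_smul, ctr_one hcm (by omega),
      ctr_even_theta hA hθ hg hcm, hct, smul_zero, mul_zero, sub_zero, Nat.cast_zero, zero_div,
      sub_zero, mul_one, smul_comm]
  · intro i x hx y _ ih
    have hcx : c * x ∈ W.gr A (2 * (A.dim - 1) + 1) := W.mul_mem hcm hx
    have h1 : θ * (x * y) = x * (θ * y) := by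
      rw [← mul_assoc, two_comm hθ, mul_assoc]
    have h2 := lieberman hA hθ ht hg hx
    rw [← hc, ← htt] at h2
    have h3 : ctr W m (c * x) θ = (-(t / A.dim)) • x := by
      have := congrArg (fun z => (A.dim : W.K)⁻¹ • z) h2
      simp only [smul_smul] at this
      rw [inv_mul_cancel₀ hg', one_smul] at this
      rw [this]
      congr 1
      field_simp
    rw [h1, ctr_mul hA hcm hx, ctr_mul hA hcm hx, hev, one_smul, one_smul,
      ctr_odd_two hA hj hcx hθ, h3, mul_add]
    have h4 : θ * (x * ctr W m c y) = x * (θ * ctr W m c y) := by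
      rw [← mul_assoc, two_comm hθ, mul_assoc]
    rw [h4]
    have h5 : x * ctr W m c (θ * y) = x * (θ * ctr W m c y) +
        (t * (1 - (i : W.K) / A.dim)) • (x * y) := by
      rw [← mul_smul_comm, ← ih, ← mul_add]
      congr 1
      abel
    rw [h5, smul_mul_assoc]
    have h6 : (t * (1 - ((i + 1 : ℕ) : W.K) / A.dim)) • (x * y) =
        (-(t / A.dim)) • (x * y) + (t * (1 - (i : W.K) / A.dim)) • (x * y) := by
      rw [← add_smul]
      congr 1
      push_cast
      field_simp
      ring
    rw [h6]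
    abel

omit hA hθ ht in
/-- Contraction with a class of degree `2 g - 2` lowers the degree by two. -/
lemma ctr_deg {c : W.H A} {j : ℕ} (hc : c ∈ W.gr A j) {i l : ℕ} (hl : i + j = l + 2 * A.dim)
    {y : W.H A} (hy : y ∈ W.gr A i) : ctr W m c y ∈ W.gr A l := by
  have h1 := W.push_mem (snd A A) (W.mul_mem (W.map_mem (fst A A) hc) (W.map_mem m hy))
  rw [dim_prod] at h1
  rw [ctr_apply, slc_apply, ← grZ_natCast (gr := W.gr A) l]
  convert h1 using 2
  push_cast
  omega

omit hA hθ ht in
lemma ctr_deg_zero {c : W.H A} {j : ℕ} (hc : c ∈ W.gr A j) {i : ℕ} (hl : i + j < 2 * A.dim)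
    {y : W.H A} (hy : y ∈ W.gr A i) : ctr W m c y = 0 := by
  have h1 := W.push_mem (snd A A) (W.mul_mem (W.map_mem (fst A A) hc) (W.map_mem m hy))
  rw [dim_prod, grZ_of_neg (by push_cast; omega), Submodule.mem_bot] at h1
  exact h1

/-- **The `sl_2`-triple.** -/
theorem sl2_of_hopf : ∃ r : W.K, Sl2 (wt (W.isInternal A) A.dim) (LinearMap.mulLeft W.K θ)
    (r • ctr W m (θ ^ (A.dim - 1))) ∧ (A.dim = 0 → r = 0) ∧
    r = A.dim / W.tr A (θ ^ A.dim) := by
  have hwt : ∀ i, ∀ y ∈ W.gr A i, wt (W.isInternal A) A.dim y = ((i : W.K) - A.dim) • y := by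
    intro i y hy
    rw [wt, scal_apply _ _ hy, node]
    push_cast
    rfl
  have htwo : ∀ y : W.H A, (2 : Module.End W.K (W.H A)) y = (2 : W.K) • y := by
    intro y
    rw [ofNat_smul_eq_nsmul]; rfl
  rcases Nat.eq_zero_or_pos A.dim with hg | hg
  · refine ⟨A.dim / W.tr A (θ ^ A.dim), ?_, ?_, rfl⟩
    · have hr : (A.dim : W.K) / W.tr A (θ ^ A.dim) = 0 := by rw [hg]; simp
      have hgr : ∀ i, ∀ y ∈ W.gr A i, y ≠ 0 → i = 0 := by
        intro i y hy h0
        by_contra hi
        rw [W.gr_eq_bot A i (by omega), Submodule.mem_bot] at hy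
        exact h0 hy
      have hw0 : wt (W.isInternal A) A.dim = 0 := by
        apply gr_ext (W.isInternal A)
        intro i y hy
        rw [hwt i y hy, LinearMap.zero_apply]
        by_cases h0 : y = 0
        · rw [h0, smul_zero]
        · rw [hgr i y hy h0, hg]; simp
      have he0 : LinearMap.mulLeft W.K θ = 0 := by
        have : θ = 0 := by
          rw [W.gr_eq_bot A 2 (by omega), Submodule.mem_bot] at hθ
          exact hθ
        rw [this]
        ext; simp
      rw [hr, zero_smul, hw0, he0]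
      constructor <;> simp
    · intro _; rw [hg]; simp
  · have hg' : (A.dim : W.K) ≠ 0 := by exact_mod_cast hg.ne'
    set t := W.tr A (θ ^ A.dim) with htt
    refine ⟨A.dim / t, ?_, fun h => by omega, rfl⟩
    have hcm : θ ^ (A.dim - 1) ∈ W.gr A (2 * (A.dim - 1)) := pow_mem_gr hθ _
    constructor
    · apply gr_ext (W.isInternal A)
      intro i y hy
      rw [LinearMap.sub_apply, Module.End.mul_apply, Module.End.mul_apply, LinearMap.smul_apply,
        LinearMap.smul_apply, LinearMap.mulLeft_apply, LinearMap.mulLeft_apply, mul_smul_comm,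
        ← smul_sub, hwt i y hy]
      have h1 := comm_rel hA hθ ht hg i y hy
      rw [← htt] at h1
      have h2 : θ * ctr W m (θ ^ (A.dim - 1)) y - ctr W m (θ ^ (A.dim - 1)) (θ * y) =
          -((t * (1 - (i : W.K) / A.dim)) • y) := by
        rw [← h1]; abel
      rw [h2, ← neg_smul, smul_smul]
      congr 1
      field_simp
      ring
    · apply gr_ext (W.isInternal A)
      intro i y hy
      rw [LinearMap.sub_apply, Module.End.mul_apply, Module.End.mul_apply, LinearMap.mulLeft_apply,
        Module.End.mul_apply, htwo, LinearMap.mulLeft_apply,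
        hwt (2 + i) _ (W.mul_mem hθ hy), hwt i y hy, mul_smul_comm, LinearMap.mulLeft_apply,
        ← sub_smul]
      congr 1
      push_cast
      ring
    · apply gr_ext (W.isInternal A)
      intro i y hy
      rw [LinearMap.sub_apply, Module.End.mul_apply, Module.End.mul_apply, LinearMap.neg_apply,
        Module.End.mul_apply, htwo, LinearMap.smul_apply, hwt i y hy, map_smul,
        LinearMap.smul_apply]
      by_cases hi : 2 ≤ i
      · have h1 : ctr W m (θ ^ (A.dim - 1)) y ∈ W.gr A (i - 2) :=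
          ctr_deg hcm (by omega) hy
        rw [map_smul, hwt (i - 2) _ h1, smul_smul, smul_smul, smul_smul, ← sub_smul, ← neg_smul]
        congr 1
        rw [Nat.cast_sub hi]
        push_cast
        ring
      · have h1 : ctr W m (θ ^ (A.dim - 1)) y = 0 := ctr_deg_zero hcm (by omega) hy
        rw [map_smul, h1]
        simp

end

end Pool.Agent.K7.H9
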