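import Pool.Agent.K7.H9.Lieb2

/-!
# The Lefschetz standard conjecture for the spans of algebraic classes on an abelian variety
-/

open CategoryTheory AlgebraicGeometry

universe u v

namespace Pool.Agent.K7.H9

open Pool.Agent.H914 Pool.Agent.H914.VarClass Pool.Agent.H914.VarClass.Obj
  Pool.Agent.H914.WeilCohomology Pool.Agent.R908 Pool.Agent.H281R3.HT

variable {k : Type u} [Field k] {𝒱 : VarClass k} {ops : CycleOps 𝒱}
  {W : WeilCohomology.{u, v} ops} {X Y A : 𝒱.Obj} {m : A.prod A ⟶ A}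

/-- The span of the classes of the cycles of codimension `j`. -/
def AK (W : WeilCohomology.{u, v} ops) (X : 𝒱.Obj) (j : ℕ) : Submodule W.K (W.H X) :=
  Submodule.span W.K (algClasses W X j)

lemma AK_of {j : ℕ} {a : W.H X} (ha : a ∈ algClasses W X j) : a ∈ AK W X j :=
  Submodule.subset_span ha

lemma AK_cl {j : ℕ} {z : X.Cycles} (hz : X.IsCyc j z) : W.cl X z ∈ AK W X j :=
  AK_of ⟨z, hz, rfl⟩

lemma AK_gr {j : ℕ} {a : W.H X} (ha : a ∈ AK W X j) : a ∈ W.gr X (2 * j) :=
  (Submodule.span_le.2 fun _ h => alg_gr h) ha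

lemma AK_mul {i j : ℕ} {a b : W.H X} (ha : a ∈ AK W X i) (hb : b ∈ AK W X j) :
    a * b ∈ AK W X (i + j) := by
  induction ha using Submodule.span_induction with
  | mem a ha =>
    induction hb using Submodule.span_induction with
    | mem b hb => exact AK_of (alg_mul ha hb)
    | zero => rw [mul_zero]; exact Submodule.zero_mem _
    | add x y _ _ hx hy => rw [mul_add]; exact Submodule.add_mem _ hx hy
    | smul r x _ hx => rw [mul_smul_comm]; exact Submodule.smul_mem _ _ hx
  | zero => rw [zero_mul]; exact Submodule.zero_mem _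
  | add x y _ _ hx hy => rw [add_mul]; exact Submodule.add_mem _ hx hy
  | smul r x _ hx => rw [smul_mul_assoc]; exact Submodule.smul_mem _ _ hx

lemma AK_one : (1 : W.H X) ∈ AK W X 0 := AK_of alg_one

lemma AK_pow {a : W.H X} (ha : a ∈ AK W X 1) (n : ℕ) : a ^ n ∈ AK W X n := by
  induction n with
  | zero => rw [pow_zero]; exact AK_one
  | succ n ih => rw [pow_succ]; exact AK_mul ih ha

lemma AK_map (g : X ⟶ Y) {j : ℕ} {a : W.H Y} (ha : a ∈ AK W Y j) : W.map g a ∈ AK W X j := by
  induction ha using Submodule.span_induction with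
  | mem a ha => exact AK_of (alg_map g ha)
  | zero => rw [map_zero]; exact Submodule.zero_mem _
  | add x y _ _ hx hy => rw [map_add]; exact Submodule.add_mem _ hx hy
  | smul r x _ hx => rw [map_smul]; exact Submodule.smul_mem _ _ hx

lemma AK_push (g : X ⟶ Y) {j i : ℕ} {a : W.H X} (ha : a ∈ AK W X j)
    (hij : j + Y.dim = i + X.dim) : W.push g a ∈ AK W Y i := by
  induction ha using Submodule.span_induction with
  | mem a ha => exact AK_of (alg_push g ha hij)
  | zero => rw [map_zero]; exact Submodule.zero_mem _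
  | add x y _ _ hx hy => rw [map_add]; exact Submodule.add_mem _ hx hy
  | smul r x _ hx => rw [map_smul]; exact Submodule.smul_mem _ _ hx

lemma AK_ctr {c : W.H A} {p : ℕ} (hc : c ∈ AK W A p) {j l : ℕ} {y : W.H A}
    (hy : y ∈ AK W A j) (hl : j + p = l + A.dim) : ctr W m c y ∈ AK W A l := by
  rw [ctr_apply, slc_apply]
  exact AK_push _ (AK_mul (AK_map _ hc) (AK_map _ hy)) (by rw [dim_prod]; omega)

/-- **The Lefschetz standard conjecture of type `A` for spans of algebraic classes, for any class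
`θ` in the span of the classes of divisors with `tr (θ ^ g) ≠ 0`.** -/
theorem lef_surj (hA : IsAbelianLike W A m) {θ : W.H A} (hθ : θ ∈ AK W A 1)
    (ht : W.tr A (θ ^ A.dim) ≠ 0) {n : ℕ} (hn : 2 * n ≤ A.dim) {b : W.H A}
    (hb : b ∈ AK W A (A.dim - n)) : ∃ a ∈ AK W A n, θ ^ (A.dim - 2 * n) * a = b := by
  have hθ2 : θ ∈ W.gr A 2 := AK_gr hθ
  obtain ⟨r, t, hr, -⟩ := sl2_of_hopf hA hθ2 ht
  set f := r • ctr W m (θ ^ (A.dim - 1)) with hf
  have hpow : ∀ (i : ℕ) (a : W.H A), ((LinearMap.mulLeft W.K θ) ^ i) a = θ ^ i * a := by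
    intro i a
    induction i generalizing a with
    | zero => simp
    | succ i ih => rw [pow_succ, Module.End.mul_apply, ih, LinearMap.mulLeft_apply, ← mul_assoc,
        ← pow_succ]
  have hmain : ∃ z, (z = 0 ∨ ∃ j : ℕ, (2 * j : ℤ) = -((A.dim - 2 * n : ℕ) : ℤ) + A.dim ∧
      z ∈ AK W A j) ∧ ((LinearMap.mulLeft W.K θ) ^ (A.dim - 2 * n)) z = b := by
    refine Pool.Agent.W552.exists_preimage' t
      (P := fun d x => x = 0 ∨ ∃ j : ℕ, (2 * j : ℤ) = d + A.dim ∧ x ∈ AK W A j)
      (fun d => Or.inl rfl) ?_ ?_ ?_ ?_ ?_ (A.dim - 2 * n) (y := b)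
      (Or.inr ⟨A.dim - n, by omega, hb⟩)
    · rintro d x y (rfl | ⟨j, hj, hx⟩) (rfl | ⟨j', hj', hy⟩)
      · exact Or.inl (add_zero _)
      · exact Or.inr ⟨j', hj', by rwa [zero_add]⟩
      · exact Or.inr ⟨j, hj, by rwa [add_zero]⟩
      · obtain rfl : j = j' := by omega
        exact Or.inr ⟨j, hj, Submodule.add_mem _ hx hy⟩
    · rintro q d x (rfl | ⟨j, hj, hx⟩)
      · exact Or.inl (smul_zero _)
      · exact Or.inr ⟨j, hj, Submodule.smul_mem _ _ hx⟩
    · rintro d x (rfl | ⟨j, hj, hx⟩)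
      · exact Or.inl (map_zero _)
      · refine Or.inr ⟨1 + j, by push_cast; linarith, ?_⟩
        rw [LinearMap.mulLeft_apply]
        exact AK_mul hθ hx
    · rintro d x (rfl | ⟨j, hj, hx⟩)
      · exact Or.inl (map_zero _)
      · rcases Nat.eq_zero_or_pos A.dim with hg | hg
        · left
          rw [hf, hr hg, zero_smul, LinearMap.zero_apply]
        · rcases Nat.eq_zero_or_pos j with h0 | h0
          · left
            rw [hf, LinearMap.smul_apply, ctr_deg_zero (pow_mem_gr hθ2 _) (i := 2 * j)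
              (by omega) (AK_gr hx), smul_zero]
          · right
            refine ⟨j - 1, by omega, ?_⟩
            rw [hf, LinearMap.smul_apply]
            exact Submodule.smul_mem _ _ (AK_ctr (AK_pow hθ _) hx (by omega))
    · rintro d x (rfl | ⟨j, hj, hx⟩)
      · rw [map_zero, smul_zero]
      · rw [wt, scal_apply _ _ (AK_gr hx), node]
        congr 1
        have : (d : W.K) = ((2 * j - A.dim : ℤ) : W.K) := by congr 1; omega
        rw [this]
        push_cast
        ring
  obtain ⟨z, hz, hzb⟩ := hmain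
  rw [hpow] at hzb
  rcases hz with rfl | ⟨j, hj, hz⟩
  · exact ⟨0, Submodule.zero_mem _, hzb⟩
  · obtain rfl : j = n := by omega
    exact ⟨z, hz, hzb⟩

end Pool.Agent.K7.H9
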