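import Pool.Agent.K7.H9.NumDefs

/-!
# Classes of polarized abelian varieties: definition
-/

open CategoryTheory AlgebraicGeometry

universe u v

namespace Pool.Agent.K7.H9

open Pool.Agent.H914 Pool.Agent.H914.VarClass Pool.Agent.H914.VarClass.Obj Pool.Agent.R908

variable {k : Type u} [Field k] {𝒱 : VarClass k} {ops : CycleOps 𝒱}

/-- A class `𝒜` of abelian varieties over `k` which is closed under products and contains an
elliptic curve, with the ample divisors `Amp A` on its members `A` (in the intended use: all abelian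
varieties over `k`, or those over an algebraically closed field, and all ample divisors): the
exterior sum of ample divisors on `A` and `B` is ample on `A × B`, and the mixed intersection numbers
`D ^ i · E ^ (dim A - i)` of two ample divisors are positive. -/
structure IsAbelianClass (W : WeilCohomology.{u, v} ops) (𝒜 : 𝒱.Obj → Prop)
    (Amp : ∀ A : 𝒱.Obj, A.Cycles → Prop) : Prop where
  abelian : ∀ A, 𝒜 A → ∃ m : A.prod A ⟶ A, IsAbelianLike W A m
  prod_mem : ∀ A B, 𝒜 A → 𝒜 B → 𝒜 (A.prod B)
  curve : ∃ E, 𝒜 E ∧ E.dim = 1 ∧ ∃ F, Amp E F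
  cyc : ∀ A, 𝒜 A → ∀ D, Amp A D → A.IsCyc 1 D
  box : ∀ A B, 𝒜 A → 𝒜 B → ∀ D F, Amp A D → Amp B F →
    Amp (A.prod B) (ops.pull (fst A B) D + ops.pull (snd A B) F)
  pos : ∀ A, 𝒜 A → ∀ D E, Amp A D → Amp A E → ∀ i ≤ A.dim, 0 < mixedNumber ops A D E i

end Pool.Agent.K7.H9
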