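import Pool.Agent.R908.AbDefs
import Pool.Agent.H914R2.HodgeDefs

/-!
# The numerical standard conjecture of Hodge type: definitions
-/

open CategoryTheory AlgebraicGeometry

universe u v

namespace Pool.Agent.K7.H9

open Pool.Agent.H914 Pool.Agent.H914.VarClass Pool.Agent.H914.VarClass.Obj

variable {k : Type u} [Field k] {𝒱 : VarClass k}

/-- The cycle `z` of codimension `i` on `X` is numerically equivalent to zero: the intersection
numbers with all cycles of the complementary codimension `dim X - i` vanish (no condition if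
`i > dim X`). -/
def NumZero (ops : CycleOps 𝒱) (X : 𝒱.Obj) (i : ℕ) (z : X.Cycles) : Prop :=
  ∀ (j : ℕ) (w : X.Cycles), i + j = X.dim → X.IsCyc j w → X.V.degCycle (ops.mul z w) = 0

/-- The numerical standard conjecture of Hodge type for `X` and the divisor `D` in codimension `n`
(where `2 n ≤ g = dim X`): for all cycles `z` of codimension `n` such that `D ^ (g - 2 n + 1) · z` is
numerically equivalent to zero, and `z` is not, the number `(-1) ^ n deg (z · D ^ (g - 2 n) · z)` is
positive. -/
def NumHodge (ops : CycleOps 𝒱) (X : 𝒱.Obj) (D : X.Cycles) (n : ℕ) : Prop :=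
  ∀ z, X.IsCyc n z → NumZero ops X (X.dim - n + 1) (divPow ops D (X.dim - 2 * n + 1) z) →
    ¬ NumZero ops X n z →
    0 < (-1 : ℚ) ^ n * X.V.degCycle (ops.mul z (divPow ops D (X.dim - 2 * n) z))

/-- The intersection number `D ^ i · E ^ (g - i)` of two divisors, `g = dim X`. -/
noncomputable def mixedNumber (ops : CycleOps 𝒱) (X : 𝒱.Obj) (D E : X.Cycles) (i : ℕ) : ℚ :=
  X.V.degCycle (divPow ops D i (divPow ops E (X.dim - i) X.V.fundCycle))

end Pool.Agent.K7.H9
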