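import Mathlib

/-!
# A deformation argument for definite forms
-/

open Matrix Set Polynomial

namespace Pool.Agent.K7.H9

section Path

variable {r s : ℕ}

/-- The form `x ↦ ε x^T B x` is positive on the nonzero vectors in the kernel of `N^T B`. -/
def PosOn (B : Matrix (Fin r) (Fin r) ℝ) (N : Matrix (Fin r) (Fin s) ℝ) (ε : ℝ) : Prop :=
  ∀ x : Fin r → ℝ, Nᵀ *ᵥ (B *ᵥ x) = 0 → x ≠ 0 → 0 < ε * (x ⬝ᵥ (B *ᵥ x))

/-- The projection to the kernel of `N^T B`, up to a factor. -/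
noncomputable def prj (B : Matrix (Fin r) (Fin r) ℝ) (N : Matrix (Fin r) (Fin s) ℝ)
    (x : Fin r → ℝ) : Fin r → ℝ :=
  (Nᵀ * B * N).det • x - N *ᵥ ((Nᵀ * B * N).adjugate *ᵥ (Nᵀ *ᵥ (B *ᵥ x)))

lemma prj_ker (B : Matrix (Fin r) (Fin r) ℝ) (N : Matrix (Fin r) (Fin s) ℝ) (x : Fin r → ℝ) :
    Nᵀ *ᵥ (B *ᵥ (prj B N x)) = 0 := by
  have h1 : Nᵀ *ᵥ (B *ᵥ (N *ᵥ ((Nᵀ * B * N).adjugate *ᵥ (Nᵀ *ᵥ (B *ᵥ x))))) =
      (Nᵀ * B * N).det • (Nᵀ *ᵥ (B *ᵥ x)) := by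
    rw [mulVec_mulVec, mulVec_mulVec, mulVec_mulVec, mul_adjugate,
      smul_mulVec, one_mulVec]
  rw [prj, mulVec_sub, mulVec_sub, mulVec_smul, mulVec_smul, h1, sub_self]

lemma prj_of_ker {B : Matrix (Fin r) (Fin r) ℝ} {N : Matrix (Fin r) (Fin s) ℝ} {x : Fin r → ℝ}
    (hx : Nᵀ *ᵥ (B *ᵥ x) = 0) : prj B N x = (Nᵀ * B * N).det • x := by
  rw [prj, hx, mulVec_zero, mulVec_zero, sub_zero]

lemma quad_smul (B : Matrix (Fin r) (Fin r) ℝ) (c : ℝ) (x : Fin r → ℝ) :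
    (c • x) ⬝ᵥ (B *ᵥ (c • x)) = c ^ 2 * (x ⬝ᵥ (B *ᵥ x)) := by
  rw [mulVec_smul, smul_dotProduct, dotProduct_smul, smul_eq_mul, smul_eq_mul]
  ring

lemma symm_form {B : Matrix (Fin r) (Fin r) ℝ} (hB : Bᵀ = B) (x y : Fin r → ℝ) :
    x ⬝ᵥ (B *ᵥ y) = y ⬝ᵥ (B *ᵥ x) := by
  rw [dotProduct_mulVec, ← mulVec_transpose, hB, dotProduct_comm]

/-- A semidefinite nondegenerate form is definite. -/
lemma posOn_of_semi {B : Matrix (Fin r) (Fin r) ℝ} {N : Matrix (Fin r) (Fin s) ℝ} {ε : ℝ}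
    (hε : ε ≠ 0) (hB : Bᵀ = B) (hdet : B.det ≠ 0) (hdet' : (Nᵀ * B * N).det ≠ 0)
    (h : ∀ x : Fin r → ℝ, 0 ≤ ε * (prj B N x ⬝ᵥ (B *ᵥ prj B N x))) : PosOn B N ε := by
  have hker : ∀ x : Fin r → ℝ, Nᵀ *ᵥ (B *ᵥ x) = 0 → 0 ≤ ε * (x ⬝ᵥ (B *ᵥ x)) := by
    intro x hx
    have h1 := h x
    rw [prj_of_ker hx, quad_smul, mul_left_comm] at h1
    exact nonneg_of_mul_nonneg_right h1 (by positivity)
  intro x hx hx0
  rcases (hker x hx).lt_or_eq with h1 | h1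
  · exact h1
  exfalso
  apply hx0
  have h2 : x ⬝ᵥ (B *ᵥ x) = 0 := by
    rcases mul_eq_zero.1 h1.symm with h | h
    · exact absurd h hε
    · exact h
  -- orthogonality to the kernel
  have h3 : ∀ y : Fin r → ℝ, Nᵀ *ᵥ (B *ᵥ y) = 0 → x ⬝ᵥ (B *ᵥ y) = 0 := by
    intro y hy
    by_contra hne
    set b := ε * (x ⬝ᵥ (B *ᵥ y)) with hb
    have hb0 : b ≠ 0 := mul_ne_zero hε hne
    set c := ε * (y ⬝ᵥ (B *ᵥ y)) with hc
    have h4 : ∀ τ : ℝ, 0 ≤ 2 * τ * b + τ ^ 2 * c := by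
      intro τ
      have h5 := hker (x + τ • y) (by
        rw [mulVec_add, mulVec_add, mulVec_smul, mulVec_smul, hx, hy, smul_zero, add_zero])
      have h6 : ε * ((x + τ • y) ⬝ᵥ (B *ᵥ (x + τ • y))) = 2 * τ * b + τ ^ 2 * c := by
        rw [mulVec_add, mulVec_smul, add_dotProduct, dotProduct_add, dotProduct_add,
          smul_dotProduct, smul_dotProduct, dotProduct_smul, dotProduct_smul, h2,
          symm_form hB y x]
        simp only [smul_eq_mul]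
        rw [hb, hc]
        ring
      rwa [h6] at h5
    have hc0 : 0 ≤ c := hker y hy
    have h5 := h4 (-b / (c + 1))
    have h6 : 2 * (-b / (c + 1)) * b + (-b / (c + 1)) ^ 2 * c =
        -(b ^ 2 * (c + 2)) / (c + 1) ^ 2 := by
      have : c + 1 ≠ 0 := by positivity
      field_simp
      ring
    rw [h6] at h5
    have h7 : -(b ^ 2 * (c + 2)) / (c + 1) ^ 2 < 0 := by
      apply div_neg_of_neg_of_pos
      · have : 0 < b ^ 2 := by positivity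
        nlinarith
      · positivity
    linarith
  have h4 : ∀ y : Fin r → ℝ, x ⬝ᵥ (B *ᵥ y) = 0 := by
    intro y
    have h5 := h3 _ (prj_ker B N y)
    have h6 : x ⬝ᵥ (B *ᵥ (N *ᵥ ((Nᵀ * B * N).adjugate *ᵥ (Nᵀ *ᵥ (B *ᵥ y))))) = 0 := by
      rw [symm_form hB, dotProduct_comm, dotProduct_mulVec, ← mulVec_transpose, hx,
        zero_dotProduct]
    rw [prj, mulVec_sub, mulVec_smul, dotProduct_sub, dotProduct_smul, h6, sub_zero,
      smul_eq_mul] at h5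
    rcases mul_eq_zero.1 h5 with h | h
    · exact absurd h hdet'
    · exact h
  have h5 : B *ᵥ x = 0 := by
    funext i
    have := h4 (Pi.single i 1)
    rw [symm_form hB] at this
    simpa using this
  have h6 := Matrix.eq_zero_of_mulVec_eq_zero hdet h5
  exact h6

lemma semi_of_posOn {B : Matrix (Fin r) (Fin r) ℝ} {N : Matrix (Fin r) (Fin s) ℝ} {ε : ℝ}
    (h : PosOn B N ε) (x : Fin r → ℝ) : 0 ≤ ε * (prj B N x ⬝ᵥ (B *ᵥ prj B N x)) := by
  by_cases h0 : prj B N x = 0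
  · rw [h0, zero_dotProduct, mul_zero]
  · exact (h _ (prj_ker B N x) h0).le

/-- **Deformation of definite forms.** -/
theorem path {B : ℝ → Matrix (Fin r) (Fin r) ℝ} {N : ℝ → Matrix (Fin r) (Fin s) ℝ}
    (hBc : Continuous B) (hNc : Continuous N) (hB : ∀ t, (B t)ᵀ = B t)
    (hdet : ∀ t ∈ Icc (0 : ℝ) 1, (B t).det ≠ 0)
    (hdet' : ∀ t ∈ Icc (0 : ℝ) 1, ((N t)ᵀ * B t * N t).det ≠ 0) {ε : ℝ} (hε : ε ≠ 0)
    (h0 : PosOn (B 0) (N 0) ε) : ∀ t ∈ Icc (0 : ℝ) 1, PosOn (B t) (N t) ε := by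
  have hprj : ∀ x : Fin r → ℝ, Continuous fun t => prj (B t) (N t) x := by
    intro x
    unfold prj
    fun_prop
  have hsub : Icc (0 : ℝ) 1 ⊆ {t | t ∈ Icc (0 : ℝ) 1 → PosOn (B t) (N t) ε} := by
    refine IsClosed.Icc_subset_of_forall_mem_nhdsWithin ?_ ?_ ?_
    · have h1 : {t | t ∈ Icc (0 : ℝ) 1 → PosOn (B t) (N t) ε} ∩ Icc (0 : ℝ) 1 =
          Icc (0 : ℝ) 1 ∩ ⋂ x : Fin r → ℝ, {t | 0 ≤ ε * (prj (B t) (N t) x ⬝ᵥ
            (B t *ᵥ prj (B t) (N t) x))} := by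
        ext t
        constructor
        · rintro ⟨h1, h2⟩
          refine ⟨h2, mem_iInter.2 fun x => semi_of_posOn (h1 h2) x⟩
        · rintro ⟨h1, h2⟩
          refine ⟨fun _ => posOn_of_semi hε (hB t) (hdet t h1) (hdet' t h1) fun x =>
            mem_iInter.1 h2 x, h1⟩
      rw [h1]
      refine isClosed_Icc.inter (isClosed_iInter fun x => isClosed_le continuous_const ?_)
      have := hprj x
      fun_prop
    · intro _; exact h0
    · rintro t ⟨ht, ht'⟩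
      have htI : t ∈ Icc (0 : ℝ) 1 := ⟨ht'.1, ht'.2.le⟩
      have hpos := ht htI
      -- the bad set
      set K : Set (ℝ × (Fin r → ℝ)) := {p | p.1 ∈ Icc (0 : ℝ) 1 ∧ p.2 ∈ Metric.sphere 0 1 ∧
        (N p.1)ᵀ *ᵥ (B p.1 *ᵥ p.2) = 0 ∧ ε * (p.2 ⬝ᵥ (B p.1 *ᵥ p.2)) ≤ 0} with hK
      have hKc : IsCompact K := by
        refine IsCompact.of_isClosed_subset ((isCompact_Icc (a := (0 : ℝ)) (b := 1)).prod
          (isCompact_sphere (0 : Fin r → ℝ) 1)) ?_ ?_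
        · have e1 : K = {p | p.1 ∈ Icc (0 : ℝ) 1} ∩ ({p | p.2 ∈ Metric.sphere 0 1} ∩
              ({p | (N p.1)ᵀ *ᵥ (B p.1 *ᵥ p.2) = 0} ∩
                {p | ε * (p.2 ⬝ᵥ (B p.1 *ᵥ p.2)) ≤ 0})) := by
            ext p; simp [hK]
          rw [e1]
          refine (isClosed_Icc.preimage continuous_fst).inter
            ((Metric.isClosed_sphere.preimage continuous_snd).inter
              ((isClosed_eq ?_ continuous_const).inter (isClosed_le ?_ continuous_const)))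
          · fun_prop
          · fun_prop
        · rintro p ⟨h1, h2, _⟩
          exact ⟨h1, h2⟩
      have hcl : IsClosed (Prod.fst '' K) := (hKc.image continuous_fst).isClosed
      have hnot : t ∉ Prod.fst '' K := by
        rintro ⟨⟨t', y⟩, ⟨h1, h2, h3, h4⟩, rfl⟩
        have hy : y ≠ 0 := by
          rintro rfl
          simp at h2
        exact absurd (hpos y h3 hy) (not_lt.2 h4)
      have hopen : (Prod.fst '' K)ᶜ ∈ nhds t := hcl.isOpen_compl.mem_nhds hnot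
      filter_upwards [mem_nhdsWithin_of_mem_nhds hopen] with t' ht'' hI x hx hx0
      by_contra hcon
      apply ht''
      have hn : 0 < ‖x‖ := norm_pos_iff.2 hx0
      refine ⟨(t', ‖x‖⁻¹ • x), ⟨hI, ?_, ?_, ?_⟩, rfl⟩
      · rw [mem_sphere_zero_iff_norm, norm_smul, norm_inv, norm_norm, inv_mul_cancel₀ hn.ne']
      · change (N t')ᵀ *ᵥ (B t' *ᵥ (‖x‖⁻¹ • x)) = 0
        rw [mulVec_smul, mulVec_smul, hx, smul_zero]
      · change ε * ((‖x‖⁻¹ • x) ⬝ᵥ (B t' *ᵥ (‖x‖⁻¹ • x))) ≤ 0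
        rw [quad_smul, mul_left_comm]
        exact mul_nonpos_of_nonneg_of_nonpos (by positivity) (not_lt.1 hcon)
  exact fun t ht => hsub ht ht

end Path

section Rat

variable {r s : ℕ}

/-- The rational version of `PosOn`. -/
def PosOnQ (B : Matrix (Fin r) (Fin r) ℚ) (N : Matrix (Fin r) (Fin s) ℚ) (ε : ℚ) : Prop :=
  ∀ x : Fin r → ℚ, Nᵀ *ᵥ (B *ᵥ x) = 0 → x ≠ 0 → 0 < ε * (x ⬝ᵥ (B *ᵥ x))

/-- A rational matrix as a real matrix. -/
noncomputable def toR {a b : ℕ} (M : Matrix (Fin a) (Fin b) ℚ) : Matrix (Fin a) (Fin b) ℝ :=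
  M.map (Rat.castHom ℝ)

lemma toR_mulVec {a b : ℕ} (M : Matrix (Fin a) (Fin b) ℚ) (x : Fin b → ℚ) :
    toR M *ᵥ (fun i => (x i : ℝ)) = fun i => (((M *ᵥ x) i : ℚ) : ℝ) := by
  funext i
  have := RingHom.map_mulVec (Rat.castHom ℝ) M x i
  simpa [toR, Function.comp_def] using this.symm

lemma toR_dot {a : ℕ} (x y : Fin a → ℚ) :
    (fun i => (x i : ℝ)) ⬝ᵥ (fun i => (y i : ℝ)) = ((x ⬝ᵥ y : ℚ) : ℝ) := by
  simp [dotProduct]

lemma toR_transpose {a b : ℕ} (M : Matrix (Fin a) (Fin b) ℚ) : (toR M)ᵀ = toR Mᵀ := rfl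

lemma posOnQ_of_real {B : Matrix (Fin r) (Fin r) ℚ} {N : Matrix (Fin r) (Fin s) ℚ} {ε : ℚ}
    (h : PosOn (toR B) (toR N) (ε : ℝ)) : PosOnQ B N ε := by
  intro x hx hx0
  have h1 := h (fun i => (x i : ℝ)) (by
    rw [toR_mulVec, toR_transpose, toR_mulVec, hx]
    funext i; simp) (by
    intro h0
    apply hx0
    funext i
    have h1 := congrFun h0 i
    simp only [Pi.zero_apply] at h1 ⊢
    exact_mod_cast h1)
  rw [toR_mulVec, toR_dot] at h1
  exact_mod_cast h1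

lemma real_of_posOnQ {B : Matrix (Fin r) (Fin r) ℚ} {N : Matrix (Fin r) (Fin s) ℚ} {ε : ℚ}
    (hε : ε ≠ 0) (hB : Bᵀ = B) (hdet : B.det ≠ 0) (hdet' : (Nᵀ * B * N).det ≠ 0)
    (h : PosOnQ B N ε) : PosOn (toR B) (toR N) (ε : ℝ) := by
  have hmul : ∀ {a b c : ℕ} (M : Matrix (Fin a) (Fin b) ℚ) (M' : Matrix (Fin b) (Fin c) ℚ),
      toR M * toR M' = toR (M * M') := by
    intro a b c M M'
    rw [toR, toR, toR, Matrix.map_mul]
  have hdetR : ∀ {a : ℕ} (M : Matrix (Fin a) (Fin a) ℚ), (toR M).det = ((M.det : ℚ) : ℝ) := by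
    intro a M
    exact (RingHom.map_det (Rat.castHom ℝ) M).symm
  apply posOn_of_semi (by exact_mod_cast hε)
  · rw [toR_transpose, hB]
  · rw [hdetR]; exact_mod_cast hdet
  · rw [toR_transpose, hmul, hmul, hdetR]; exact_mod_cast hdet'
  -- density
  intro x
  have hcont : Continuous fun x : Fin r → ℝ =>
      (ε : ℝ) * (prj (toR B) (toR N) x ⬝ᵥ (toR B *ᵥ prj (toR B) (toR N) x)) := by
    unfold prj
    fun_prop
  have hdense : DenseRange (fun (q : Fin r → ℚ) (i : Fin r) => (q i : ℝ)) :=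
    DenseRange.piMap fun _ => Rat.denseRange_cast
  have hcl : IsClosed {x : Fin r → ℝ | 0 ≤
      (ε : ℝ) * (prj (toR B) (toR N) x ⬝ᵥ (toR B *ᵥ prj (toR B) (toR N) x))} :=
    isClosed_le continuous_const hcont
  refine hdense.induction_on (p := fun x => 0 ≤
      (ε : ℝ) * (prj (toR B) (toR N) x ⬝ᵥ (toR B *ᵥ prj (toR B) (toR N) x))) x hcl ?_
  intro q
  -- the projection of a rational vector is rational
  set p : Fin r → ℚ := (Nᵀ * B * N).det • q - N *ᵥ ((Nᵀ * B * N).adjugate *ᵥ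
    (Nᵀ *ᵥ (B *ᵥ q))) with hp
  have hadj : (toR (Nᵀ * B * N)).adjugate = toR (Nᵀ * B * N).adjugate :=
    (RingHom.map_adjugate (Rat.castHom ℝ) (Nᵀ * B * N)).symm
  have h1 : prj (toR B) (toR N) (fun i => (q i : ℝ)) = fun i => (p i : ℝ) := by
    rw [prj, toR_transpose, hmul, hmul, hdetR, hadj, toR_mulVec, toR_mulVec, toR_mulVec,
      toR_mulVec]
    funext i
    simp [hp]
  have hpk : Nᵀ *ᵥ (B *ᵥ p) = 0 := by
    have e1 : Nᵀ *ᵥ (B *ᵥ (N *ᵥ ((Nᵀ * B * N).adjugate *ᵥ (Nᵀ *ᵥ (B *ᵥ q))))) =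
        (Nᵀ * B * N).det • (Nᵀ *ᵥ (B *ᵥ q)) := by
      rw [mulVec_mulVec, mulVec_mulVec, mulVec_mulVec, mul_adjugate,
        smul_mulVec, one_mulVec]
    rw [hp, mulVec_sub, mulVec_sub, mulVec_smul, mulVec_smul, e1, sub_self]
  rw [h1, toR_mulVec, toR_dot]
  by_cases h0 : p = 0
  · rw [h0]; simp
  · have h2 := (h p hpk h0).le
    exact_mod_cast h2

end Rat

section Root

/-- Transfer of nonvanishing from an algebraically closed field to the real numbers. -/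
lemma root_transfer {K : Type*} [Field K] [CharZero K] [IsAlgClosed K] {p v : ℚ[X]}
    (h : ∀ ξ : K, aeval ξ v ≠ 0 → aeval ξ p ≠ 0) {t : ℝ} (ht : aeval t v ≠ 0) :
    aeval t p ≠ 0 := by
  classical
  intro hp
  have hv0 : v ≠ 0 := by
    rintro rfl
    simp at ht
  have hp0 : p ≠ 0 := by
    rintro rfl
    obtain ⟨ξ, hξ⟩ := Infinite.exists_notMem_finset ((v.map (algebraMap ℚ K)).roots.toFinset)
    apply h ξ
    · intro h0
      apply hξ
      rw [Multiset.mem_toFinset, mem_roots (Polynomial.map_ne_zero hv0), IsRoot, eval_map_algebraMap]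
      exact h0
    · simp
  have halg : IsAlgebraic ℚ t := ⟨p, hp0, hp⟩
  have hint : IsIntegral ℚ t := halg.isIntegral
  set π := minpoly ℚ t with hπ
  have hirr : Irreducible π := minpoly.irreducible hint
  have hdvd : π ∣ p := minpoly.dvd ℚ t hp
  obtain ⟨ξ, hξ⟩ := IsAlgClosed.exists_aeval_eq_zero K π
    (Polynomial.degree_pos_of_irreducible hirr).ne'
  have h1 : aeval ξ p = 0 := by
    obtain ⟨c, hc⟩ := hdvd
    rw [hc, map_mul, hξ, zero_mul]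
  have h2 : aeval ξ v = 0 := by
    by_contra h0
    exact h ξ h0 h1
  have h3 : π ∣ v := by
    by_contra hnd
    have hcop : IsCoprime π v := (hirr.coprime_iff_not_dvd).2 hnd
    obtain ⟨a, b, hab⟩ := hcop
    have h4 := congrArg (aeval ξ) hab
    rw [map_add, map_mul, map_mul, hξ, h2, mul_zero, mul_zero, add_zero, map_one] at h4
    exact zero_ne_one h4
  apply ht
  obtain ⟨c, hc⟩ := h3
  rw [hc, map_mul, minpoly.aeval, zero_mul]

end Root

end Pool.Agent.K7.H9
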