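import Pool.Agent.K7.H9.Lieb3
import Pool.Agent.K7.H9.PathA
import Pool.Agent.K7.H9.NumDefs

/-!
# Rational bases modulo numerical equivalence
-/

open CategoryTheory AlgebraicGeometry Polynomial

universe u v

namespace Pool.Agent.K7.H9

open Pool.Agent.H914 Pool.Agent.H914.VarClass Pool.Agent.H914.VarClass.Obj
  Pool.Agent.H914.WeilCohomology Pool.Agent.R908 Pool.Agent.H281R3.HT

variable {k : Type u} [Field k] {𝒱 : VarClass k} {ops : CycleOps 𝒱}
  {W : WeilCohomology.{u, v} ops} {X Y A : 𝒱.Obj} {m : A.prod A ⟶ A}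

/-- Biorthogonal families of algebraic classes. -/
structure Bior (W : WeilCohomology.{u, v} ops) (X : 𝒱.Obj) (n n' r : ℕ) (a a' : Fin r → W.H X) :
    Prop where
  mem : ∀ i, a i ∈ algClasses W X n
  mem' : ∀ i, a' i ∈ algClasses W X n'
  dual : ∀ i j, W.tr X (a i * a' j) = if i = j then 1 else 0

lemma Bior.lin {n n' r : ℕ} {a a' : Fin r → W.H X} (h : Bior W X n n' r a a') :
    LinearIndependent W.K a := by
  rw [Fintype.linearIndependent_iff]
  intro g hg i
  have h1 := congrArg (fun y => W.tr X (y * a' i)) hg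
  simp only [Finset.sum_mul, map_sum, smul_mul_assoc, map_smul, h.dual, zero_mul, map_zero,
    smul_eq_mul, mul_ite, mul_one, mul_zero, Finset.sum_ite_eq', Finset.mem_univ, if_true] at h1
  exact h1

/-- A maximal biorthogonal family computes the pairing. -/
theorem exists_bior (W : WeilCohomology.{u, v} ops) (X : 𝒱.Obj) (n n' : ℕ) :
    ∃ (r : ℕ) (a a' : Fin r → W.H X), Bior W X n n' r a a' ∧
      ∀ c ∈ algClasses W X n, ∀ c' ∈ algClasses W X n',
        W.tr X (c * c') = ∑ i, W.tr X (c * a' i) * W.tr X (a i * c') := by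
  classical
  let S : Set ℕ := {r | ∃ a a' : Fin r → W.H X, Bior W X n n' r a a'}
  have hS0 : (0 : ℕ) ∈ S := ⟨Fin.elim0, Fin.elim0, fun i => i.elim0, fun i => i.elim0,
    fun i => i.elim0⟩
  have hSb : BddAbove S := by
    refine ⟨Module.finrank W.K (W.H X), ?_⟩
    rintro r ⟨a, a', h⟩
    have := h.lin.fintype_card_le_finrank
    rwa [Fintype.card_fin] at this
  have hmax : sSup S ∈ S := Nat.sSup_mem ⟨0, hS0⟩ hSb
  obtain ⟨a, a', h⟩ := hmax
  refine ⟨sSup S, a, a', h, ?_⟩
  intro c hc c' hc'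
  by_contra hne
  choose q hq using fun i => alg_rat hc (h.mem' i)
  choose q' hq' using fun i => alg_rat (h.mem i) hc'
  simp only [bil_apply] at hq hq'
  set c1 := c - ∑ i, (q i : W.K) • a i with hc1
  set c1' := c' - ∑ i, (q' i : W.K) • a' i with hc1'
  have hc1m : c1 ∈ algClasses W X n :=
    alg_sub hc (alg_sum Finset.univ _ q (fun i _ => h.mem i))
  have hc1m' : c1' ∈ algClasses W X n' :=
    alg_sub hc' (alg_sum Finset.univ _ q' (fun i _ => h.mem' i))
  have h1 : ∀ j, W.tr X (c1 * a' j) = 0 := by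
    intro j
    rw [hc1, sub_mul, map_sub, hq j, Finset.sum_mul, map_sum, Finset.sum_eq_single j]
    · rw [smul_mul_assoc, map_smul, h.dual, if_pos rfl, smul_eq_mul, mul_one, sub_self]
    · intro i _ hij
      rw [smul_mul_assoc, map_smul, h.dual, if_neg hij, smul_zero]
    · intro h0; exact absurd (Finset.mem_univ _) h0
  have h1' : ∀ j, W.tr X (a j * c1') = 0 := by
    intro j
    rw [hc1', mul_sub, map_sub, hq' j, Finset.mul_sum, map_sum, Finset.sum_eq_single j]
    · rw [mul_smul_comm, map_smul, h.dual, if_pos rfl, smul_eq_mul, mul_one, sub_self]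
    · intro i _ hij
      rw [mul_smul_comm, map_smul, h.dual, if_neg (Ne.symm hij), smul_zero]
    · intro h0; exact absurd (Finset.mem_univ _) h0
  obtain ⟨s, hs⟩ := alg_rat hc1m hc1m'
  rw [bil_apply] at hs
  have hs0 : s ≠ 0 := by
    rintro rfl
    apply hne
    have h2 : W.tr X (c1 * c1') = W.tr X (c * c') - ∑ i, W.tr X (c * a' i) * W.tr X (a i * c') := by
      have e1 : W.tr X (c1 * c1') = W.tr X (c1 * c') - ∑ i, (q' i : W.K) * W.tr X (c1 * a' i) := by
        rw [hc1', mul_sub, map_sub, Finset.mul_sum, map_sum]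
        congr 1
        apply Finset.sum_congr rfl
        intro i _
        rw [mul_smul_comm, map_smul, smul_eq_mul]
      rw [e1, Finset.sum_eq_zero (fun i _ => by rw [h1 i, mul_zero]), sub_zero, hc1, sub_mul,
        map_sub, Finset.sum_mul, map_sum]
      congr 1
      apply Finset.sum_congr rfl
      intro i _
      rw [smul_mul_assoc, map_smul, smul_eq_mul, hq i]
    rw [hs, Rat.cast_zero] at h2
    exact (sub_eq_zero.1 h2.symm)
  have hbig : sSup S + 1 ∈ S := by
    refine ⟨Fin.snoc a c1, Fin.snoc a' (((s⁻¹ : ℚ) : W.K) • c1'), ?_, ?_, ?_⟩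
    · intro i
      refine Fin.lastCases ?_ (fun i => ?_) i
      · rw [Fin.snoc_last]; exact hc1m
      · rw [Fin.snoc_castSucc]; exact h.mem i
    · intro i
      refine Fin.lastCases ?_ (fun i => ?_) i
      · rw [Fin.snoc_last]; exact alg_smul _ hc1m'
      · rw [Fin.snoc_castSucc]; exact h.mem' i
    · intro i j
      refine Fin.lastCases ?_ (fun i => ?_) i
      · refine Fin.lastCases ?_ (fun j => ?_) j
        · rw [Fin.snoc_last, Fin.snoc_last, if_pos rfl, mul_smul_comm, map_smul, hs, smul_eq_mul,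
            ← Rat.cast_mul, inv_mul_cancel₀ hs0, Rat.cast_one]
        · rw [Fin.snoc_last, Fin.snoc_castSucc, h1, if_neg (Fin.castSucc_lt_last j).ne']
      · refine Fin.lastCases ?_ (fun j => ?_) j
        · rw [Fin.snoc_last, Fin.snoc_castSucc, mul_smul_comm, map_smul, h1', smul_zero,
            if_neg (Fin.castSucc_lt_last i).ne]
        · rw [Fin.snoc_castSucc, Fin.snoc_castSucc, h.dual]
          simp only [Fin.castSucc_inj]
  have := le_csSup hSb hbig
  omega

/-- The pairing on the spans. -/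
lemma bior_span {n n' r : ℕ} {a a' : Fin r → W.H X}
    (h : ∀ c ∈ algClasses W X n, ∀ c' ∈ algClasses W X n',
        W.tr X (c * c') = ∑ i, W.tr X (c * a' i) * W.tr X (a i * c')) {c c' : W.H X}
    (hc : c ∈ AK W X n) (hc' : c' ∈ AK W X n') :
    W.tr X (c * c') = ∑ i, W.tr X (c * a' i) * W.tr X (a i * c') := by
  induction hc using Submodule.span_induction with
  | mem c hc =>
    induction hc' using Submodule.span_induction with
    | mem c' hc' => exact h c hc c' hc'
    | zero => simp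
    | add x y _ _ hx hy =>
      simp only [mul_add, map_add, hx, hy, Finset.sum_add_distrib]
    | smul q x _ hx =>
      simp only [mul_smul_comm, map_smul, smul_eq_mul, hx, Finset.mul_sum]
      apply Finset.sum_congr rfl
      intro i _
      ring
  | zero => simp
  | add x y _ _ hx hy =>
    simp only [add_mul, map_add, hx, hy, Finset.sum_add_distrib]
  | smul q x _ hx =>
    simp only [smul_mul_assoc, map_smul, smul_eq_mul, hx, Finset.mul_sum]
    apply Finset.sum_congr rfl
    intro i _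
    ring

/-- The class `(1 - ξ) D + ξ E`. -/
noncomputable def seg (W : WeilCohomology.{u, v} ops) (X : 𝒱.Obj) (D E : X.Cycles) (ξ : W.K) :
    W.H X :=
  (1 - ξ) • W.cl X D + ξ • W.cl X E

lemma seg_AK {D E : X.Cycles} (hD : X.IsCyc 1 D) (hE : X.IsCyc 1 E) (ξ : W.K) :
    seg W X D E ξ ∈ AK W X 1 :=
  Submodule.add_mem _ (Submodule.smul_mem _ _ (AK_cl hD)) (Submodule.smul_mem _ _ (AK_cl hE))

lemma alg_pow {c : W.H X} (hc : c ∈ algClasses W X 1) (n : ℕ) : c ^ n ∈ algClasses W X n := by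
  induction n with
  | zero => rw [pow_zero]; exact alg_one
  | succ n ih => rw [pow_succ]; exact alg_mul ih hc

lemma seg_pow {D E : X.Cycles} (hE : X.IsCyc 1 E) (ξ : W.K) (w : ℕ) :
    seg W X D E ξ ^ w = ∑ s ∈ Finset.range (w + 1),
      ((1 - ξ) ^ s * ξ ^ (w - s) * (w.choose s : W.K)) • (W.cl X D ^ s * W.cl X E ^ (w - s)) := by
  have hcomm : Commute ((1 - ξ) • W.cl X D) (ξ • W.cl X E) := by
    apply Commute.smul_left
    apply Commute.smul_right
    exact (W.even_comm (p := 1) (W.cl_mem hE) (W.cl X D)).symm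
  rw [seg, hcomm.add_pow]
  apply Finset.sum_congr rfl
  intro s _
  rw [_root_.smul_pow, _root_.smul_pow, smul_mul_smul_comm, ← nsmul_eq_mul', ← Nat.cast_smul_eq_nsmul W.K,
    smul_smul]
  congr 1
  ring

/-- The polynomial with the values `tr (c · D_ξ ^ w)`. -/
noncomputable def segPoly (q : ℕ → ℚ) (w : ℕ) : ℚ[X] :=
  ∑ s ∈ Finset.range (w + 1), C (q s) * ((1 - Polynomial.X) ^ s * Polynomial.X ^ (w - s) *
    (w.choose s : ℚ[X]))

lemma aeval_segPoly {L : Type*} [Field L] [Algebra ℚ L] (q : ℕ → ℚ) (w : ℕ) (ξ : L) :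
    aeval ξ (segPoly q w) = ∑ s ∈ Finset.range (w + 1), algebraMap ℚ L (q s) *
      ((1 - ξ) ^ s * ξ ^ (w - s) * (w.choose s : L)) := by
  simp [segPoly]

lemma exists_segPoly {D E : X.Cycles} (hD : X.IsCyc 1 D) (hE : X.IsCyc 1 E) {j : ℕ} {c : W.H X}
    (hc : c ∈ algClasses W X j) (w : ℕ) : ∃ q : ℕ → ℚ,
      (∀ s, W.tr X (c * (W.cl X D ^ s * W.cl X E ^ (w - s))) = (q s : W.K)) ∧
      ∀ ξ : W.K, aeval ξ (segPoly q w) = W.tr X (c * seg W X D E ξ ^ w) := by
  choose q hq using fun s => alg_rat hc (alg_mul (alg_pow (W := W) (c := W.cl X D) ⟨D, hD, rfl⟩ s)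
    (alg_pow (W := W) (c := W.cl X E) ⟨E, hE, rfl⟩ (w - s)))
  simp only [bil_apply] at hq
  refine ⟨q, hq, fun ξ => ?_⟩
  rw [seg_pow hE, Finset.mul_sum, map_sum, aeval_segPoly]
  apply Finset.sum_congr rfl
  intro s _
  rw [mul_smul_comm, map_smul, hq, smul_eq_mul, eq_ratCast]
  ring

end Pool.Agent.K7.H9
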