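import Pool.Agent.K7.H9.NumA

/-!
# The forms on the cycles modulo numerical equivalence along a segment of divisors
-/

open CategoryTheory AlgebraicGeometry Polynomial Matrix

universe u v

namespace Pool.Agent.K7.H9

open Pool.Agent.H914 Pool.Agent.H914.VarClass Pool.Agent.H914.VarClass.Obj
  Pool.Agent.H914.WeilCohomology Pool.Agent.R908 Pool.Agent.H281R3.HT

variable {k : Type u} [Field k] {𝒱 : VarClass k} {ops : CycleOps 𝒱}
  {W : WeilCohomology.{u, v} ops} {X Y A : 𝒱.Obj} {m : A.prod A ⟶ A}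

/-- A basis of the cycles of codimension `n` modulo numerical equivalence, with the dual basis. -/
structure Fam (W : WeilCohomology.{u, v} ops) (X : 𝒱.Obj) (n r : ℕ) (a a' : Fin r → W.H X) :
    Prop where
  le : n ≤ X.dim
  bior : Bior W X n (X.dim - n) r a a'
  pair : ∀ c ∈ AK W X n, ∀ c' ∈ AK W X (X.dim - n),
    W.tr X (c * c') = ∑ i, W.tr X (c * a' i) * W.tr X (a i * c')

lemma exists_fam (W : WeilCohomology.{u, v} ops) (X : 𝒱.Obj) {n : ℕ} (hn : n ≤ X.dim) :
    ∃ (r : ℕ) (a a' : Fin r → W.H X), Fam W X n r a a' := by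
  obtain ⟨r, a, a', h, h'⟩ := exists_bior W X n (X.dim - n)
  exact ⟨r, a, a', hn, h, fun c hc c' hc' => bior_span h' hc hc'⟩

lemma AK_even_comm {j : ℕ} {a : W.H X} (ha : a ∈ AK W X j) (b : W.H X) : a * b = b * a :=
  W.even_comm (AK_gr ha) b

lemma Fam.a_mem {n r : ℕ} {a a' : Fin r → W.H X} (h : Fam W X n r a a') (i : Fin r) :
    a i ∈ AK W X n := AK_of (h.bior.mem i)

lemma Fam.a'_mem {n r : ℕ} {a a' : Fin r → W.H X} (h : Fam W X n r a a') (i : Fin r) :
    a' i ∈ AK W X (X.dim - n) := AK_of (h.bior.mem' i)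

/-- The Gram polynomials of a family. -/
def IsGram (W : WeilCohomology.{u, v} ops) (X : 𝒱.Obj) (D E : X.Cycles) {r : ℕ}
    (a : Fin r → W.H X) (w : ℕ) (B : Matrix (Fin r) (Fin r) ℚ[X]) : Prop :=
  ∀ (ξ : W.K) (i j : Fin r), aeval ξ (B i j) = W.tr X (a i * a j * seg W X D E ξ ^ w)

/-- The polynomials of the multiplication by the divisor. -/
def IsMul (W : WeilCohomology.{u, v} ops) (X : 𝒱.Obj) (D E : X.Cycles) {r s : ℕ}
    (a' : Fin r → W.H X) (b : Fin s → W.H X) (N : Matrix (Fin r) (Fin s) ℚ[X]) : Prop :=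
  ∀ (ξ : W.K) (i : Fin r) (l : Fin s), aeval ξ (N i l) =
    W.tr X (b l * seg W X D E ξ * a' i)

lemma exists_gram {D E : X.Cycles} (hD : X.IsCyc 1 D) (hE : X.IsCyc 1 E) {n r : ℕ}
    {a : Fin r → W.H X} (ha : ∀ i, a i ∈ algClasses W X n) (w : ℕ) : ∃ B, IsGram W X D E a w B := by
  choose q _ hq using fun i j => exists_segPoly hD hE (alg_mul (ha i) (ha j)) w
  exact ⟨Matrix.of fun i j => segPoly (q i j) w, fun ξ i j => hq i j ξ⟩

lemma exists_mul {D E : X.Cycles} (hD : X.IsCyc 1 D) (hE : X.IsCyc 1 E) {n n' r s : ℕ}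
    {a' : Fin r → W.H X} (ha : ∀ i, a' i ∈ algClasses W X n) {b : Fin s → W.H X}
    (hb : ∀ i, b i ∈ algClasses W X n') : ∃ N, IsMul W X D E a' b N := by
  choose q _ hq using fun i l => exists_segPoly hD hE (alg_mul (hb l) (ha i)) 1
  refine ⟨Matrix.of fun i l => segPoly (q i l) 1, fun ξ i l => ?_⟩
  rw [Matrix.of_apply, hq i l ξ, pow_one, mul_assoc, mul_assoc,
    AK_even_comm (seg_AK hD hE ξ) (a' i)]

/-- Nondegeneracy over the coefficient field. -/
theorem gram_nondeg (hA : IsAbelianLike W A m) {D E : A.Cycles} (hD : A.IsCyc 1 D)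
    (hE : A.IsCyc 1 E) {n r : ℕ} (hn : 2 * n ≤ A.dim) {a a' : Fin r → W.H A}
    (h : Fam W A n r a a') {B : Matrix (Fin r) (Fin r) ℚ[X]}
    (hB : IsGram W A D E a (A.dim - 2 * n) B) (ξ : W.K)
    (hξ : W.tr A (seg W A D E ξ ^ A.dim) ≠ 0) : aeval ξ B.det ≠ 0 := by
  classical
  set θ := seg W A D E ξ with hθ
  have hθm : θ ∈ AK W A 1 := seg_AK hD hE ξ
  have h1 : aeval ξ B.det = (B.map (aeval ξ)).det :=
    RingHom.map_det (aeval ξ : ℚ[X] →ₐ[ℚ] W.K).toRingHom B
  rw [h1]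
  intro hdet
  obtain ⟨c, hc0, hc⟩ := Matrix.exists_mulVec_eq_zero_iff.2 hdet
  apply hc0
  set y := ∑ j, c j • a j with hy
  have hyA : y ∈ AK W A n := Submodule.sum_mem _ fun j _ => Submodule.smul_mem _ _ (h.a_mem j)
  have hyw : y * θ ^ (A.dim - 2 * n) ∈ AK W A (A.dim - n) := by
    have := AK_mul hyA (AK_pow hθm (A.dim - 2 * n))
    rwa [show n + (A.dim - 2 * n) = A.dim - n by omega] at this
  have h2 : ∀ i, W.tr A (a i * (y * θ ^ (A.dim - 2 * n))) = 0 := by
    intro i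
    have h3 := congrFun hc i
    rw [Matrix.mulVec, dotProduct] at h3
    simp only [Matrix.map_apply, hB ξ, Pi.zero_apply] at h3
    rw [← h3, hy, Finset.sum_mul, Finset.mul_sum, map_sum]
    apply Finset.sum_congr rfl
    intro j _
    rw [smul_mul_assoc, mul_smul_comm, map_smul, smul_eq_mul, mul_comm, ← mul_assoc]
  have h3 : ∀ b ∈ AK W A n, W.tr A (b * (y * θ ^ (A.dim - 2 * n))) = 0 := by
    intro b hb
    rw [h.pair b hb _ hyw]
    exact Finset.sum_eq_zero fun i _ => by rw [h2 i, mul_zero]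
  funext i
  obtain ⟨b, hb, hbi⟩ := lef_surj hA hθm hξ hn (h.a'_mem i)
  have h4 := h3 b hb
  have h5 : b * (y * θ ^ (A.dim - 2 * n)) = y * a' i := by
    rw [← hbi, AK_even_comm hb, mul_assoc]
  rw [h5, hy, Finset.sum_mul, map_sum, Finset.sum_eq_single i] at h4
  · rw [smul_mul_assoc, map_smul, h.bior.dual, if_pos rfl, smul_eq_mul, mul_one] at h4
    exact h4
  · intro j _ hj
    rw [smul_mul_assoc, map_smul, h.bior.dual, if_neg hj, smul_zero]
  · intro h0; exact absurd (Finset.mem_univ _) h0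

/-- Two polynomials with the same values on the coefficient field are equal. -/
lemma poly_ext {p q : ℚ[X]} (h : ∀ ξ : W.K, aeval ξ p = aeval ξ q) : p = q := by
  apply Polynomial.map_injective (algebraMap ℚ W.K) (algebraMap ℚ W.K).injective
  apply Polynomial.funext
  intro ξ
  rw [eval_map_algebraMap, eval_map_algebraMap, h]

/-- Compatibility of the Gram matrices in codimension `n` and `n - 1`. -/
theorem gram_comp {D E : X.Cycles} (hD : X.IsCyc 1 D) (hE : X.IsCyc 1 E) {n r s : ℕ}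
    (hn : 2 * (n + 1) ≤ X.dim) {a a' : Fin r → W.H X} (h : Fam W X (n + 1) r a a')
    {b : Fin s → W.H X} (hb : ∀ l, b l ∈ AK W X n) {B : Matrix (Fin r) (Fin r) ℚ[X]}
    (hB : IsGram W X D E a (X.dim - 2 * (n + 1)) B) {B' : Matrix (Fin s) (Fin s) ℚ[X]}
    (hB' : IsGram W X D E b (X.dim - 2 * n) B') {N : Matrix (Fin r) (Fin s) ℚ[X]}
    (hN : IsMul W X D E a' b N) : Nᵀ * B * N = B' := by
  refine Matrix.ext fun l l' => ?_
  apply poly_ext (W := W)
  intro ξ
  set θ := seg W X D E ξ with hθ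
  have hθm : θ ∈ AK W X 1 := seg_AK hD hE ξ
  have hc : ∀ z : W.H X, θ * z = z * θ := fun z => AK_even_comm hθm z
  rw [hB' ξ, Matrix.mul_apply, map_sum]
  simp only [Matrix.mul_apply, Matrix.transpose_apply, map_mul, map_sum, hB ξ, hN ξ]
  have hbl : ∀ l, b l * θ ∈ AK W X (n + 1) := fun l => AK_mul (hb l) hθm
  have key : ∀ j, (∑ i, W.tr X (b l * θ * a' i) *
      W.tr X (a i * a j * θ ^ (X.dim - 2 * (n + 1)))) =
      W.tr X (b l * θ * (a j * θ ^ (X.dim - 2 * (n + 1)))) := by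
    intro j
    rw [h.pair _ (hbl l) (a j * θ ^ (X.dim - 2 * (n + 1)))]
    · apply Finset.sum_congr rfl
      intro i _
      rw [mul_assoc (a i)]
    · have := AK_mul (h.a_mem j) (AK_pow hθm (X.dim - 2 * (n + 1)))
      rwa [show n + 1 + (X.dim - 2 * (n + 1)) = X.dim - (n + 1) by omega] at this
  simp only [← hθ, key]
  have h2 : ∀ j, W.tr X (b l * θ * (a j * θ ^ (X.dim - 2 * (n + 1)))) *
      W.tr X (b l' * θ * a' j) =
      W.tr X (b l' * θ * a' j) * W.tr X (a j * (b l * θ * θ ^ (X.dim - 2 * (n + 1)))) := by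
    intro j
    rw [mul_comm, ← mul_assoc (b l * θ), AK_even_comm (hbl l) (a j), mul_assoc (a j)]
  rw [Finset.sum_congr rfl (fun j _ => h2 j), ← h.pair _ (hbl l')]
  · congr 1
    have e1 : b l' * θ * (b l * θ * θ ^ (X.dim - 2 * (n + 1))) =
        b l' * b l * (θ * θ * θ ^ (X.dim - 2 * (n + 1))) := by
      rw [mul_assoc (b l'), ← mul_assoc θ (b l * θ), ← mul_assoc θ (b l), hc (b l)]
      simp only [mul_assoc]
    have e2 : b l' * b l = b l * b l' := AK_even_comm (hb l') _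
    rw [e1, e2, ← pow_two, ← pow_add]
    congr 2
    omega
  · have := AK_mul (hbl l) (AK_pow hθm (X.dim - 2 * (n + 1)))
    rwa [show n + 1 + (X.dim - 2 * (n + 1)) = X.dim - (n + 1) by omega] at this

end Pool.Agent.K7.H9
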