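import Pool.Agent.K7.H9.NumB

/-!
# Independence of the polarization: proof
-/

open CategoryTheory AlgebraicGeometry Polynomial Matrix

universe u v

namespace Pool.Agent.K7.H9

open Pool.Agent.H914 Pool.Agent.H914.VarClass Pool.Agent.H914.VarClass.Obj
  Pool.Agent.H914.WeilCohomology Pool.Agent.R908 Pool.Agent.H281R3.HT

variable {k : Type u} [Field k] {𝒱 : VarClass k} {ops : CycleOps 𝒱}
  {W : WeilCohomology.{u, v} ops} {X Y A : 𝒱.Obj} {m : A.prod A ⟶ A}

lemma mulLeft_pow (θ a : W.H X) (i : ℕ) : ((LinearMap.mulLeft W.K θ) ^ i) a = θ ^ i * a := by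
  induction i generalizing a with
  | zero => simp
  | succ i ih => rw [pow_succ, Module.End.mul_apply, ih, LinearMap.mulLeft_apply, ← mul_assoc,
      ← pow_succ]

lemma cl_divPow' (W : WeilCohomology.{u, v} ops) (D : X.Cycles) (i : ℕ) (z : X.Cycles) :
    W.cl X (divPow ops D i z) = W.cl X D ^ i * W.cl X z := by
  rw [cl_divPow, mulLeft_pow]

lemma tr_deg {i j : ℕ} {z w : X.Cycles} (hz : X.IsCyc i z) (hw : X.IsCyc j w)
    (hij : i + j = X.dim) : W.tr X (W.cl X z * W.cl X w) = (X.V.degCycle (ops.mul z w) : W.K) := by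
  rw [← W.cl_mul, W.tr_cl (hij ▸ ops.mul_mem hz hw)]

section Link

variable {F : X.Cycles} {n r s : ℕ} {a a' : Fin r → W.H X}
  (h : Fam W X n r a a') (hn : 2 * n ≤ X.dim) {B : Matrix (Fin r) (Fin r) ℚ}
  (hF : X.IsCyc 1 F)
  (hB : ∀ i j, (B i j : W.K) = W.tr X (a i * a j * W.cl X F ^ (X.dim - 2 * n)))
  {c : W.H X} (hc : c ∈ AK W X n) {x : Fin r → ℚ} (hx : ∀ i, W.tr X (c * a' i) = (x i : W.K))

include h hn hF hB hc hx

lemma link_one (i : Fin r) : (((B *ᵥ x) i : ℚ) : W.K) =
    W.tr X (a i * (c * W.cl X F ^ (X.dim - 2 * n))) := by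
  set θ := W.cl X F with hθ
  have hθm : θ ∈ AK W X 1 := AK_cl hF
  have hm : a i * θ ^ (X.dim - 2 * n) ∈ AK W X (X.dim - n) := by
    have := AK_mul (h.a_mem i) (AK_pow hθm (X.dim - 2 * n))
    rwa [show n + (X.dim - 2 * n) = X.dim - n by omega] at this
  have h1 : a i * (c * θ ^ (X.dim - 2 * n)) = c * (a i * θ ^ (X.dim - 2 * n)) := by
    rw [← mul_assoc, ← mul_assoc, AK_even_comm hc]
  rw [h1, h.pair c hc _ hm, Matrix.mulVec, dotProduct, Rat.cast_sum]
  apply Finset.sum_congr rfl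
  intro j _
  rw [hx j, Rat.cast_mul, hB, mul_comm]
  congr 2
  rw [AK_even_comm (h.a_mem i), mul_assoc]

lemma link_quad : ((x ⬝ᵥ (B *ᵥ x) : ℚ) : W.K) =
    W.tr X (c * (W.cl X F ^ (X.dim - 2 * n) * c)) := by
  set θ := W.cl X F with hθ
  have hθm : θ ∈ AK W X 1 := AK_cl hF
  have hcomm : θ ^ (X.dim - 2 * n) * c = c * θ ^ (X.dim - 2 * n) :=
    AK_even_comm (AK_pow hθm _) c
  have hm : c * θ ^ (X.dim - 2 * n) ∈ AK W X (X.dim - n) := by
    have := AK_mul hc (AK_pow hθm (X.dim - 2 * n))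
    rwa [show n + (X.dim - 2 * n) = X.dim - n by omega] at this
  rw [hcomm, h.pair c hc _ hm, dotProduct, Rat.cast_sum]
  apply Finset.sum_congr rfl
  intro i _
  rw [Rat.cast_mul, link_one h hn hF hB hc hx i, hx i]

lemma link_ker {b : Fin s → W.H X} {n' : ℕ} (hnn : n = n' + 1) (hb : ∀ l, b l ∈ AK W X n')
    {N : Matrix (Fin r) (Fin s) ℚ} (hN : ∀ i l, (N i l : W.K) = W.tr X (b l * W.cl X F * a' i))
    (l : Fin s) : (((Nᵀ *ᵥ (B *ᵥ x)) l : ℚ) : W.K) =
      W.tr X (b l * (W.cl X F ^ (X.dim - 2 * n + 1) * c)) := by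
  set θ := W.cl X F with hθ
  have hθm : θ ∈ AK W X 1 := AK_cl hF
  have hm : c * θ ^ (X.dim - 2 * n) ∈ AK W X (X.dim - n) := by
    have := AK_mul hc (AK_pow hθm (X.dim - 2 * n))
    rwa [show n + (X.dim - 2 * n) = X.dim - n by omega] at this
  have h1 : b l * (θ ^ (X.dim - 2 * n + 1) * c) = b l * θ * (c * θ ^ (X.dim - 2 * n)) := by
    rw [pow_succ', mul_assoc, AK_even_comm (AK_pow hθm _) c, ← mul_assoc (b l)]
  have hbl : b l * θ ∈ AK W X n := by rw [hnn]; exact AK_mul (hb l) hθm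
  rw [h1, h.pair _ hbl _ hm, Matrix.mulVec, dotProduct, Rat.cast_sum]
  apply Finset.sum_congr rfl
  intro i _
  rw [Rat.cast_mul, link_one h hn hF hB hc hx i, Matrix.transpose_apply, hN]

end Link

/-- **The numerical conjecture of Hodge type in terms of matrices.** -/
theorem link {F : X.Cycles} (hF : X.IsCyc 1 F) {n r s : ℕ} (hn : 2 * n ≤ X.dim)
    {a a' : Fin r → W.H X} (h : Fam W X n r a a') {b b' : Fin s → W.H X}
    (hlow : (n = 0 ∧ s = 0) ∨ ∃ n', n = n' + 1 ∧ Fam W X n' s b b')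
    {B : Matrix (Fin r) (Fin r) ℚ}
    (hB : ∀ i j, (B i j : W.K) = W.tr X (a i * a j * W.cl X F ^ (X.dim - 2 * n)))
    {N : Matrix (Fin r) (Fin s) ℚ} (hN : ∀ i l, (N i l : W.K) = W.tr X (b l * W.cl X F * a' i)) :
    NumHodge ops X F n ↔ PosOnQ B N ((-1) ^ n) := by
  have hFK : W.cl X F ∈ AK W X 1 := AK_cl hF
  constructor
  · intro H x hx hx0
    obtain ⟨z, hz, hcz⟩ := alg_sum (W := W) Finset.univ a x (fun i _ => h.bior.mem i)
    set c := W.cl X z with hc
    have hcK : c ∈ AK W X n := AK_cl hz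
    have hxc : ∀ i, W.tr X (c * a' i) = (x i : W.K) := by
      intro i
      rw [hcz, Finset.sum_mul, map_sum, Finset.sum_eq_single i]
      · rw [smul_mul_assoc, map_smul, h.bior.dual, if_pos rfl, smul_eq_mul, mul_one]
      · intro j _ hj
        rw [smul_mul_assoc, map_smul, h.bior.dual, if_neg hj, smul_zero]
      · intro h0; exact absurd (Finset.mem_univ _) h0
    have h1 : NumZero ops X (X.dim - n + 1) (divPow ops F (X.dim - 2 * n + 1) z) := by
      intro j w hj hw
      rcases hlow with ⟨rfl, _⟩ | ⟨n', rfl, hb⟩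
      · omega
      obtain rfl : j = n' := by omega
      have hz' := divPow_mem (ops := ops) hF (X.dim - 2 * (j + 1) + 1) hz
      have h2 : W.tr X (W.cl X (divPow ops F (X.dim - 2 * (j + 1) + 1) z) * W.cl X w) = 0 := by
        rw [cl_divPow', ← hc]
        have hm : W.cl X F ^ (X.dim - 2 * (j + 1) + 1) * c ∈ AK W X (X.dim - j) := by
          have := AK_mul (AK_pow hFK (X.dim - 2 * (j + 1) + 1)) hcK
          rwa [show X.dim - 2 * (j + 1) + 1 + (j + 1) = X.dim - j by omega] at this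
        rw [AK_even_comm hm, hb.pair _ (AK_cl hw) _ hm]
        apply Finset.sum_eq_zero
        intro l _
        rw [← link_ker h hn hF hB hcK hxc rfl hb.a_mem hN l, hx]
        simp
      rw [tr_deg hz' hw (by omega)] at h2
      exact_mod_cast h2
    have h2 : ¬ NumZero ops X n z := by
      intro h0
      apply hx0
      funext i
      obtain ⟨w, hw, hwi⟩ := h.bior.mem' i
      have h3 := h0 (X.dim - n) w (by have := h.le; omega) hw
      have h4 := tr_deg (W := W) hz hw (by have := h.le; omega)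
      rw [hwi, hxc i, h3] at h4
      simpa using h4
    have h3 := H z hz h1 h2
    have h4 := link_quad h hn hF hB hcK hxc
    have hz' := divPow_mem (ops := ops) hF (X.dim - 2 * n) hz
    have h5 := tr_deg (W := W) hz hz' (by omega)
    rw [cl_divPow', ← hc, ← h4] at h5
    have h6 : (x ⬝ᵥ (B *ᵥ x)) = X.V.degCycle (ops.mul z (divPow ops F (X.dim - 2 * n) z)) := by
      exact_mod_cast h5
    rw [h6]
    exact h3
  · intro H z hz hprim hnz
    set c := W.cl X z with hc
    have hcK : c ∈ AK W X n := AK_cl hz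
    choose x hx using fun i => alg_rat (W := W) ⟨z, hz, rfl⟩ (h.bior.mem' i)
    have hxc : ∀ i, W.tr X (c * a' i) = (x i : W.K) := hx
    have h1 : Nᵀ *ᵥ (B *ᵥ x) = 0 := by
      funext l
      rcases hlow with ⟨_, rfl⟩ | ⟨n', rfl, hb⟩
      · exact l.elim0
      have h2 := link_ker h hn hF hB hcK hxc rfl hb.a_mem hN l
      obtain ⟨w, hw, hwl⟩ := hb.bior.mem l
      have hz' := divPow_mem (ops := ops) hF (X.dim - 2 * (n' + 1) + 1) hz
      have h3 := hprim n' w (by omega) hw
      have h4 := tr_deg (W := W) hz' hw (by omega)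
      rw [h3, cl_divPow', ← hc, Rat.cast_zero, hwl,
        ← AK_even_comm (hb.a_mem l), ← h2] at h4
      exact_mod_cast h4
    have h2 : x ≠ 0 := by
      intro h0
      apply hnz
      intro j w hj hw
      have h3 : W.tr X (c * W.cl X w) = 0 := by
        obtain rfl : j = X.dim - n := by omega
        rw [h.pair c hcK _ (AK_cl hw)]
        apply Finset.sum_eq_zero
        intro i _
        rw [hxc i, h0]
        simp
      rw [hc, tr_deg hz hw hj] at h3
      exact_mod_cast h3
    have h3 := H x h1 h2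
    have h4 := link_quad h hn hF hB hcK hxc
    have hz' := divPow_mem (ops := ops) hF (X.dim - 2 * n) hz
    have h5 := tr_deg (W := W) hz hz' (by omega)
    rw [cl_divPow', ← hc, ← h4] at h5
    have h6 : (x ⬝ᵥ (B *ᵥ x)) = X.V.degCycle (ops.mul z (divPow ops F (X.dim - 2 * n) z)) := by
      exact_mod_cast h5
    rw [h6] at h3
    exact h3

/-- The values of the polynomials at rational points. -/
lemma aeval_cast {L : Type*} [Field L] [CharZero L] (t : ℚ) (p : ℚ[X]) :
    ((aeval t p : ℚ) : L) = aeval (t : L) p := by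
  have := Polynomial.aeval_algebraMap_apply L t p
  rw [eq_ratCast, eq_ratCast] at this
  exact this.symm

theorem numHodge_of [IsAlgClosed W.K] (hA : IsAbelianLike W A m) {D E : A.Cycles}
    (hD : A.IsCyc 1 D) (hE : A.IsCyc 1 E)
    (hpos : ∀ i ≤ A.dim, 0 < mixedNumber ops A D E i) {n : ℕ} (hn : 2 * n ≤ A.dim)
    (H : NumHodge ops A D n) : NumHodge ops A E n := by
  classical
  obtain ⟨r, a, a', h⟩ := exists_fam W A (show n ≤ A.dim by omega)
  -- the lower family
  have hlow : ∃ (s : ℕ) (b b' : Fin s → W.H A),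
      (n = 0 ∧ s = 0) ∨ ∃ n', n = n' + 1 ∧ Fam W A n' s b b' := by
    rcases n with _ | n'
    · exact ⟨0, Fin.elim0, Fin.elim0, Or.inl ⟨rfl, rfl⟩⟩
    · obtain ⟨s, b, b', hb⟩ := exists_fam W A (show n' ≤ A.dim by omega)
      exact ⟨s, b, b', Or.inr ⟨n', rfl, hb⟩⟩
  obtain ⟨s, b, b', hlow⟩ := hlow
  have hbm : ∃ n', ∀ l, b l ∈ algClasses W A n' := by
    rcases hlow with ⟨_, rfl⟩ | ⟨n', _, hb⟩
    · exact ⟨0, fun l => l.elim0⟩
    · exact ⟨n', hb.bior.mem⟩
  obtain ⟨n₁, hbm⟩ := hbm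
  obtain ⟨B, hB⟩ := exists_gram hD hE h.bior.mem (A.dim - 2 * n)
  obtain ⟨N, hN⟩ := exists_mul hD hE h.bior.mem' hbm
  -- the volume polynomial
  obtain ⟨q, hq, hv⟩ := exists_segPoly (W := W) hD hE (alg_one (X := A)) A.dim
  set v := segPoly q A.dim with hvdef
  have hqpos : ∀ i ≤ A.dim, 0 < q i := by
    intro i hi
    have h1 := hpos i hi
    have h2 : ((mixedNumber ops A D E i : ℚ) : W.K) = (q i : W.K) := by
      have hE' := divPow_mem (ops := ops) hE (A.dim - i) A.V.fundCycle_mem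
      have hD' := divPow_mem (ops := ops) hD i hE'
      rw [mixedNumber, ← hq i, one_mul, ← W.tr_cl (by
        rwa [show 0 + (A.dim - i) + i = A.dim by omega] at hD'), cl_divPow', cl_divPow',
        W.cl_fund, mul_one]
    have h3 : mixedNumber ops A D E i = q i := by exact_mod_cast h2
    rwa [h3] at h1
  have hvK : ∀ ξ : W.K, aeval ξ v ≠ 0 → W.tr A (seg W A D E ξ ^ A.dim) ≠ 0 := by
    intro ξ hξ
    rwa [hv ξ, one_mul] at hξ
  have hvR : ∀ t ∈ Set.Icc (0 : ℝ) 1, aeval t v ≠ 0 := by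
    rintro t ⟨ht0, ht1⟩
    rw [hvdef, aeval_segPoly]
    apply ne_of_gt
    apply Finset.sum_pos'
    · intro i hi
      rw [Finset.mem_range] at hi
      have h1 : (0 : ℝ) < algebraMap ℚ ℝ (q i) := by
        rw [eq_ratCast]; exact_mod_cast hqpos i (by omega)
      have h2 : (0 : ℝ) ≤ 1 - t := by linarith
      positivity
    · rcases ht1.lt_or_eq with h1 | h1
      · refine ⟨A.dim, by simp, ?_⟩
        have h2 : (0 : ℝ) < algebraMap ℚ ℝ (q A.dim) := by
          rw [eq_ratCast]; exact_mod_cast hqpos _ le_rfl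
        have h3 : (0 : ℝ) < 1 - t := by linarith
        simp only [Nat.sub_self, pow_zero, Nat.choose_self, Nat.cast_one, mul_one]
        positivity
      · refine ⟨0, by simp, ?_⟩
        have h2 : (0 : ℝ) < algebraMap ℚ ℝ (q 0) := by
          rw [eq_ratCast]; exact_mod_cast hqpos _ (Nat.zero_le _)
        rw [h1]
        simpa using h2
  -- nondegeneracy
  have hBdet : ∀ t ∈ Set.Icc (0 : ℝ) 1, aeval t B.det ≠ 0 := fun t ht =>
    root_transfer (K := W.K) (fun ξ hξ => gram_nondeg hA hD hE hn h hB ξ (hvK ξ hξ)) (hvR t ht)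
  have hCdet : ∀ t ∈ Set.Icc (0 : ℝ) 1, aeval t (Nᵀ * B * N).det ≠ 0 := by
    intro t ht
    rcases hlow with ⟨_, rfl⟩ | ⟨n', rfl, hb⟩
    · rw [Matrix.det_isEmpty, map_one]
      exact one_ne_zero
    · obtain ⟨B', hB'⟩ := exists_gram hD hE hb.bior.mem (A.dim - 2 * n')
      rw [gram_comp hD hE hn h hb.a_mem hB hB' hN]
      exact root_transfer (K := W.K) (fun ξ hξ => gram_nondeg hA hD hE (by omega) hb hB' ξ
        (hvK ξ hξ)) (hvR t ht)
  have hBsymm : Bᵀ = B := by
    refine Matrix.ext fun i j => ?_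
    apply poly_ext (W := W)
    intro ξ
    rw [Matrix.transpose_apply, hB ξ, hB ξ, AK_even_comm (h.a_mem j)]
  have hmapdet : ∀ {L : Type} [Field L] [Algebra ℚ L] {e : ℕ} (t : L)
      (M : Matrix (Fin e) (Fin e) ℚ[X]), (M.map (aeval t)).det = aeval t M.det := by
    intro L _ _ e t M
    exact (RingHom.map_det (aeval t : ℚ[X] →ₐ[ℚ] L).toRingHom M).symm
  have hmapmul : ∀ {L : Type} [Field L] [Algebra ℚ L] (t : L),
      (N.map (aeval t))ᵀ * (B.map (aeval t)) * (N.map (aeval t)) =
        (Nᵀ * B * N).map (aeval t) := by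
    intro L _ _ t
    rw [Matrix.map_mul, Matrix.map_mul, Matrix.transpose_map]
  -- the rational matrices at the end points
  have hend : ∀ (t : ℚ) (F : A.Cycles), A.IsCyc 1 F → seg W A D E (t : W.K) = W.cl A F →
      (NumHodge ops A F n ↔ PosOnQ (B.map (aeval t)) (N.map (aeval t)) ((-1) ^ n)) := by
    intro t F hF hseg
    refine link hF hn h hlow (fun i j => ?_) (fun i l => ?_)
    · rw [Matrix.map_apply, aeval_cast, hB, hseg]
    · rw [Matrix.map_apply, aeval_cast, hN, hseg]
  have hreal : ∀ t : ℚ, toR (B.map (aeval t)) = B.map (aeval (t : ℝ)) ∧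
      toR (N.map (aeval t)) = N.map (aeval (t : ℝ)) := by
    intro t
    constructor
    · ext i j
      simp only [toR, Matrix.map_apply, Rat.coe_castHom]
      exact aeval_cast t _
    · ext i j
      simp only [toR, Matrix.map_apply, Rat.coe_castHom]
      exact aeval_cast t _
  have hs0 : seg W A D E ((0 : ℚ) : W.K) = W.cl A D := by
    rw [seg, Rat.cast_zero, sub_zero, one_smul, zero_smul, add_zero]
  have hs1 : seg W A D E ((1 : ℚ) : W.K) = W.cl A E := by
    rw [seg, Rat.cast_one, sub_self, one_smul, zero_smul, zero_add]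
  have hε : ((-1 : ℚ) ^ n) ≠ 0 := pow_ne_zero _ (by norm_num)
  have hεR : ((-1 : ℝ) ^ n) ≠ 0 := pow_ne_zero _ (by norm_num)
  have hcast : (((-1 : ℚ) ^ n : ℚ) : ℝ) = (-1 : ℝ) ^ n := by push_cast; rfl
  -- the start
  have h0 : PosOn (B.map (aeval (0 : ℝ))) (N.map (aeval (0 : ℝ))) ((-1) ^ n) := by
    have h1 := (hend 0 D hD hs0).1 H
    have h2 := real_of_posOnQ hε (by
        rw [← Matrix.transpose_map, hBsymm]) (by
        rw [hmapdet]
        intro h0
        have := hBdet 0 (by simp)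
        have h3 := aeval_cast (L := ℝ) 0 B.det
        rw [h0, Rat.cast_zero] at h3
        exact this (by simpa using h3.symm)) (by
        rw [hmapmul, hmapdet]
        intro h0
        have := hCdet 0 (by simp)
        have h3 := aeval_cast (L := ℝ) 0 (Nᵀ * B * N).det
        rw [h0, Rat.cast_zero] at h3
        exact this (by simpa using h3.symm)) h1
    rw [(hreal 0).1, (hreal 0).2, hcast, Rat.cast_zero] at h2
    exact h2
  have hfin := path (B := fun t => B.map (aeval t)) (N := fun t => N.map (aeval t))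
    (continuous_matrix fun i j => by
      simp only [Matrix.map_apply]
      exact Polynomial.continuous_aeval _)
    (continuous_matrix fun i j => by
      simp only [Matrix.map_apply]
      exact Polynomial.continuous_aeval _)
    (fun t => by rw [← Matrix.transpose_map, hBsymm])
    (fun t ht => by rw [hmapdet]; exact hBdet t ht)
    (fun t ht => by rw [hmapmul, hmapdet]; exact hCdet t ht) hεR h0 1 (by simp)
  apply (hend 1 E hE hs1).2
  apply posOnQ_of_real
  rw [(hreal 1).1, (hreal 1).2, hcast, Rat.cast_one]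
  exact hfin

/-- **Independence of the polarization.** -/
theorem numHodge_iff [IsAlgClosed W.K] (hA : IsAbelianLike W A m) {D E : A.Cycles}
    (hD : A.IsCyc 1 D) (hE : A.IsCyc 1 E)
    (hpos : ∀ i ≤ A.dim, 0 < mixedNumber ops A D E i) {n : ℕ} (hn : 2 * n ≤ A.dim) :
    NumHodge ops A D n ↔ NumHodge ops A E n := by
  refine ⟨numHodge_of hA hD hE hpos hn, numHodge_of hA hE hD ?_ hn⟩
  intro i hi
  have h1 := hpos (A.dim - i) (by omega)
  have h2 : ((mixedNumber ops A E D i : ℚ) : W.K) = (mixedNumber ops A D E (A.dim - i) : W.K) := by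
    have e1 : ∀ (F G : A.Cycles), A.IsCyc 1 F → A.IsCyc 1 G → ∀ j ≤ A.dim,
        ((mixedNumber ops A F G j : ℚ) : W.K) =
          W.tr A (W.cl A F ^ j * W.cl A G ^ (A.dim - j)) := by
      intro F G hF hG j hj
      have hG' := divPow_mem (ops := ops) hG (A.dim - j) A.V.fundCycle_mem
      have hF' := divPow_mem (ops := ops) hF j hG'
      rw [mixedNumber, ← W.tr_cl (by
        rwa [show 0 + (A.dim - j) + j = A.dim by omega] at hF'), cl_divPow', cl_divPow',
        W.cl_fund, mul_one]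
    rw [e1 E D hE hD i hi, e1 D E hD hE (A.dim - i) (by omega),
      show A.dim - (A.dim - i) = i by omega, AK_even_comm (AK_pow (AK_cl hE) i)]
  have h3 : mixedNumber ops A E D i = mixedNumber ops A D E (A.dim - i) := by exact_mod_cast h2
  rw [h3]
  exact h1

end Pool.Agent.K7.H9
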