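import Pool.Agent.K7.H9.NumC

/-!
# Reduction to the middle codimension
-/

open CategoryTheory AlgebraicGeometry Finset

universe u v

namespace Pool.Agent.K7.H9

open Pool.Agent.H914 Pool.Agent.H914.VarClass Pool.Agent.H914.VarClass.Obj
  Pool.Agent.H914.WeilCohomology Pool.Agent.R908 Pool.Agent.H281R3.HT

variable {k : Type u} [Field k] {𝒱 : VarClass k} {ops : CycleOps 𝒱}
  {W : WeilCohomology.{u, v} ops} {X Y A : 𝒱.Obj}

/-- Being numerically trivial, in terms of the cohomology. -/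
lemma numZero_iff (W : WeilCohomology.{u, v} ops) {i : ℕ} {z : X.Cycles} (hz : X.IsCyc i z) :
    NumZero ops X i z ↔ ∀ (j : ℕ) (w : X.Cycles), i + j = X.dim → X.IsCyc j w →
      W.tr X (W.cl X z * W.cl X w) = 0 := by
  refine forall_congr' fun j => forall_congr' fun w => forall_congr' fun hij =>
    forall_congr' fun hw => ?_
  rw [tr_deg hz hw hij, Rat.cast_eq_zero]

lemma pow_gr {θ : W.H X} (hθ : θ ∈ AK W X 1) (i : ℕ) : θ ^ i ∈ W.gr X (2 * i) := AK_gr (AK_pow hθ i)

section Mid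

variable (θ c : W.H X) (φ : W.H Y)

/-- The class `∑ (-1) ^ i θ ^ i c ⊠ φ ^ (w - i)`. -/
noncomputable def midClass : W.H (X.prod Y) :=
  ∑ i ∈ range (Y.dim + 1), (((-1 : ℚ) ^ i : ℚ) : W.K) •
    (W.map (fst X Y) (θ ^ i * c) * W.map (snd X Y) (φ ^ (Y.dim - i)))

variable {θ c φ}

lemma midClass_alg {n : ℕ} (hθ : θ ∈ algClasses W X 1) (hc : c ∈ algClasses W X n)
    (hφ : φ ∈ algClasses W Y 1) : midClass θ c φ ∈ algClasses W (X.prod Y) (n + Y.dim) := by
  have hpow : ∀ {Z : 𝒱.Obj} {t : W.H Z} (_ : t ∈ algClasses W Z 1) (i : ℕ),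
      t ^ i ∈ algClasses W Z i := by
    intro Z t ht i
    induction i with
    | zero => rw [pow_zero]; exact alg_one
    | succ i ih => rw [pow_succ]; exact alg_mul ih ht
  unfold midClass
  have h0 : ∀ i ∈ range (Y.dim + 1), W.map (fst X Y) (θ ^ i * c) *
      W.map (snd X Y) (φ ^ (Y.dim - i)) ∈ algClasses W (X.prod Y) (n + Y.dim) := by
    intro i hi
    have hi' : i ≤ Y.dim := by have := mem_range.1 hi; omega
    have h1 := alg_mul (alg_map (fst X Y) (alg_mul (hpow hθ i) hc))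
      (alg_map (snd X Y) (hpow hφ (Y.dim - i)))
    rwa [show i + n + (Y.dim - i) = n + Y.dim by omega] at h1
  exact alg_sum (range (Y.dim + 1)) (fun i => W.map (fst X Y) (θ ^ i * c) *
      W.map (snd X Y) (φ ^ (Y.dim - i))) (fun i => (-1 : ℚ) ^ i) h0

/-- The class is killed by the Lefschetz operator of the product, up to `θ ^ (w + 1) c`. -/
lemma midClass_lef (hθ : θ ∈ AK W X 1) (hφ : φ ∈ AK W Y 1) :
    (W.map (fst X Y) θ + W.map (snd X Y) φ) * midClass θ c φ =
      (((-1 : ℚ) ^ Y.dim : ℚ) : W.K) • W.map (fst X Y) (θ ^ (Y.dim + 1) * c) := by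
  set p := W.map (fst X Y)
  set q := W.map (snd X Y)
  set u : ℕ → W.H (X.prod Y) := fun i => p (θ ^ i * c) * q (φ ^ (Y.dim + 1 - i)) with hu
  have hcomm : ∀ a : W.H (X.prod Y), q φ * a = a * q φ :=
    fun a => AK_even_comm (AK_map (snd X Y) hφ) a
  have h1 : ∀ i ∈ range (Y.dim + 1), (p θ + q φ) * ((((-1 : ℚ) ^ i : ℚ) : W.K) •
      (p (θ ^ i * c) * q (φ ^ (Y.dim - i)))) =
      (((-1 : ℚ) ^ i : ℚ) : W.K) • u i - (((-1 : ℚ) ^ (i + 1) : ℚ) : W.K) • u (i + 1) := by
    intro i hi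
    have hi' : i ≤ Y.dim := by have := mem_range.1 hi; omega
    have e1 : p θ * (p (θ ^ i * c) * q (φ ^ (Y.dim - i))) = u (i + 1) := by
      rw [hu]
      simp only
      rw [show Y.dim + 1 - (i + 1) = Y.dim - i by omega, ← mul_assoc, ← map_mul, ← mul_assoc,
        ← pow_succ']
    have e2 : q φ * (p (θ ^ i * c) * q (φ ^ (Y.dim - i))) = u i := by
      rw [hu]
      simp only
      rw [show Y.dim + 1 - i = (Y.dim - i) + 1 by omega, hcomm, mul_assoc, ← map_mul, ← pow_succ]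
    rw [mul_smul_comm, add_mul, e1, e2, smul_add, sub_eq_add_neg, add_comm]
    congr 1
    rw [pow_succ, mul_neg_one, Rat.cast_neg, neg_smul, neg_neg]
  rw [midClass, mul_sum, sum_congr rfl h1, Finset.sum_range_sub']
  have h2 : u 0 = 0 := by
    have h3 : φ ^ (Y.dim + 1) = 0 := by
      have := pow_gr hφ (Y.dim + 1)
      rw [W.gr_eq_bot Y (2 * (Y.dim + 1)) (by omega)] at this
      exact (Submodule.mem_bot _).1 this
    rw [hu]
    simp only
    rw [Nat.sub_zero, h3, map_zero, mul_zero]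
  rw [h2, smul_zero, zero_sub, ← neg_smul, pow_succ, mul_neg_one, Rat.cast_neg, neg_neg]
  congr 1
  rw [hu]
  simp only
  rw [Nat.sub_self, pow_zero, map_one, mul_one]

lemma tr_pow_eq_zero {Z : 𝒱.Obj} {t : W.H Z} (ht : t ∈ AK W Z 1) {l : ℕ} (hl : l ≠ Z.dim) :
    W.tr Z (t ^ l) = 0 := W.tr_eq_zero (pow_gr ht l) (by omega)

lemma tr_midClass_mul (hφ : φ ∈ AK W Y 1) (b : W.H X) :
    W.tr (X.prod Y) (midClass θ c φ * W.map (fst X Y) b) = W.tr X (c * b) * W.tr Y (φ ^ Y.dim) := by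
  have h1 : ∀ i ∈ range (Y.dim + 1), W.tr (X.prod Y) ((((-1 : ℚ) ^ i : ℚ) : W.K) •
      (W.map (fst X Y) (θ ^ i * c) * W.map (snd X Y) (φ ^ (Y.dim - i))) * W.map (fst X Y) b) =
      if i = 0 then W.tr X (c * b) * W.tr Y (φ ^ Y.dim) else 0 := by
    intro i hi
    have hi' : i ≤ Y.dim := by have := mem_range.1 hi; omega
    have e1 : W.map (fst X Y) (θ ^ i * c) * W.map (snd X Y) (φ ^ (Y.dim - i)) *
        W.map (fst X Y) b = W.map (fst X Y) (θ ^ i * c * b) * W.map (snd X Y) (φ ^ (Y.dim - i)) := by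
      rw [mul_assoc, AK_even_comm (AK_map (snd X Y) (AK_pow hφ _)), ← mul_assoc, ← map_mul]
    rw [smul_mul_assoc, e1, map_smul, tr_prod]
    split_ifs with h
    · subst h
      rw [pow_zero, pow_zero, one_mul, Nat.sub_zero, Rat.cast_one, one_smul]
    · rw [tr_pow_eq_zero hφ (by omega), mul_zero, smul_zero]
  rw [midClass, sum_mul, map_sum, sum_congr rfl h1, Finset.sum_ite_eq' (range (Y.dim + 1)) 0,
    if_pos (mem_range.2 (by omega))]

/-- The square of the class. -/
lemma tr_midClass_sq {n : ℕ} (hθ : θ ∈ AK W X 1) (hc : c ∈ AK W X n) (hφ : φ ∈ AK W Y 1) :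
    W.tr (X.prod Y) (midClass θ c φ * midClass θ c φ) =
      (((-1 : ℚ) ^ Y.dim * (Y.dim + 1) : ℚ) : W.K) *
        (W.tr X (θ ^ Y.dim * c * c) * W.tr Y (φ ^ Y.dim)) := by
  have h1 : ∀ i ∈ range (Y.dim + 1), W.tr (X.prod Y) (midClass θ c φ * ((((-1 : ℚ) ^ i : ℚ) : W.K) •
      (W.map (fst X Y) (θ ^ i * c) * W.map (snd X Y) (φ ^ (Y.dim - i))))) =
      (((-1 : ℚ) ^ Y.dim : ℚ) : W.K) * (W.tr X (θ ^ Y.dim * c * c) * W.tr Y (φ ^ Y.dim)) := by
    intro i hi
    have hi' : i ≤ Y.dim := by have := mem_range.1 hi; omega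
    have h2 : ∀ j ∈ range (Y.dim + 1), W.tr (X.prod Y) ((((-1 : ℚ) ^ j : ℚ) : W.K) •
        (W.map (fst X Y) (θ ^ j * c) * W.map (snd X Y) (φ ^ (Y.dim - j))) *
        ((((-1 : ℚ) ^ i : ℚ) : W.K) •
          (W.map (fst X Y) (θ ^ i * c) * W.map (snd X Y) (φ ^ (Y.dim - i))))) =
        if j = Y.dim - i then (((-1 : ℚ) ^ Y.dim : ℚ) : W.K) *
          (W.tr X (θ ^ Y.dim * c * c) * W.tr Y (φ ^ Y.dim)) else 0 := by
      intro j hj
      have hj' : j ≤ Y.dim := by have := mem_range.1 hj; omega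
      have e1 : W.map (fst X Y) (θ ^ j * c) * W.map (snd X Y) (φ ^ (Y.dim - j)) *
          (W.map (fst X Y) (θ ^ i * c) * W.map (snd X Y) (φ ^ (Y.dim - i))) =
          W.map (fst X Y) (θ ^ (j + i) * c * c) *
            W.map (snd X Y) (φ ^ ((Y.dim - j) + (Y.dim - i))) := by
        rw [mul_assoc, ← mul_assoc (W.map (snd X Y) (φ ^ (Y.dim - j))),
          AK_even_comm (AK_map (snd X Y) (AK_pow hφ (Y.dim - j))), mul_assoc _ _
            (W.map (snd X Y) (φ ^ (Y.dim - i))), ← map_mul, ← pow_add, ← mul_assoc, ← map_mul]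
        congr 2
        rw [pow_add, mul_assoc, ← mul_assoc c, ← AK_even_comm (AK_pow hθ i) c]
        simp only [mul_assoc]
      rw [smul_mul_assoc, mul_smul_comm, e1, map_smul, map_smul, tr_prod]
      split_ifs with h
      · subst h
        rw [show Y.dim - i + i = Y.dim by omega,
          show (Y.dim - (Y.dim - i)) + (Y.dim - i) = Y.dim by omega, smul_smul, smul_eq_mul,
          ← Rat.cast_mul, ← pow_add, show Y.dim - i + i = Y.dim by omega]
      · rw [tr_pow_eq_zero hφ (by omega), mul_zero, smul_zero, smul_zero]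
    conv_lhs => rw [midClass]
    rw [sum_mul, map_sum, sum_congr rfl h2, Finset.sum_ite_eq' (range (Y.dim + 1)) (Y.dim - i),
      if_pos (mem_range.2 (by omega))]
  conv_lhs => rw [midClass, ← midClass]
  have h3 : midClass θ c φ * midClass θ c φ = ∑ i ∈ range (Y.dim + 1), midClass θ c φ *
      ((((-1 : ℚ) ^ i : ℚ) : W.K) •
      (W.map (fst X Y) (θ ^ i * c) * W.map (snd X Y) (φ ^ (Y.dim - i)))) := by
    rw [← mul_sum, ← midClass]
  rw [h3, map_sum, sum_congr rfl h1, sum_const, card_range, nsmul_eq_mul]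
  push_cast
  ring

end Mid

/-- **Reduction to the middle codimension**: let `Y` have dimension `w = g - 2 n`, where
`g = dim X`. The numerical conjecture of Hodge type for `X × Y` in the middle codimension
`n + w` implies the conjecture for `X` in codimension `n`. -/
theorem numHodge_of_middle (W : WeilCohomology.{u, v} ops) {D : X.Cycles} {F : Y.Cycles} {n : ℕ}
    (hD : X.IsCyc 1 D) (hF : Y.IsCyc 1 F) (hn : X.dim = 2 * n + Y.dim)
    (hdeg : 0 < Y.V.degCycle (divPow ops F Y.dim Y.V.fundCycle))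
    (H : NumHodge ops (X.prod Y) (ops.pull (fst X Y) D + ops.pull (snd X Y) F) (n + Y.dim)) :
    NumHodge ops X D n := by
  intro z hz hprim hne
  set w := Y.dim with hw
  set θ := W.cl X D with hθ
  set φ := W.cl Y F with hφ
  set c := W.cl X z with hc
  have hθA : θ ∈ algClasses W X 1 := ⟨D, hD, rfl⟩
  have hφA : φ ∈ algClasses W Y 1 := ⟨F, hF, rfl⟩
  have hcA : c ∈ algClasses W X n := ⟨z, hz, rfl⟩
  have hθK := AK_of hθA
  have hφK := AK_of hφA
  have hcK := AK_of hcA
  have hdim : (X.prod Y).dim = X.dim + w := rfl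
  obtain ⟨y, hy, hcy⟩ := midClass_alg hθA hcA hφA
  have hD' : (X.prod Y).IsCyc 1 (ops.pull (fst X Y) D + ops.pull (snd X Y) F) :=
    SmVar.IsCyc.add (ops.pull_mem _ hD) (ops.pull_mem _ hF)
  have hclD' : W.cl (X.prod Y) (ops.pull (fst X Y) D + ops.pull (snd X Y) F) =
      W.map (fst X Y) θ + W.map (snd X Y) φ := by
    rw [map_add, W.cl_pull, W.cl_pull]
  -- the degree of `F ^ w`
  have hφw : W.tr Y (φ ^ w) =
      ((Y.V.degCycle (divPow ops F Y.dim Y.V.fundCycle) : ℚ) : W.K) := by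
    have h1 := divPow_mem (ops := ops) hF Y.dim Y.V.fundCycle_mem
    rw [← W.tr_cl (by rwa [zero_add] at h1), cl_divPow', W.cl_fund, mul_one]
  have hφw0 : W.tr Y (φ ^ w) ≠ 0 := by
    rw [hφw]
    exact_mod_cast hdeg.ne'
  have hprimK : ∀ u : W.H X, u ∈ algClasses W X (n - 1) → n ≠ 0 →
      W.tr X (θ ^ (w + 1) * c * u) = 0 := by
    rintro _ ⟨u, hu, rfl⟩ hn0
    have h1 : X.IsCyc (X.dim - n + 1) (divPow ops D (X.dim - 2 * n + 1) z) := by
      have := divPow_mem (ops := ops) hD (X.dim - 2 * n + 1) hz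
      rwa [show n + (X.dim - 2 * n + 1) = X.dim - n + 1 by omega] at this
    have h2 := (numZero_iff W h1).1 hprim (n - 1) u (by omega) hu
    rwa [cl_divPow', show X.dim - 2 * n + 1 = w + 1 by omega] at h2
  have key := H y hy ?_ ?_
  · -- the sign
    have e0 : (X.prod Y).dim - 2 * (n + w) = 0 := by omega
    rw [e0] at key
    change 0 < (-1 : ℚ) ^ (n + w) * (X.prod Y).V.degCycle (ops.mul y y) at key
    have e1 : (((X.prod Y).V.degCycle (ops.mul y y) : ℚ) : W.K) =
        (((-1 : ℚ) ^ w * (w + 1) *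
          (X.V.degCycle (ops.mul z (divPow ops D (X.dim - 2 * n) z)) *
          Y.V.degCycle (divPow ops F Y.dim Y.V.fundCycle)) : ℚ) : W.K) := by
      have h3 := divPow_mem (ops := ops) hD (X.dim - 2 * n) hz
      rw [← tr_deg (W := W) hy hy (by omega), hcy, Rat.cast_mul _ (_ * _), Rat.cast_mul _
        (Y.V.degCycle _), ← hφw, ← tr_deg (W := W) hz h3 (by omega), cl_divPow']
      rw [tr_midClass_sq hθK hcK hφK, show X.dim - 2 * n = w by omega, ← hc, ← hθ,
        AK_even_comm hcK (θ ^ w * c)]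
    have e2 := Rat.cast_injective (α := W.K) e1
    rw [e2] at key
    have e3 : (-1 : ℚ) ^ (n + w) * ((-1 : ℚ) ^ w * (w + 1) *
          (X.V.degCycle (ops.mul z (divPow ops D (X.dim - 2 * n) z)) *
          Y.V.degCycle (divPow ops F Y.dim Y.V.fundCycle))) =
        ((w + 1) * Y.V.degCycle (divPow ops F Y.dim Y.V.fundCycle)) *
          ((-1 : ℚ) ^ n * X.V.degCycle (ops.mul z (divPow ops D (X.dim - 2 * n) z))) := by
      have h4 : (-1 : ℚ) ^ w * (-1 : ℚ) ^ w = 1 := by
        rw [← mul_pow, neg_one_mul, neg_neg, one_pow]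
      rw [pow_add]
      linear_combination ((-1 : ℚ) ^ n * (w + 1) *
          (X.V.degCycle (ops.mul z (divPow ops D (X.dim - 2 * n) z)) *
          Y.V.degCycle (divPow ops F Y.dim Y.V.fundCycle))) * h4
    rw [e3] at key
    exact (mul_pos_iff_of_pos_left (mul_pos (by positivity) hdeg)).1 key
  · -- the product is primitive
    have h1 : (X.prod Y).IsCyc ((X.prod Y).dim - (n + w) + 1)
        (divPow ops (ops.pull (fst X Y) D + ops.pull (snd X Y) F) ((X.prod Y).dim - 2 * (n + w) + 1) y) := by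
      have := divPow_mem (ops := ops) hD' ((X.prod Y).dim - 2 * (n + w) + 1) hy
      rwa [show n + w + ((X.prod Y).dim - 2 * (n + w) + 1) =
        (X.prod Y).dim - (n + w) + 1 by omega] at this
    rw [numZero_iff W h1]
    intro j u hju hu
    rw [cl_divPow', show (X.prod Y).dim - 2 * (n + w) + 1 = 1 by omega, pow_one, hclD', hcy]
    rw [midClass_lef hθK hφK, smul_mul_assoc, map_smul]
    rcases Nat.eq_zero_or_pos n with hn0 | hn0
    · have h2 : θ ^ (w + 1) * c = 0 := by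
        have h3 := AK_gr (AK_mul (AK_pow hθK (w + 1)) hcK)
        rw [W.gr_eq_bot X _ (by omega)] at h3
        exact (Submodule.mem_bot _).1 h3
      rw [← hw, h2, map_zero, zero_mul, map_zero, smul_zero]
    · have h4 : W.tr (X.prod Y) (W.map (fst X Y) (θ ^ (w + 1) * c) *
          W.cl (X.prod Y) u) = 0 := by
        have h5 : W.map (fst X Y) (θ ^ (w + 1) * c) * W.cl (X.prod Y) u =
            W.cl (X.prod Y) u * W.map (fst X Y) (θ ^ (w + 1) * c) :=
          (AK_even_comm (AK_cl hu) _).symm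
        rw [h5, ← W.tr_push (fst X Y)]
        have h6 : W.push (fst X Y) (W.cl (X.prod Y) u) ∈ algClasses W X (n - 1) :=
          alg_push (fst X Y) ⟨u, hu, rfl⟩ (by rw [dim_prod]; omega)
        rw [AK_even_comm (AK_of h6)]
        exact hprimK _ h6 hn0.ne'
      rw [← hw, h4, smul_zero]
  · -- the product is not zero
    intro h0
    apply hne
    rw [numZero_iff W hz]
    intro j u hju hu
    have h1 := (numZero_iff W hy).1 h0 j (ops.pull (fst X Y) u) (by omega) (ops.pull_mem _ hu)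
    rw [hcy] at h1
    rw [W.cl_pull, tr_midClass_mul hφK] at h1
    exact (mul_eq_zero.1 h1).resolve_right hφw0

end Pool.Agent.K7.H9
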