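import Pool.Agent.K7.H9.NumD
import Pool.Agent.K7.H9.MidDefs

/-!
# The conjecture of Hodge type for abelian varieties follows from the middle codimension
-/

open CategoryTheory AlgebraicGeometry

universe u v

namespace Pool.Agent.K7.H9

open Pool.Agent.H914 Pool.Agent.H914.VarClass Pool.Agent.H914.VarClass.Obj Pool.Agent.R908

variable {k : Type u} [Field k] {𝒱 : VarClass k} {ops : CycleOps 𝒱}
  {W : WeilCohomology.{u, v} ops} {𝒜 : 𝒱.Obj → Prop} {Amp : ∀ A : 𝒱.Obj, A.Cycles → Prop}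

lemma IsAbelianClass.exists_dim (h : IsAbelianClass W 𝒜 Amp) (w : ℕ) :
    ∃ B, 𝒜 B ∧ B.dim = w + 1 ∧ ∃ F, Amp B F := by
  obtain ⟨E, hE, hE1, F, hF⟩ := h.curve
  induction w with
  | zero => exact ⟨E, hE, hE1, F, hF⟩
  | succ w ih =>
    obtain ⟨B, hB, hBw, G, hG⟩ := ih
    exact ⟨B.prod E, h.prod_mem _ _ hB hE, by rw [dim_prod, hBw, hE1], _,
      h.box _ _ hB hE _ _ hG hF⟩

/-- The reduction to the middle codimension and to one polarization. -/
theorem middle_iff [IsAlgClosed W.K] (h : IsAbelianClass W 𝒜 Amp) :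
    (∀ A, 𝒜 A → ∀ n, A.dim = 2 * n → (∃ D, Amp A D) → ∃ D, Amp A D ∧ NumHodge ops A D n) ↔
      ∀ A, 𝒜 A → ∀ D, Amp A D → ∀ n, 2 * n ≤ A.dim → NumHodge ops A D n := by
  constructor
  · intro H
    -- the middle codimension, for all polarizations
    have H' : ∀ A, 𝒜 A → ∀ D, Amp A D → ∀ n, A.dim = 2 * n → NumHodge ops A D n := by
      intro A hA D hD n hn
      obtain ⟨m, hm⟩ := h.abelian A hA
      obtain ⟨E, hE, hEn⟩ := H A hA n hn ⟨D, hD⟩
      exact (numHodge_iff hm (h.cyc A hA D hD) (h.cyc A hA E hE) (h.pos A hA D E hD hE)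
        hn.ge).2 hEn
    intro A hA D hD n hn
    rcases Nat.eq_zero_or_pos (A.dim - 2 * n) with h0 | h0
    · exact H' A hA D hD n (by omega)
    · obtain ⟨B, hB, hBw, F, hF⟩ := h.exists_dim (A.dim - 2 * n - 1)
      refine numHodge_of_middle W (h.cyc A hA D hD) (h.cyc B hB F hF) (n := n) (by omega) ?_ ?_
      · have h1 := h.pos B hB F F hF hF B.dim le_rfl
        rwa [mixedNumber, Nat.sub_self] at h1
      · exact H' _ (h.prod_mem A B hA hB) _ (h.box A B hA hB D F hD hF) _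
          (by rw [dim_prod]; omega)
  · intro H A hA n hn hD
    obtain ⟨D, hD⟩ := hD
    exact ⟨D, hD, H A hA D hD n hn.ge⟩

end Pool.Agent.K7.H9
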