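import Pool.Agent.K7.H9.NumD
import Pool.Agent.W539.Ker.Fam

/-!
# Positivity of the form `bf` modulo numerical equivalence
-/

open CategoryTheory AlgebraicGeometry Finset

universe u v

namespace Pool.Agent.K7.H9

open Pool.Agent.H914 Pool.Agent.H914.VarClass Pool.Agent.H914.VarClass.Obj
  Pool.Agent.H914.WeilCohomology Pool.Agent.R908 Pool.Agent.H281R3.HT Pool.Agent.W552
  Pool.Agent.W539.Ker

variable {k : Type u} [Field k] {𝒱 : VarClass k} {ops : CycleOps 𝒱}
  {W : WeilCohomology.{u, v} ops} {X Y : 𝒱.Obj} {D : X.Cycles} {f : Module.End W.K (W.H X)}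

/-- The class is orthogonal to all sums of algebraic classes. -/
def NumTriv (W : WeilCohomology.{u, v} ops) (X : 𝒱.Obj) (x : W.H X) : Prop :=
  ∀ y, AS W X y → W.tr X (x * y) = 0

namespace NumTriv

lemma zero : NumTriv W X 0 := fun y _ => by rw [zero_mul, map_zero]

lemma add {x x' : W.H X} (h : NumTriv W X x) (h' : NumTriv W X x') : NumTriv W X (x + x') :=
  fun y hy => by rw [add_mul, map_add, h y hy, h' y hy, add_zero]

lemma smul (c : W.K) {x : W.H X} (h : NumTriv W X x) : NumTriv W X (c • x) :=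
  fun y hy => by rw [smul_mul_assoc, map_smul, h y hy, smul_zero]

lemma sum {ι : Type*} (s : Finset ι) {x : ι → W.H X} (h : ∀ i ∈ s, NumTriv W X (x i)) :
    NumTriv W X (∑ i ∈ s, x i) := fun y hy => by
  rw [sum_mul, map_sum]
  exact sum_eq_zero fun i hi => h i hi y hy

lemma mul {x y : W.H X} (h : NumTriv W X x) (hy : AS W X y) : NumTriv W X (y * x) :=
  fun z hz => by rw [hy.comm, mul_assoc]; exact h _ (hy.mul hz)

end NumTriv

lemma numZero_iff_triv (W : WeilCohomology.{u, v} ops) {i : ℕ} {z : X.Cycles}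
    (hz : X.IsCyc i z) : NumZero ops X i z ↔ NumTriv W X (W.cl X z) := by
  rw [numZero_iff W hz]
  constructor
  · intro h y hy
    refine AS.ind (p := fun y => W.tr X (W.cl X z * y) = 0) ?_ ?_ hy
    · rintro j _ ⟨w, hw, rfl⟩
      by_cases hij : i + j = X.dim
      · exact h j w hij hw
      · exact W.tr_eq_zero (W.mul_mem (W.cl_mem hz) (W.cl_mem hw)) (by omega)
    · intro a b ha hb
      rw [mul_add, map_add, ha, hb, add_zero]
  · intro h j w _ hw
    exact h _ (AS.of ⟨w, hw, rfl⟩)

/-- Positivity modulo numerical equivalence. -/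
def NumPos (W : WeilCohomology.{u, v} ops) (X : 𝒱.Obj) (D : X.Cycles)
    (f : Module.End W.K (W.H X)) : Prop :=
  ∀ x, AS W X x → ∃ q : ℚ, bf W X D f x x = q ∧ 0 ≤ q ∧ (q = 0 → NumTriv W X x)

lemma L_pow_AS (F : Fr W X D f) (m : ℕ) {x : W.H X} (hx : AS W X x) :
    AS W X (((LinearMap.mulLeft W.K (W.cl X D)) ^ m) x) := by
  induction m with
  | zero => simpa using hx
  | succ m ih =>
    rw [pow_succ', Module.End.mul_apply, LinearMap.mulLeft_apply]
    exact (AS.of ⟨D, F.hD, rfl⟩).mul ih

lemma L_pow_triv (F : Fr W X D f) (m : ℕ) {x : W.H X} (hx : NumTriv W X x) :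
    NumTriv W X (((LinearMap.mulLeft W.K (W.cl X D)) ^ m) x) := by
  induction m with
  | zero => simpa using hx
  | succ m ih =>
    rw [pow_succ', Module.End.mul_apply, LinearMap.mulLeft_apply]
    exact ih.mul (AS.of ⟨D, F.hD, rfl⟩)

/-- The primitive decomposition of an algebraic class. -/
lemma exists_prims (F : Fr W X D f) {l : ℕ} {c : W.H X} (hc : c ∈ algClasses W X l) :
    ∃ v : ℕ → W.H X, (∀ b ≤ l, v b ∈ algClasses W X (l - b)) ∧
      c = ∑ b ∈ range (l + 1), ((LinearMap.mulLeft W.K (W.cl X D)) ^ b) (v b) ∧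
      (∀ b ∈ range (l + 1), ((LinearMap.mulLeft W.K (W.cl X D)) ^ b) (v b) = 0 ∨
        (2 * (l - b) ≤ X.dim ∧ b ≤ X.dim - 2 * (l - b) ∧
          ∃ z, Primitive W X D (l - b) z ∧ v b = W.cl X z)) := by
  obtain ⟨v, hv, hs⟩ := (ap_alg F).decomp (mulLeft_isHom F.hD) W_hbd hc
  refine ⟨v, fun b hb => (hv b hb).1, hs, ?_⟩
  intro b hb
  rw [Finset.mem_range] at hb
  obtain ⟨h1, h2, h3⟩ := hv b (by omega)
  by_cases h0 : ((LinearMap.mulLeft W.K (W.cl X D)) ^ b) (v b) = 0
  · exact Or.inl h0
  right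
  have hv0 : v b ≠ 0 := by rintro h; apply h0; rw [h, map_zero]
  have h4 := h2 hv0
  have h5 : b ≤ X.dim - 2 * (l - b) := by
    by_contra h6
    exact h0 (L_pow_gt (n := X.dim) (i := 2 * (l - b)) h3 (by omega))
  obtain ⟨z, hz, hz'⟩ := h1
  refine ⟨h4, h5, z, ⟨hz, ?_⟩, hz'.symm⟩
  rw [cl_divPow, hz']
  exact h3

lemma prims_cross (F : Fr W X D f) {l : ℕ} {v : ℕ → W.H X}
    (hv : ∀ b ∈ range (l + 1), ((LinearMap.mulLeft W.K (W.cl X D)) ^ b) (v b) = 0 ∨
        (2 * (l - b) ≤ X.dim ∧ b ≤ X.dim - 2 * (l - b) ∧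
          ∃ z, Primitive W X D (l - b) z ∧ v b = W.cl X z)) {b b' : ℕ}
    (hb : b ∈ range (l + 1)) (hb' : b' ∈ range (l + 1)) (hne : b ≠ b') :
    bf W X D f (((LinearMap.mulLeft W.K (W.cl X D)) ^ b) (v b))
      (((LinearMap.mulLeft W.K (W.cl X D)) ^ b') (v b')) = 0 := by
  rcases hv b hb with h0 | ⟨h1, h2, z, hz, hvz⟩
  · rw [h0, map_zero, LinearMap.zero_apply]
  rcases hv b' hb' with h0 | ⟨h1', h2', z', hz', hvz'⟩
  · rw [h0, map_zero]
  rw [hvz, hvz']
  rw [Finset.mem_range] at hb hb'
  exact bf_cross F h1 h1' (by omega) hz hz' (by omega) h2'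

/-- A primitive class has nonnegative square, and it is numerically trivial if the square is
zero. -/
lemma prim_pos (F : Fr W X D f) {n : ℕ} (hn : 2 * n ≤ X.dim) (H : NumHodge ops X D n)
    {z : X.Cycles} (hz : Primitive W X D n z) :
    0 ≤ pairing ops X D n z z ∧ (pairing ops X D n z z = 0 → NumTriv W X (W.cl X z)) := by
  by_cases h0 : NumZero ops X n z
  · have h1 := (numZero_iff_triv W hz.1).1 h0
    have h2 := pairing_cast (W := W) F.hD hn hz.1 hz.1
    rw [h1 _ (L_pow_AS F _ (AS.of ⟨z, hz.1, rfl⟩)), mul_zero] at h2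
    have h3 : pairing ops X D n z z = 0 := by exact_mod_cast h2
    exact ⟨h3.ge, fun _ => h1⟩
  · have h1 : 0 < pairing ops X D n z z := by
      refine H z hz.1 ?_ h0
      have h2 := divPow_mem (ops := ops) F.hD (X.dim - 2 * n + 1) hz.1
      rw [show n + (X.dim - 2 * n + 1) = X.dim - n + 1 by omega] at h2
      rw [numZero_iff_triv W h2, hz.2]
      exact NumTriv.zero
    exact ⟨h1.le, fun h => absurd h h1.ne'⟩

/-- **The numerical conjecture of Hodge type implies the positivity of the form.** -/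
theorem numPos_of_hodge (F : Fr W X D f) (H : ∀ n, 2 * n ≤ X.dim → NumHodge ops X D n) :
    NumPos W X D f := by
  set L := LinearMap.mulLeft W.K (W.cl X D) with hL
  have key : ∀ l, ∀ c ∈ algClasses W X l,
      ∃ q : ℚ, bf W X D f c c = q ∧ 0 ≤ q ∧ (q = 0 → NumTriv W X c) := by
    intro l c hc
    obtain ⟨v, hv, hs, hvp⟩ := exists_prims F hc
    have h1 : ∀ b ∈ range (l + 1), ∃ q : ℚ, bf W X D f ((L ^ b) (v b)) ((L ^ b) (v b)) = q ∧
        0 ≤ q ∧ (q = 0 → NumTriv W X ((L ^ b) (v b))) := by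
      intro b hb
      rcases hvp b hb with h0 | ⟨h1, h2, z, hz, hvz⟩
      · refine ⟨0, ?_, le_rfl, fun _ => ?_⟩
        · rw [h0, map_zero, Rat.cast_zero]
        · rw [h0]; exact NumTriv.zero
      · obtain ⟨h3, h4⟩ := prim_pos F h1 (H _ h1) hz
        have h5 : (0 : ℚ) < b.factorial * ((X.dim - 2 * (l - b) - b).factorial : ℚ)⁻¹ := by
          positivity
        refine ⟨_, ?_, mul_nonneg h5.le h3, ?_⟩
        · rw [hvz]
          exact bf_same F h1 hz hz h2
        · intro h6
          rw [hvz]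
          exact L_pow_triv F b (h4 ((mul_eq_zero.1 h6).resolve_left h5.ne'))
    choose! q hq hq0 hq1 using h1
    refine ⟨∑ b ∈ range (l + 1), q b, ?_, sum_nonneg hq0, ?_⟩
    · conv_lhs => rw [hs]
      rw [map_sum (bf W X D f), LinearMap.sum_apply, Rat.cast_sum]
      apply Finset.sum_congr rfl
      intro b hb
      rw [map_sum, Finset.sum_eq_single b, hq b hb]
      · intro b' hb' hne
        exact prims_cross F hvp hb hb' hne.symm
      · intro h; exact absurd hb h
    · intro h0
      rw [hs]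
      apply NumTriv.sum
      intro b hb
      exact hq1 b hb ((sum_eq_zero_iff_of_nonneg hq0).1 h0 b hb)
  intro x hx
  choose q hq hq0 hq1 using fun j => key j _ (hx.proj j)
  refine ⟨∑ j ∈ range (X.dim + 1), q j, ?_, sum_nonneg fun j _ => hq0 j, ?_⟩
  · have h1 : bf W X D f x x = bf W X D f
        (∑ j ∈ range (X.dim + 1), proj (W.isInternal X) (2 * j) x)
        (∑ j ∈ range (X.dim + 1), proj (W.isInternal X) (2 * j) x) := by
      rw [← Fr.AS_sum hx]
    rw [h1, map_sum (bf W X D f), LinearMap.sum_apply, Rat.cast_sum]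
    apply Finset.sum_congr rfl
    intro j hj
    rw [map_sum, Finset.sum_eq_single j, hq]
    · intro i _ hi
      exact F.bf_deg (proj_mem _ _ _) (proj_mem _ _ _) (by omega)
    · intro h0; exact absurd hj h0
  · intro h0
    rw [Fr.AS_sum hx]
    apply NumTriv.sum
    intro j hj
    exact hq1 j ((sum_eq_zero_iff_of_nonneg fun j _ => hq0 j).1 h0 j hj)

lemma bf_triv (F : Fr W X D f) {x : W.H X} (hx : AS W X x) (h : NumTriv W X x) :
    bf W X D f x x = 0 := by
  rw [bf_apply]
  exact h _ (F.st_AS hx)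

/-- **The positivity of the form implies the numerical conjecture of Hodge type.** -/
theorem hodge_of_numPos (F : Fr W X D f) (H : NumPos W X D f) {n : ℕ} (hn : 2 * n ≤ X.dim) :
    NumHodge ops X D n := by
  intro z hz hprim hne
  set L := LinearMap.mulLeft W.K (W.cl X D) with hL
  set c := W.cl X z with hc
  have hcA : c ∈ algClasses W X n := ⟨z, hz, rfl⟩
  obtain ⟨v, hv, hs, hvp⟩ := exists_prims F hcA
  have hprim' : NumTriv W X ((L ^ (X.dim - 2 * n + 1)) c) := by
    have h2 := divPow_mem (ops := ops) F.hD (X.dim - 2 * n + 1) hz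
    rw [show n + (X.dim - 2 * n + 1) = X.dim - n + 1 by omega] at h2
    rw [← cl_divPow]
    exact (numZero_iff_triv W h2).1 hprim
  have hne' : ¬ NumTriv W X c := fun h => hne ((numZero_iff_triv W hz).2 h)
  -- the components of positive level are numerically trivial
  have htriv : ∀ b ∈ range (n + 1), b ≠ 0 → NumTriv W X ((L ^ b) (v b)) := by
    intro b hb hb0
    rcases hvp b hb with h0 | ⟨h1, h2, w, hw, hvw⟩
    · rw [h0]; exact NumTriv.zero
    rw [Finset.mem_range] at hb
    have hvb : AS W X (v b) := AS.of (hv b (by omega))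
    -- the square of `v b`
    have e1 : W.tr X (v b * (L ^ (X.dim - 2 * (n - b))) (v b)) = 0 := by
      have e2 : W.tr X ((L ^ (X.dim - 2 * n + b)) c * v b) = 0 := by
        have e3 := (L_pow_triv F (b - 1) hprim') _ hvb
        rw [← Module.End.mul_apply, ← pow_add,
          show b - 1 + (X.dim - 2 * n + 1) = X.dim - 2 * n + b by omega] at e3
        exact e3
      rw [hs, map_sum, sum_mul, map_sum, Finset.sum_eq_single b] at e2
      · rw [← Module.End.mul_apply, ← pow_add,
          show X.dim - 2 * n + b + b = X.dim - 2 * (n - b) by omega, ← hvb.comm] at e2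
        exact e2
      · intro b' hb' hne'
        rcases hvp b' hb' with h0 | ⟨h1', h2', w', hw', hvw'⟩
        · rw [h0, map_zero, zero_mul, map_zero]
        rw [Finset.mem_range] at hb'
        have hp' : (L ^ (X.dim - 2 * (n - b') + 1)) (v b') = 0 := by
          rw [hvw', ← cl_divPow]; exact hw'.2
        have hp : (L ^ (X.dim - 2 * (n - b) + 1)) (v b) = 0 := by
          rw [hvw, ← cl_divPow]; exact hw.2
        rw [← Module.End.mul_apply, ← pow_add]
        rcases lt_or_gt_of_ne hne' with h | h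
        · have e4 : (L ^ (X.dim - 2 * n + b + b')) (v b') = 0 := by
            rw [show X.dim - 2 * n + b + b' =
              (X.dim - 2 * n + b + b' - (X.dim - 2 * (n - b') + 1)) +
                (X.dim - 2 * (n - b') + 1) by omega, pow_add, Module.End.mul_apply, hp', map_zero]
          rw [e4, zero_mul, map_zero]
        · rw [L_pow_self F.hD]
          have e4 : (L ^ (X.dim - 2 * n + b + b')) (v b) = 0 := by
            rw [show X.dim - 2 * n + b + b' =
              (X.dim - 2 * n + b + b' - (X.dim - 2 * (n - b) + 1)) +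
                (X.dim - 2 * (n - b) + 1) by omega, pow_add, Module.End.mul_apply, hp, map_zero]
          rw [e4, mul_zero, map_zero]
      · intro h; exact absurd (Finset.mem_range.2 (by omega)) h
    have e5 : pairing ops X D (n - b) w w = 0 := by
      have e6 := pairing_cast (W := W) F.hD h1 hw.1 hw.1
      rw [← hvw, e1, mul_zero] at e6
      exact_mod_cast e6
    obtain ⟨q, hq, hq0, hq1⟩ := H _ (L_pow_AS F b hvb)
    apply hq1
    have e7 : bf W X D f ((L ^ b) (v b)) ((L ^ b) (v b)) = 0 := by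
      rw [hvw, bf_same F h1 hw hw h2, e5, mul_zero, Rat.cast_zero]
    rw [e7] at hq
    exact_mod_cast hq.symm
  -- the component of level zero
  have hsplit : c = v 0 + ∑ b ∈ range n, (L ^ (b + 1)) (v (b + 1)) := by
    conv_lhs => rw [hs]
    rw [Finset.sum_range_succ', add_comm, pow_zero, Module.End.one_apply]
  have hrest : NumTriv W X (∑ b ∈ range n, (L ^ (b + 1)) (v (b + 1))) := by
    apply NumTriv.sum
    intro b hb
    rw [Finset.mem_range] at hb
    exact htriv (b + 1) (Finset.mem_range.2 (by omega)) (by omega)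
  set r := ∑ b ∈ range n, (L ^ (b + 1)) (v (b + 1)) with hr
  have hv0 : AS W X (v 0) := AS.of (hv 0 (by omega))
  have hv0t : ¬ NumTriv W X (v 0) := fun h => hne' (by rw [hsplit]; exact h.add hrest)
  have hrA : AS W X r := by
    have : r = c + ((-1 : ℚ) : W.K) • v 0 := by
      rw [hsplit, Rat.cast_neg, Rat.cast_one, neg_one_smul]
      abel
    rw [this]
    exact (AS.of hcA).add (hv0.smul (-1))
  rcases hvp 0 (Finset.mem_range.2 (by omega)) with h0 | ⟨-, -, w, hw, hvw⟩
  · exfalso
    apply hv0t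
    rw [pow_zero, Module.End.one_apply] at h0
    rw [h0]
    exact NumTriv.zero
  rw [Nat.sub_zero] at hw
  obtain ⟨q, hq, hq0, hq1⟩ := H _ hv0
  have hqpos : 0 < q := lt_of_le_of_ne hq0 fun h => hv0t (hq1 h.symm)
  have h1 := bf_same F hn hw hw (Nat.zero_le (X.dim - 2 * n))
  rw [pow_zero, Module.End.one_apply, ← hvw, hq] at h1
  have h2 : q = ((0 : ℕ).factorial * ((X.dim - 2 * n - 0).factorial : ℚ)⁻¹) *
      pairing ops X D n w w := by exact_mod_cast h1
  have h3 : pairing ops X D n z z = pairing ops X D n w w := by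
    have e1 := pairing_cast (W := W) F.hD hn hz hz
    have e2 := pairing_cast (W := W) F.hD hn hw.1 hw.1
    have e3 : W.tr X (c * (L ^ (X.dim - 2 * n)) c) =
        W.tr X (v 0 * (L ^ (X.dim - 2 * n)) (v 0)) := by
      have e4 : W.tr X (r * (L ^ (X.dim - 2 * n)) c) = 0 :=
        hrest _ (L_pow_AS F _ (AS.of hcA))
      have e5 : W.tr X (v 0 * (L ^ (X.dim - 2 * n)) r) = 0 := by
        rw [hv0.comm]
        exact (L_pow_triv F _ hrest) _ hv0
      have e6 : W.tr X (c * (L ^ (X.dim - 2 * n)) c) =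
          W.tr X (v 0 * (L ^ (X.dim - 2 * n)) c) + W.tr X (r * (L ^ (X.dim - 2 * n)) c) := by
        rw [← map_add, ← add_mul, ← hsplit]
      have e7 : W.tr X (v 0 * (L ^ (X.dim - 2 * n)) c) =
          W.tr X (v 0 * (L ^ (X.dim - 2 * n)) (v 0)) + W.tr X (v 0 * (L ^ (X.dim - 2 * n)) r) := by
        rw [← map_add, ← mul_add, ← map_add, ← hsplit]
      rw [e6, e4, add_zero, e7, e5, add_zero]
    rw [e3, hvw, ← e2] at e1
    exact_mod_cast e1
  have h4 : 0 < pairing ops X D n w w := by
    rw [h2] at hqpos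
    exact (mul_pos_iff_of_pos_left (by positivity)).1 hqpos
  rw [← h3] at h4
  exact h4

end Pool.Agent.K7.H9
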