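import Pool.Agent.K7.H9.R4A

/-!
# The product with a variety which has a rational frame
-/

open CategoryTheory AlgebraicGeometry Finset

universe u v w

namespace Pool.Agent.K7.H9

open Pool.Agent.H914 Pool.Agent.H914.VarClass Pool.Agent.H914.VarClass.Obj
  Pool.Agent.H914.WeilCohomology Pool.Agent.R908 Pool.Agent.H281R3.HT Pool.Agent.W552
  Pool.Agent.W539.Ker

variable {k : Type u} [Field k] {𝒱 : VarClass k} {ops : CycleOps 𝒱}
  {W : WeilCohomology.{u, v} ops} {X Y Z : 𝒱.Obj}

lemma push_fst_ext (a : W.H X) (c : W.H Y) :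
    W.push (fst X Y) (W.map (fst X Y) a * W.map (snd X Y) c) = W.tr Y c • a := by
  refine gr_induction (W.isInternal Y) (p := fun c => W.push (fst X Y)
    (W.map (fst X Y) a * W.map (snd X Y) c) = W.tr Y c • a) ?_ ?_ c
  · intro j c hc
    exact push_fst a hc
  · intro c c' hc hc'
    rw [map_add, mul_add, map_add, hc, hc', map_add, add_smul]

/-- The morphism `id × g`. -/
noncomputable abbrev idp (X : 𝒱.Obj) (g : Z ⟶ Y) : X.prod Z ⟶ X.prod Y :=
  Obj.lift (fst X Z) (snd X Z ≫ g)

lemma map_idp (g : Z ⟶ Y) (a : W.H X) (b : W.H Y) :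
    W.map (idp X g) (W.map (fst X Y) a * W.map (snd X Y) b) =
      W.map (fst X Z) a * W.map (snd X Z) (W.map g b) := by
  rw [map_mul, ← W.map_comp, ← W.map_comp, ← W.map_comp, Obj.lift_fst, Obj.lift_snd]

lemma push_idp (g : Z ⟶ Y) (a : W.H X) (b : W.H Z) :
    W.push (idp X g) (W.map (fst X Z) a * W.map (snd X Z) b) =
      W.map (fst X Y) a * W.map (snd X Y) (W.push g b) := by
  refine gr_induction (W.isInternal Z) (p := fun b => W.push (idp X g)
    (W.map (fst X Z) a * W.map (snd X Z) b) =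
      W.map (fst X Y) a * W.map (snd X Y) (W.push g b)) ?_ ?_ b
  swap
  · intro b b' hb hb'
    simp only [map_add, mul_add, hb, hb']
  intro j b hb
  apply W.tr_ext
  intro d
  rw [W.tr_push]
  refine W.kunneth_induction (p := fun d =>
    W.tr (X.prod Z) (W.map (fst X Z) a * W.map (snd X Z) b * W.map (idp X g) d) =
      W.tr (X.prod Y) (W.map (fst X Y) a * W.map (snd X Y) (W.push g b) * d)) ?_ ?_ d
  · intro d d' hd hd'
    rw [map_add, mul_add, map_add, hd, hd', mul_add, map_add]
  intro i i' a' ha' b' hb'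
  rw [map_idp, tmul_mul hb ha', map_smul, W.tr_prod]
  have h1 := W.push_mem g hb
  by_cases hneg : (j : ℤ) + 2 * ((Y.dim : ℤ) - Z.dim) < 0
  · rw [grZ_of_neg hneg] at h1
    have h2 : W.push g b = 0 := (Submodule.mem_bot _).1 h1
    have h3 : W.tr Z (b * W.map g b') = 0 := by
      rw [← W.tr_push, h2, zero_mul, map_zero]
    rw [h2, h3]
    simp
  · obtain ⟨l, hl⟩ : ∃ l : ℕ, (l : ℤ) = (j : ℤ) + 2 * ((Y.dim : ℤ) - Z.dim) :=
      ⟨((j : ℤ) + 2 * ((Y.dim : ℤ) - Z.dim)).toNat, by omega⟩
    have h2 : W.push g b ∈ W.gr Y l := by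
      rw [← hl] at h1
      simpa [grZ] using h1
    rw [tmul_mul h2 ha', map_smul, W.tr_prod, W.tr_push]
    congr 1
    rcases Nat.even_or_odd i with he | ho
    · rw [Even.neg_one_pow (Even.mul_left he j), Even.neg_one_pow (Even.mul_left he l)]
    · rcases Nat.even_or_odd j with he' | ho'
      · have he'' : Even l := by
          obtain ⟨r, hr⟩ := he'
          exact Nat.even_iff.2 (by omega)
        rw [Even.neg_one_pow (Even.mul_right he' i), Even.neg_one_pow (Even.mul_right he'' i)]
      · have ho'' : Odd l := by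
          obtain ⟨r, hr⟩ := ho'
          exact Nat.odd_iff.2 (by omega)
        rw [Odd.neg_one_pow (ho'.mul ho), Odd.neg_one_pow (ho''.mul ho)]

/-- The properties of a member of the family which are used. -/
structure Mem (W : WeilCohomology.{u, v} ops) (P : Polarized 𝒱) (g p : Module.End W.K (W.H P.X)) :
    Prop where
  mid : transcendental W P.X ≤ W.gr P.X P.X.dim
  split : ∀ y : W.H P.X, y - p y ∈ transcendental W P.X
  orth : ∀ (y : W.H P.X), ∀ t ∈ transcendental W P.X, W.tr P.X (p y * t) = 0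
  right : ∀ (X' : 𝒱.Obj) (m : ℕ), ∀ z ∈ algClasses W (X'.prod P.X) m,
    extOp W 1 p z ∈ algClasses W (X'.prod P.X) m
  nondeg : ∀ t ∈ transcendental W P.X, (∀ t' ∈ transcendental W P.X, W.tr P.X (t * t') = 0) →
    t = 0
  w_t : ∀ t ∈ transcendental W P.X, wop W P.X P.D g t = t

section Main

variable {D : X.Cycles} {f : Module.End W.K (W.H X)}
  {ι : Type w} {P : ι → Polarized 𝒱} {E : Z.Cycles} {G : FrmData W P Z}
  {g p : ∀ j, Module.End W.K (W.H (P j).X)}

/-- The first coordinates. -/
noncomputable def cx (X : 𝒱.Obj) (E : Z.Cycles) (G : FrmData W P Z) (α : G.I0)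
    (c : W.H (X.prod Z)) : W.H X :=
  ((((-1) ^ G.a α * G.d α)⁻¹ : ℚ) : W.K) •
    W.push (fst X Z) (c * W.map (snd X Z) (wop W Z E G.f (G.e α)))

/-- The second coordinates. -/
noncomputable def cc (X : 𝒱.Obj) (G : FrmData W P Z) (p : ∀ j, Module.End W.K (W.H (P j).X))
    (β : G.I1) (c : W.H (X.prod Z)) : W.H (X.prod (P (G.j β)).X) :=
  ((((-1) ^ G.c β * G.r β)⁻¹ : ℚ) : W.K) • extOp W 1 (1 - p (G.j β))
    (W.push (idp X (G.g β)) (c * W.map (snd X Z) (G.m β)))

/-- The embeddings of the second type. -/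
noncomputable def lft (X : 𝒱.Obj) (G : FrmData W P Z) (β : G.I1)
    (c : W.H (X.prod (P (G.j β)).X)) : W.H (X.prod Z) :=
  W.map (snd X Z) (G.n β) * W.map (idp X (G.g β)) c

lemma lft_add (β : G.I1) (c c' : W.H (X.prod (P (G.j β)).X)) :
    lft X G β (c + c') = lft X G β c + lft X G β c' := by
  rw [lft, map_add, mul_add]; rfl

lemma lft_smul (β : G.I1) (q : W.K) (c : W.H (X.prod (P (G.j β)).X)) :
    lft X G β (q • c) = q • lft X G β c := by
  rw [lft, map_smul, mul_smul_comm]; rfl

lemma lft_zero (β : G.I1) : lft X G β (0 : W.H (X.prod (P (G.j β)).X)) = 0 := by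
  rw [lft, map_zero, mul_zero]

lemma cx_add (α : G.I0) (c c' : W.H (X.prod Z)) :
    cx X E G α (c + c') = cx X E G α c + cx X E G α c' := by
  simp only [cx, add_mul, map_add, smul_add]

lemma cc_add (β : G.I1) (c c' : W.H (X.prod Z)) :
    cc X G p β (c + c') = cc X G p β c + cc X G p β c' := by
  simp only [cc, add_mul, map_add, smul_add]

lemma cx_smul (α : G.I0) (q : W.K) (c : W.H (X.prod Z)) :
    cx X E G α (q • c) = q • cx X E G α c := by
  simp only [cx, smul_mul_assoc, map_smul]
  rw [smul_comm]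

lemma cc_smul (β : G.I1) (q : W.K) (c : W.H (X.prod Z)) :
    cc X G p β (q • c) = q • cc X G p β c := by
  simp only [cc, smul_mul_assoc, map_smul]
  rw [smul_comm]

variable (hG : Frm W P Z E G) (hM : ∀ j, Mem W (P j) (g j) (p j))

include hG

lemma sign_ne (α : G.I0) : (((-1) ^ G.a α * G.d α : ℚ) : W.K) ≠ 0 := by
  have h1 : ((-1) ^ G.a α * G.d α : ℚ) ≠ 0 :=
    mul_ne_zero (pow_ne_zero _ (by norm_num)) (hG.d_pos α).ne'
  exact_mod_cast h1

lemma sign_ne' (β : G.I1) : (((-1) ^ G.c β * G.r β : ℚ) : W.K) ≠ 0 := by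
  have h1 : ((-1) ^ G.c β * G.r β : ℚ) ≠ 0 :=
    mul_ne_zero (pow_ne_zero _ (by norm_num)) (hG.r_pos β).ne'
  exact_mod_cast h1

lemma lft_ext (β : G.I1) (a : W.H X) (t : W.H (P (G.j β)).X) :
    lft X G β (W.map (fst X _) a * W.map (snd X _) t) =
      W.map (fst X Z) a * W.map (snd X Z) (G.n β * W.map (G.g β) t) := by
  rw [lft, map_idp, ← mul_assoc, alg_even_comm (alg_map (snd X Z) (hG.n_mem β)), mul_assoc,
    ← map_mul]

/-- The first coordinates of external products. -/
lemma cx_ext (α : G.I0) (a : W.H X) (y : W.H Z) :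
    cx X E G α (W.map (fst X Z) a * W.map (snd X Z) y) =
      (((((-1) ^ G.a α * G.d α)⁻¹ : ℚ) : W.K) * W.tr Z (y * wop W Z E G.f (G.e α))) • a := by
  rw [cx, mul_assoc, ← map_mul, push_fst_ext, smul_smul]

/-- The second coordinates of external products. -/
lemma cc_ext (β : G.I1) (a : W.H X) (y : W.H Z) :
    cc X G p β (W.map (fst X Z) a * W.map (snd X Z) y) =
      ((((-1) ^ G.c β * G.r β)⁻¹ : ℚ) : W.K) • (W.map (fst X _) a * W.map (snd X _)
        (W.push (G.g β) (y * G.m β) - p (G.j β) (W.push (G.g β) (y * G.m β)))) := by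
  rw [cc, mul_assoc, ← map_mul, push_idp, extOp_tmul]
  rfl

include hM

/-- The coordinate of a generator. -/
lemma coord_n (β β' : G.I1) {t : W.H (P (G.j β)).X} (ht : t ∈ transcendental W (P (G.j β)).X) :
    (∀ h : β = β', W.push (G.g β') ((G.n β * W.map (G.g β) t) * G.m β') -
      p (G.j β') (W.push (G.g β') ((G.n β * W.map (G.g β) t) * G.m β')) =
      (((-1) ^ G.c β' * G.r β' : ℚ) : W.K) • (h ▸ t)) ∧
    (β ≠ β' → W.push (G.g β') ((G.n β * W.map (G.g β) t) * G.m β') -
      p (G.j β') (W.push (G.g β') ((G.n β * W.map (G.g β) t) * G.m β')) = 0) := by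
  have key : ∀ s ∈ transcendental W (P (G.j β')).X,
      W.tr _ ((W.push (G.g β') ((G.n β * W.map (G.g β) t) * G.m β') -
        p (G.j β') (W.push (G.g β') ((G.n β * W.map (G.g β) t) * G.m β'))) * s) =
      W.tr Z (G.n β * W.map (G.g β) t * wop W Z E G.f (G.n β' * W.map (G.g β') s)) := by
    intro s hs
    rw [sub_mul, map_sub, (hM _).orth _ s hs, sub_zero, W.tr_push, mul_assoc _ (G.m β'),
      ← hG.w_n β' s hs]
  constructor
  · rintro rfl
    rw [← sub_eq_zero]
    apply (hM _).nondeg
    · exact Submodule.sub_mem _ ((hM _).split _) (Submodule.smul_mem _ _ ht)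
    · intro s hs
      rw [sub_mul, map_sub, key s hs, hG.nn β t ht s hs, smul_mul_assoc, map_smul, smul_eq_mul,
        sub_self]
  · intro hne
    apply (hM _).nondeg _ ((hM _).split _)
    intro s hs
    rw [key s hs, hG.nn0 β β' hne t ht s hs]

lemma coord_e (α : G.I0) (β' : G.I1) :
    W.push (G.g β') (G.e α * G.m β') - p (G.j β') (W.push (G.g β') (G.e α * G.m β')) = 0 := by
  apply (hM _).nondeg _ ((hM _).split _)
  intro s hs
  rw [sub_mul, map_sub, (hM _).orth _ s hs, sub_zero, W.tr_push, mul_assoc, ← hG.w_n β' s hs,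
    hG.en0 α β' s hs]

/-- **The decomposition.** -/
theorem decomp (c : W.H (X.prod Z)) :
    c = ∑ α, W.map (fst X Z) (cx X E G α c) * W.map (snd X Z) (G.e α) +
      ∑ β, lft X G β (cc X G p β c) := by
  classical
  refine W.kunneth_induction (p := fun c => c =
    ∑ α, W.map (fst X Z) (cx X E G α c) * W.map (snd X Z) (G.e α) +
      ∑ β, lft X G β (cc X G p β c)) ?_ ?_ c
  · intro c c' hc hc'
    have e1 : ∀ α, W.map (fst X Z) (cx X E G α (c + c')) * W.map (snd X Z) (G.e α) =
        W.map (fst X Z) (cx X E G α c) * W.map (snd X Z) (G.e α) +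
        W.map (fst X Z) (cx X E G α c') * W.map (snd X Z) (G.e α) := by
      intro α
      rw [cx_add, map_add, add_mul]
    have e2 : ∀ β, lft X G β (cc X G p β (c + c')) =
        lft X G β (cc X G p β c) + lft X G β (cc X G p β c') := by
      intro β
      rw [cc_add, lft_add]
    simp only [e1, e2, Finset.sum_add_distrib]
    nth_rewrite 1 [hc]
    nth_rewrite 1 [hc']
    abel
  intro i j a _ y _
  have hy := hG.span y
  clear * - hy hG hM
  induction hy using Submodule.span_induction with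
  | mem y hy =>
    rcases hy with ⟨α, rfl⟩ | ⟨β, t, ht, rfl⟩
    · have e1 : ∀ α', cx X E G α' (W.map (fst X Z) a * W.map (snd X Z) (G.e α)) =
          if α' = α then a else 0 := by
        intro α'
        rw [cx_ext hG]
        split_ifs with h
        · subst h
          rw [hG.ee, Rat.cast_inv, inv_mul_cancel₀ (sign_ne hG _), one_smul]
        · rw [hG.ee0 α α' (Ne.symm h), mul_zero, zero_smul]
      have e2 : ∀ β', cc X G p β' (W.map (fst X Z) a * W.map (snd X Z) (G.e α)) = 0 := by
        intro β'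
        rw [cc_ext hG, coord_e hG hM, map_zero, mul_zero, smul_zero]
      simp only [e1, e2, lft_zero, Finset.sum_const_zero, add_zero]
      rw [Finset.sum_eq_single α]
      · rw [if_pos rfl]
      · intro α' _ h
        rw [if_neg h, map_zero, zero_mul]
      · intro h; exact absurd (Finset.mem_univ _) h
    · have e1 : ∀ α', cx X E G α' (W.map (fst X Z) a *
          W.map (snd X Z) (G.n β * W.map (G.g β) t)) = 0 := by
        intro α'
        rw [cx_ext hG, hG.ne0 α' β t ht, mul_zero, zero_smul]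
      simp only [e1, map_zero, zero_mul, Finset.sum_const_zero, zero_add]
      rw [Finset.sum_eq_single β]
      · rw [cc_ext hG, (coord_n hG hM β β ht).1 rfl, map_smul, mul_smul_comm, smul_smul,
          Rat.cast_inv, inv_mul_cancel₀ (sign_ne' hG _), one_smul, lft_ext hG]
      · intro β' _ h
        rw [cc_ext hG, (coord_n hG hM β β' ht).2 (Ne.symm h), map_zero, mul_zero, smul_zero,
          lft_zero]
      · intro h; exact absurd (Finset.mem_univ _) h
  | zero =>
    have e1 : ∀ α', cx X E G α' (0 : W.H (X.prod Z)) = 0 := by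
      intro α'
      rw [cx, zero_mul, map_zero, smul_zero]
    have e2 : ∀ β', cc X G p β' (0 : W.H (X.prod Z)) = 0 := by
      intro β'
      rw [cc, zero_mul, map_zero, map_zero, smul_zero]
    simp only [map_zero, mul_zero, e1, e2, zero_mul, lft_zero, Finset.sum_const_zero, add_zero]
  | add x y _ _ hx hy =>
    have e0 : W.map (fst X Z) a * W.map (snd X Z) (x + y) =
        W.map (fst X Z) a * W.map (snd X Z) x + W.map (fst X Z) a * W.map (snd X Z) y := by
      rw [map_add, mul_add]
    rw [e0]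
    have e1 : ∀ α, W.map (fst X Z) (cx X E G α (W.map (fst X Z) a * W.map (snd X Z) x +
        W.map (fst X Z) a * W.map (snd X Z) y)) * W.map (snd X Z) (G.e α) =
        W.map (fst X Z) (cx X E G α (W.map (fst X Z) a * W.map (snd X Z) x)) *
          W.map (snd X Z) (G.e α) +
        W.map (fst X Z) (cx X E G α (W.map (fst X Z) a * W.map (snd X Z) y)) *
          W.map (snd X Z) (G.e α) := by
      intro α
      rw [cx_add, map_add, add_mul]
    have e2 : ∀ β, lft X G β (cc X G p β (W.map (fst X Z) a * W.map (snd X Z) x +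
        W.map (fst X Z) a * W.map (snd X Z) y)) =
        lft X G β (cc X G p β (W.map (fst X Z) a * W.map (snd X Z) x)) +
        lft X G β (cc X G p β (W.map (fst X Z) a * W.map (snd X Z) y)) := by
      intro β
      rw [cc_add, lft_add]
    simp only [e1, e2, Finset.sum_add_distrib]
    nth_rewrite 1 [hx]
    nth_rewrite 1 [hy]
    abel
  | smul q x _ hx =>
    have e0 : W.map (fst X Z) a * W.map (snd X Z) (q • x) =
        q • (W.map (fst X Z) a * W.map (snd X Z) x) := by
      rw [map_smul, mul_smul_comm]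
    rw [e0]
    have e1 : ∀ α, W.map (fst X Z) (cx X E G α (q • (W.map (fst X Z) a * W.map (snd X Z) x))) *
        W.map (snd X Z) (G.e α) =
        q • (W.map (fst X Z) (cx X E G α (W.map (fst X Z) a * W.map (snd X Z) x)) *
          W.map (snd X Z) (G.e α)) := by
      intro α
      rw [cx_smul, map_smul, smul_mul_assoc]
    have e2 : ∀ β, lft X G β (cc X G p β (q • (W.map (fst X Z) a * W.map (snd X Z) x))) =
        q • lft X G β (cc X G p β (W.map (fst X Z) a * W.map (snd X Z) x)) := by
      intro β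
      rw [cc_smul, lft_smul]
    simp only [e1, e2, ← Finset.smul_sum]
    rw [← smul_add, ← hx]

end Main

/-- The span of the external products with transcendental classes. -/
noncomputable def XT (W : WeilCohomology.{u, v} ops) (X Y : 𝒱.Obj) : Submodule W.K (W.H (X.prod Y)) :=
  Submodule.span W.K {c | ∃ a, ∃ t ∈ transcendental W Y, c = W.map (fst X Y) a * W.map (snd X Y) t}

section Form

variable {D : X.Cycles} {f : Module.End W.K (W.H X)}
  {ι : Type w} {P : ι → Polarized 𝒱} {E : Z.Cycles} {G : FrmData W P Z}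
  {g p : ∀ j, Module.End W.K (W.H (P j).X)}
  (hG : Frm W P Z E G) (hM : ∀ j, Mem W (P j) (g j) (p j))

include hG

open scoped Classical in
lemma bf_ee (α α' : G.I0) : bf W Z E G.f (G.e α) (G.e α') =
    if α = α' then (G.d α : W.K) else 0 := by
  rw [bf_apply, st_apply (alg_gr (hG.e_mem α')), mul_smul_comm, map_smul, sg_two_mul, smul_eq_mul]
  split_ifs with h
  · subst h
    rw [hG.ee]
    have : (-1 : W.K) ^ G.a α * (-1) ^ G.a α = 1 := by rw [← mul_pow]; simp
    push_cast
    linear_combination (G.d α : W.K) * this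
  · rw [hG.ee0 α α' h, mul_zero]

lemma bf_ne (α : G.I0) (β : G.I1) {t : W.H (P (G.j β)).X}
    (ht : t ∈ transcendental W (P (G.j β)).X) :
    bf W Z E G.f (G.n β * W.map (G.g β) t) (G.e α) = 0 := by
  rw [bf_apply, st_apply (alg_gr (hG.e_mem α)), mul_smul_comm, map_smul, hG.ne0 α β t ht,
    smul_zero]

include hM

lemma n_gr (β : G.I1) {t : W.H (P (G.j β)).X} (ht : t ∈ transcendental W (P (G.j β)).X) :
    G.n β * W.map (G.g β) t ∈ W.gr Z (2 * G.c β + (P (G.j β)).X.dim) :=
  W.mul_mem (alg_gr (hG.n_mem β)) (W.map_mem _ ((hM _).mid ht))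

lemma bf_en (α : G.I0) (β : G.I1) {t : W.H (P (G.j β)).X}
    (ht : t ∈ transcendental W (P (G.j β)).X) :
    bf W Z E G.f (G.e α) (G.n β * W.map (G.g β) t) = 0 := by
  rw [bf_apply, st_apply (n_gr hG hM β ht), mul_smul_comm, map_smul, hG.en0 α β t ht,
    smul_zero]

lemma bf_nn0 (β β' : G.I1) (hne : β ≠ β') {t : W.H (P (G.j β)).X}
    (ht : t ∈ transcendental W (P (G.j β)).X) {t' : W.H (P (G.j β')).X}
    (ht' : t' ∈ transcendental W (P (G.j β')).X) :
    bf W Z E G.f (G.n β * W.map (G.g β) t) (G.n β' * W.map (G.g β') t') = 0 := by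
  rw [bf_apply, st_apply (n_gr hG hM β' ht'), mul_smul_comm, map_smul,
    hG.nn0 β β' hne t ht t' ht', smul_zero]

lemma bf_nn (β : G.I1) {t t' : W.H (P (G.j β)).X}
    (ht : t ∈ transcendental W (P (G.j β)).X) (ht' : t' ∈ transcendental W (P (G.j β)).X) :
    bf W Z E G.f (G.n β * W.map (G.g β) t) (G.n β * W.map (G.g β) t') =
      (G.r β : W.K) * bf W (P (G.j β)).X (P (G.j β)).D (g (G.j β)) t t' := by
  rw [bf_apply, st_apply (n_gr hG hM β ht'), mul_smul_comm, map_smul, hG.nn β t ht t' ht',
    bf_apply, st_apply ((hM _).mid ht'), (hM _).w_t t' ht', mul_smul_comm, map_smul, sg_add,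
    sg_two_mul]
  have h1 : (-1 : W.K) ^ G.c β * (-1) ^ G.c β = 1 := by rw [← mul_pow]; simp
  have h2 : (-1 : W.K) ^ (2 * G.c β * (P (G.j β)).X.dim) = 1 := by
    rw [mul_assoc, pow_mul]; simp
  simp only [smul_eq_mul]
  push_cast
  rw [h2]
  linear_combination ((sg (P (G.j β)).X.dim : W.K) * (G.r β : W.K) * W.tr _ (t * t')) * h1

variable (F : Fr W X D f) (hGf : Fr W Z E G.f) (hg : ∀ j, Fr W (P j).X (P j).D (g j))

include F hGf hg

lemma form_lft (β : G.I1) {y y' : W.H (X.prod (P (G.j β)).X)} (hy : y ∈ XT W X (P (G.j β)).X)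
    (hy' : y' ∈ XT W X (P (G.j β)).X) :
    bf W (X.prod Z) (ops.pull (fst X Z) D + ops.pull (snd X Z) E) (extSum W f G.f)
      (lft X G β y) (lft X G β y') = (G.r β : W.K) *
    bf W (X.prod (P (G.j β)).X) (ops.pull (fst X _) D + ops.pull (snd X _) (P (G.j β)).D)
      (extSum W f (g (G.j β))) y y' := by
  induction hy using Submodule.span_induction with
  | mem y hy =>
    obtain ⟨a, t, ht, rfl⟩ := hy
    induction hy' using Submodule.span_induction with
    | mem y' hy' =>
      obtain ⟨a', t', ht', rfl⟩ := hy'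
      rw [lft_ext hG, lft_ext hG]
      have e1 := F.bf_ext hGf a a' (G.n β * W.map (G.g β) t) (G.n β * W.map (G.g β) t')
      have e2 := F.bf_ext (hg (G.j β)) a a' t t'
      simp only [Pool.Agent.H281R3.HT.ext] at e1 e2
      rw [e1, e2, bf_nn hG hM β ht ht']
      ring
    | zero => rw [lft_zero, map_zero, map_zero, mul_zero]
    | add x x' _ _ hx hx' => rw [lft_add, map_add, hx, hx', map_add, mul_add]
    | smul q x _ hx => rw [lft_smul, map_smul, hx, map_smul, smul_eq_mul, smul_eq_mul]; ring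
  | zero => rw [lft_zero, map_zero, LinearMap.zero_apply, map_zero, LinearMap.zero_apply, mul_zero]
  | add x x' _ _ hx hx' =>
    rw [lft_add, map_add, LinearMap.add_apply, hx, hx', map_add, LinearMap.add_apply, mul_add]
  | smul q x _ hx =>
    rw [lft_smul, map_smul, LinearMap.smul_apply, hx, map_smul, LinearMap.smul_apply,
      smul_eq_mul, smul_eq_mul]
    ring

lemma form_lft0 (β β' : G.I1) (hne : β ≠ β') {y : W.H (X.prod (P (G.j β)).X)}
    (hy : y ∈ XT W X (P (G.j β)).X) {y' : W.H (X.prod (P (G.j β')).X)}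
    (hy' : y' ∈ XT W X (P (G.j β')).X) :
    bf W (X.prod Z) (ops.pull (fst X Z) D + ops.pull (snd X Z) E) (extSum W f G.f)
      (lft X G β y) (lft X G β' y') = 0 := by
  induction hy using Submodule.span_induction with
  | mem y hy =>
    obtain ⟨a, t, ht, rfl⟩ := hy
    induction hy' using Submodule.span_induction with
    | mem y' hy' =>
      obtain ⟨a', t', ht', rfl⟩ := hy'
      rw [lft_ext hG, lft_ext hG]
      have e1 := F.bf_ext hGf a a' (G.n β * W.map (G.g β) t) (G.n β' * W.map (G.g β') t')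
      simp only [Pool.Agent.H281R3.HT.ext] at e1
      rw [e1, bf_nn0 hG hM β β' hne ht ht', mul_zero]
    | zero => rw [lft_zero, map_zero]
    | add x x' _ _ hx hx' => rw [lft_add, map_add, hx, hx', add_zero]
    | smul q x _ hx => rw [lft_smul, map_smul, hx, smul_zero]
  | zero => rw [lft_zero, map_zero, LinearMap.zero_apply]
  | add x x' _ _ hx hx' =>
    rw [lft_add, map_add, LinearMap.add_apply, hx, hx', add_zero]
  | smul q x _ hx =>
    rw [lft_smul, map_smul, LinearMap.smul_apply, hx, smul_zero]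

lemma form_e_lft (α : G.I0) (a : W.H X) (β : G.I1) {y : W.H (X.prod (P (G.j β)).X)}
    (hy : y ∈ XT W X (P (G.j β)).X) :
    bf W (X.prod Z) (ops.pull (fst X Z) D + ops.pull (snd X Z) E) (extSum W f G.f)
      (W.map (fst X Z) a * W.map (snd X Z) (G.e α)) (lft X G β y) = 0 ∧
    bf W (X.prod Z) (ops.pull (fst X Z) D + ops.pull (snd X Z) E) (extSum W f G.f)
      (lft X G β y) (W.map (fst X Z) a * W.map (snd X Z) (G.e α)) = 0 := by
  induction hy using Submodule.span_induction with
  | mem y hy =>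
    obtain ⟨a', t, ht, rfl⟩ := hy
    rw [lft_ext hG]
    have e1 := F.bf_ext hGf a a' (G.e α) (G.n β * W.map (G.g β) t)
    have e2 := F.bf_ext hGf a' a (G.n β * W.map (G.g β) t) (G.e α)
    simp only [Pool.Agent.H281R3.HT.ext] at e1 e2
    rw [e1, e2, bf_en hG hM α β ht, bf_ne hG α β ht, mul_zero, mul_zero]
    exact ⟨rfl, rfl⟩
  | zero => rw [lft_zero, map_zero, map_zero, LinearMap.zero_apply]; exact ⟨rfl, rfl⟩
  | add x x' _ _ hx hx' =>
    rw [lft_add, map_add, map_add, LinearMap.add_apply, hx.1, hx'.1, hx.2, hx'.2, add_zero]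
    exact ⟨rfl, rfl⟩
  | smul q x _ hx =>
    rw [lft_smul, map_smul, map_smul, LinearMap.smul_apply, hx.1, hx.2, smul_zero]
    exact ⟨rfl, rfl⟩

/-- **Positivity on the product.** -/
theorem numPos_prod (H0 : NumPos W X D f)
    (H1 : ∀ j, NumPos W (X.prod (P j).X) (ops.pull (fst X _) D + ops.pull (snd X _) (P j).D)
      (extSum W f (g j))) :
    NumPos W (X.prod Z) (ops.pull (fst X Z) D + ops.pull (snd X Z) E) (extSum W f G.f) := by
  classical
  intro c hc
  set B := bf W (X.prod Z) (ops.pull (fst X Z) D + ops.pull (snd X Z) E) (extSum W f G.f) with hB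
  -- the coordinates are algebraic
  have hx : ∀ α, AS W X (cx X E G α c) := by
    intro α
    obtain ⟨i, hi⟩ := hG.we_mem α
    exact ((hc.mul ((AS.of hi).map _)).push _).smul _
  have hy : ∀ β, AS W (X.prod (P (G.j β)).X) (cc X G p β c) := by
    intro β
    obtain ⟨i, hi⟩ := hG.m_mem β
    have h1 : AS W (X.prod (P (G.j β)).X)
        (W.push (idp X (G.g β)) (c * W.map (snd X Z) (G.m β))) :=
      (hc.mul ((AS.of hi).map _)).push _
    have h2 : ∀ z : W.H (X.prod (P (G.j β)).X), AS W _ z →
        AS W _ (extOp W 1 (1 - p (G.j β)) z) := by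
      intro z hz
      have e1 : extOp W 1 (1 - p (G.j β)) z = z - extOp W 1 (p (G.j β)) z := by
        clear hz
        refine W.kunneth_induction (p := fun z => extOp W 1 (1 - p (G.j β)) z =
          z - extOp W 1 (p (G.j β)) z) ?_ ?_ z
        · intro a b ha hb
          rw [map_add, ha, hb, map_add]
          abel
        · intro i j a _ b _
          rw [extOp_tmul, extOp_tmul, LinearMap.sub_apply, map_sub, mul_sub]
          rfl
      rw [e1]
      refine AS.ind (p := fun z => AS W _ (z - extOp W 1 (p (G.j β)) z)) ?_ ?_ hz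
      · intro m z hz
        exact AS.of (alg_sub hz ((hM _).right X m z hz))
      · intro a b ha hb
        have : a + b - extOp W 1 (p (G.j β)) (a + b) =
            (a - extOp W 1 (p (G.j β)) a) + (b - extOp W 1 (p (G.j β)) b) := by
          rw [map_add]; abel
        rw [this]
        exact ha.add hb
    exact (h2 _ h1).smul _
  have hyT : ∀ β, cc X G p β c ∈ XT W X (P (G.j β)).X := by
    intro β
    apply Submodule.smul_mem
    refine W.kunneth_induction (p := fun z => extOp W 1 (1 - p (G.j β)) z ∈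
      XT W X (P (G.j β)).X) ?_ ?_ _
    · intro a b ha hb
      rw [map_add]
      exact Submodule.add_mem _ ha hb
    · intro i j a _ b _
      rw [extOp_tmul]
      exact Submodule.subset_span ⟨_, _, (hM _).split b, rfl⟩
  choose qx hqx hqx0 hqx1 using fun α => H0 _ (hx α)
  choose qy hqy hqy0 hqy1 using fun β => H1 _ _ (hy β)
  have hdec := decomp hG hM c
  set A : G.I0 → W.H (X.prod Z) := fun α =>
    W.map (fst X Z) (cx X E G α c) * W.map (snd X Z) (G.e α) with hA
  set A' : G.I1 → W.H (X.prod Z) := fun β => lft X G β (cc X G p β c) with hA'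
  have hAA : ∀ α α', B (A α) (A α') = if α = α' then ((G.d α * qx α : ℚ) : W.K) else 0 := by
    intro α α'
    have e1 := F.bf_ext hGf (cx X E G α c) (cx X E G α' c) (G.e α) (G.e α')
    simp only [Pool.Agent.H281R3.HT.ext] at e1
    rw [hB, hA]
    simp only
    rw [e1, bf_ee hG]
    split_ifs with h
    · subst h
      rw [hqx, Rat.cast_mul, mul_comm]
    · rw [mul_zero]
  have hAA' : ∀ α β, B (A α) (A' β) = 0 ∧ B (A' β) (A α) = 0 := fun α β =>
    form_e_lft hG hM F hGf hg α _ β (hyT β)
  have hA'A' : ∀ β β', B (A' β) (A' β') = if β = β' then ((G.r β * qy β : ℚ) : W.K) else 0 := by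
    intro β β'
    split_ifs with h
    · subst h
      rw [hB, hA']
      simp only
      rw [form_lft hG hM F hGf hg β (hyT β) (hyT β), hqy, Rat.cast_mul]
    · exact form_lft0 hG hM F hGf hg β β' h (hyT β) (hyT β')
  refine ⟨∑ α, G.d α * qx α + ∑ β, G.r β * qy β, ?_, ?_, ?_⟩
  · have e1 : c = ∑ α, A α + ∑ β, A' β := hdec
    rw [show bf W (X.prod Z) _ _ c c = B c c from rfl]
    have e2 : B c c = B (∑ α, A α + ∑ β, A' β) (∑ α, A α + ∑ β, A' β) := by rw [← e1]
    rw [e2]
    simp only [map_add, LinearMap.add_apply, map_sum, LinearMap.sum_apply, hAA, (hAA' _ _).1,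
      (hAA' _ _).2, hA'A', Finset.sum_const_zero, add_zero, zero_add, Finset.sum_ite_eq,
      Finset.mem_univ, if_true, Finset.sum_ite_eq']
    push_cast
    ring
  · exact add_nonneg (Finset.sum_nonneg fun α _ => mul_nonneg (hG.d_pos α).le (hqx0 α))
      (Finset.sum_nonneg fun β _ => mul_nonneg (hG.r_pos β).le (hqy0 β))
  · intro h0
    have h1 : ∀ α ∈ Finset.univ, 0 ≤ G.d α * qx α := fun α _ =>
      mul_nonneg (hG.d_pos α).le (hqx0 α)
    have h2 : ∀ β ∈ Finset.univ, 0 ≤ G.r β * qy β := fun β _ =>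
      mul_nonneg (hG.r_pos β).le (hqy0 β)
    have h3 := (add_eq_zero_iff_of_nonneg (Finset.sum_nonneg h1) (Finset.sum_nonneg h2)).1 h0
    have h4 : ∀ α, NumTriv W X (cx X E G α c) := by
      intro α
      apply hqx1
      exact (mul_eq_zero.1 ((Finset.sum_eq_zero_iff_of_nonneg h1).1 h3.1 α
        (Finset.mem_univ _))).resolve_left (hG.d_pos α).ne'
    have h5 : ∀ β, NumTriv W _ (cc X G p β c) := by
      intro β
      apply hqy1
      exact (mul_eq_zero.1 ((Finset.sum_eq_zero_iff_of_nonneg h2).1 h3.2 β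
        (Finset.mem_univ _))).resolve_left (hG.r_pos β).ne'
    rw [hdec]
    apply NumTriv.add
    · apply NumTriv.sum
      intro α _ u hu
      have he := AS.of (hG.e_mem α)
      rw [mul_assoc, ((AS.map (fst X Z) (hx α)).comm), ← W.tr_push, ((((he.map (snd X Z)).mul
        hu).push (fst X Z)).comm)]
      exact h4 α _ (((he.map _).mul hu).push _)
    · apply NumTriv.sum
      intro β _ u hu
      have hn := AS.of (hG.n_mem β)
      have e1 : lft X G β (cc X G p β c) * u =
          (W.map (snd X Z) (G.n β) * u) * W.map (idp X (G.g β)) (cc X G p β c) := by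
        rw [lft, mul_assoc, mul_assoc, hu.comm]
      rw [e1, ← W.tr_push, ((((hn.map (snd X Z)).mul hu).push (idp X (G.g β))).comm)]
      exact h5 β _ (((hn.map _).mul hu).push _)

end Form

end Pool.Agent.K7.H9
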