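import Pool.Agent.K7.H9.R4B
import Pool.Agent.H281R3.HT.Main

/-!
# The conjecture of Hodge type for products with varieties of supersingular type
-/

open CategoryTheory AlgebraicGeometry Finset

universe u v w

namespace Pool.Agent.K7.H9

open Pool.Agent.H914 Pool.Agent.H914.VarClass Pool.Agent.H914.VarClass.Obj
  Pool.Agent.H914.WeilCohomology Pool.Agent.R908 Pool.Agent.H281R3.HT Pool.Agent.W552
  Pool.Agent.W539.Ker

variable {k : Type u} [Field k] {𝒱 : VarClass k} {ops : CycleOps 𝒱}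
  {W : WeilCohomology.{u, v} ops} {X Y Z A : 𝒱.Obj} {m : A.prod A ⟶ A}

/-- The contraction operators are algebraic. -/
lemma ctr_aop {c : W.H A} (hc : AS W A c) : AOp W A A (ctr W m c) := by
  refine ⟨W.push (Obj.lift m (snd A A)) (W.map (fst A A) c), (hc.map _).push _, ?_⟩
  ext y
  rw [corr_apply, ← W.push_mul, ← W.push_comp, ← W.map_comp, Obj.lift_fst, Obj.lift_snd,
    ctr_apply, slc_apply]

/-- A variety whose cohomology is that of an abelian variety has an algebraic lowering
operator. -/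
theorem exists_fr_of_hopf (hA : IsAbelianLike W A m) {D : A.Cycles} (hD : A.IsCyc 1 D)
    (hdeg : 0 < A.V.degCycle (divPow ops D A.dim A.V.fundCycle)) :
    ∃ f, Fr W A D f := by
  have hθ2 : W.cl A D ∈ W.gr A 2 := W.cl_mem hD
  have h1 : W.tr A (W.cl A D ^ A.dim) =
      ((A.V.degCycle (divPow ops D A.dim A.V.fundCycle) : ℚ) : W.K) := by
    have h1 := divPow_mem (ops := ops) hD A.dim A.V.fundCycle_mem
    rw [← W.tr_cl (by rwa [zero_add] at h1), cl_divPow', W.cl_fund, mul_one]
  have ht : W.tr A (W.cl A D ^ A.dim) ≠ 0 := by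
    rw [h1]
    exact_mod_cast hdeg.ne'
  obtain ⟨r, t, -, hr⟩ := sl2_of_hopf hA hθ2 ht
  refine ⟨_, hD, t, ?_⟩
  have hpow : ∀ i : ℕ, AS W A (W.cl A D ^ i) := by
    intro i
    induction i with
    | zero => rw [pow_zero]; exact AS.one
    | succ i ih => rw [pow_succ]; exact ih.mul (AS.of ⟨D, hD, rfl⟩)
  have h2 : r = (((A.dim : ℚ) / A.V.degCycle (divPow ops D A.dim A.V.fundCycle) : ℚ) : W.K) := by
    rw [hr, h1]
    push_cast
    rfl
  rw [h2]
  exact (ctr_aop (hpow _)).smul _

/-- The data of the Lefschetz decomposition, for a given lowering operator. -/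
lemma exists_setup_of {D : X.Cycles} {f : Module.End W.K (W.H X)} (F : Fr W X D f)
    (hHL : HardLefschetz W X D) (hH : HodgeType W X D) :
    ∃ (κ : Type) (_ : Fintype κ) (l : κ → ℕ) (x : κ → W.H X)
      (φ : κ → ℚ) (p : Module.End W.K (W.H X)), Setup W X D f κ l x φ p := by
  classical
  have hC := algPart F.hD F.lefschetzA hH
  have hLh : IsHom (W.gr X) 2 (LinearMap.mulLeft W.K (W.cl X D)) := mulLeft_isHom F.hD
  have hbd : ∀ i, 2 * X.dim + 1 ≤ i → W.gr X i = ⊥ := W_hbd
  have t := F.sl2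
  set L : Module.End W.K (W.H X) := LinearMap.mulLeft W.K (W.cl X D) with hL
  have hw1 : wey L f * L = -(f * wey L f) := wey_e t
  have hw3 : ∀ (m : ℕ) (v : W.H X), f v = 0 → wt (W.isInternal X) X.dim v = -(m : W.K) • v →
      wey L f v = ((m.factorial : W.K)⁻¹) • (L ^ m) v := fun m v hv hm => wey_lowest t hv hm
  have hHw : ∀ i, ∀ a ∈ W.gr X i, wt (W.isInternal X) X.dim a = ((i : W.K) - X.dim) • a := by
    intro i a ha
    rw [wt, scal_apply _ _ ha, node]
    push_cast; rfl
  have hlow : ∀ i ≤ X.dim, ∀ a ∈ W.gr X i, (L ^ (X.dim - i + 1)) a = 0 → f a = 0 := by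
    intro i hi a ha h0
    refine t.f_eq_zero (M := X.dim - i) ?_ h0
    rw [hHw i a ha, Nat.cast_sub hi]
    congr 1
    ring
  obtain ⟨κ, hκ, l, x, φ, p, hp, ho⟩ := hC.exists_projData' t hw1 hw3 hlow hHw hLh hbd
  exact ⟨κ, hκ, l, x, φ, p, F.hD, hHL, t, hC, hp, ho, fun l hl c hc =>
    hC.weyl_mem t hw1 hw3 hlow hHw hLh hbd hl hc⟩

/-- The properties of the members of the family. -/
lemma mem_of_setup {P : Polarized 𝒱} {f : Module.End W.K (W.H P.X)} {κ : Type} [Fintype κ]
    {l : κ → ℕ} {x : κ → W.H P.X} {φ : κ → ℚ} {p : Module.End W.K (W.H P.X)}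
    (h : Setup W P.X P.D f κ l x φ p) (hmid : transcendental W P.X ≤ W.gr P.X P.X.dim) :
    Mem W P f p where
  mid := hmid
  split := h.compl_mem
  orth y t ht := by
    have h1 := h.p_span y
    generalize p y = y' at h1
    induction h1 using Submodule.span_induction with
    | mem c hc =>
      obtain ⟨j, hj⟩ := hc
      rw [alg_even_comm hj]
      exact mem_trans.1 ht j c hj
    | zero => rw [zero_mul, map_zero]
    | add x y _ _ hx hy => rw [add_mul, map_add, hx, hy, add_zero]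
    | smul r x _ hx => rw [smul_mul_assoc, map_smul, hx, smul_zero]
  right X' m z hz := alg_right h hz
  nondeg t ht h0 := (member h hmid).nondeg ht h0
  w_t t ht := w_trans h hmid ht

section Main

variable {ι : Type w} {P : ι → Polarized 𝒱}

/-- Frames of all products with algebraic lowering operators. -/
theorem exists_frm' {g : ∀ j, Module.End W.K (W.H (P j).X)}
    (hg : ∀ j, Fr W (P j).X (P j).D (g j))
    (hHL : ∀ j, HardLefschetz W (P j).X (P j).D)
    (hmid : ∀ j, transcendental W (P j).X ≤ W.gr (P j).X (P j).X.dim)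
    (hH : ∀ j, HodgeType W (P j).X (P j).D)
    (hM : ∀ i, Member W (P i).X)
    (hB : ∀ i j, ∃ B, PairBasis W (P i).X (P j).X B) (Q : Polarized 𝒱)
    (hQ : IsProduct ops P Q) :
    ∃ F : FrmData W P Q.X, Frm W P Q.X Q.D F ∧ Fr W Q.X Q.D F.f := by
  choose B hB using hB
  induction hQ with
  | base j =>
    obtain ⟨κ, hκ, l, x, φ, p, hs⟩ := exists_setup_of (hg j) (hHL j) (hH j)
    exact ⟨_, base_frm hs (hmid j), hg j⟩
  | prod _ _ hF hG =>
    obtain ⟨F, hF, hF'⟩ := hF
    obtain ⟨G, hG, hG'⟩ := hG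
    exact ⟨_, prod_frm hF hG hM hB, hF'.prod hG'⟩

/-- **The numerical conjecture of Hodge type for the products of an abelian variety with varieties
of supersingular type.** -/
theorem hodge_supersingular (hD : ∀ j, (P j).X.IsCyc 1 (P j).D)
    (hHL : ∀ j, HardLefschetz W (P j).X (P j).D)
    (hLB : ∀ j, LefschetzB W (P j).X (P j).D)
    (hmid : ∀ j, transcendental W (P j).X ≤ W.gr (P j).X (P j).X.dim)
    (hE : ∀ i j, ExternallyAlgebraic W (P i).X (P j).X)
    (hH : ∀ j, HodgeType W (P j).X (P j).D)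
    (hHH : ∀ i j, HodgeType W ((P i).prod ops (P j)).X ((P i).prod ops (P j)).D)
    (hA : IsAbelianLike W A m) {D : A.Cycles} (hDA : A.IsCyc 1 D)
    (hdeg : 0 < A.V.degCycle (divPow ops D A.dim A.V.fundCycle))
    (H0 : ∀ n, 2 * n ≤ A.dim → NumHodge ops A D n)
    (H1 : ∀ j n, 2 * n ≤ A.dim + (P j).X.dim → NumHodge ops (A.prod (P j).X)
      (ops.pull (fst A (P j).X) D + ops.pull (snd A (P j).X) (P j).D) n)
    {Q : Polarized 𝒱} (hQ : IsProduct ops P Q) {n : ℕ} (hn : 2 * n ≤ A.dim + Q.X.dim) :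
    NumHodge ops (A.prod Q.X) (ops.pull (fst A Q.X) D + ops.pull (snd A Q.X) Q.D) n := by
  obtain ⟨f, F⟩ := exists_fr_of_hopf hA hDA hdeg
  choose g hg _ using fun j => exists_fr (hD j) (hHL j) (hLB j)
  choose κ hκ l x φ p hs using fun j => exists_setup_of (hg j) (hHL j) (hH j)
  have hB : ∀ i j, ∃ B, PairBasis W (P i).X (P j).X B := by
    intro i j
    exact exists_pairBasis (hs i) (hs j) (hmid i) (hmid j) (hE i j) (fun b hb v hv hva hv0 =>
      pos_of_hodge (hs i) (hs j) (hmid i) (hmid j) (hHH i j) hb hv hva hv0)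
  obtain ⟨G, hG, hG'⟩ := exists_frm' hg hHL hmid hH (fun j => member (hs j) (hmid j)) hB Q hQ
  have hM : ∀ j, Mem W (P j) (g j) (p j) := fun j => mem_of_setup (hs j) (hmid j)
  have h0 : NumPos W A D f := numPos_of_hodge F H0
  have h1 := numPos_prod hG hM F hG' hg h0 (fun j => numPos_of_hodge (F.prod (hg j)) (by
    intro n hn
    exact H1 j n hn))
  exact hodge_of_numPos (F.prod hG') h1 hn

end Main

end Pool.Agent.K7.H9
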