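import Pool.Agent.K7.H9.NumDefs
import Pool.Agent.H281R3.HT.Defs

/-!
# Varieties of supersingular type: definition
-/

open CategoryTheory AlgebraicGeometry

universe u v w

namespace Pool.Agent.K7.H9

open Pool.Agent.H914 Pool.Agent.H914.VarClass Pool.Agent.H914.VarClass.Obj
  Pool.Agent.H914.WeilCohomology Pool.Agent.H281R3.HT

/-- A family of polarized varieties of supersingular type, for example a single supersingular
elliptic curve over an algebraically closed field (with any divisor of positive degree): the
hard Lefschetz theorem and the Lefschetz standard conjecture hold for the members, their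
transcendental cohomology (the classes orthogonal to all algebraic classes) lies in the middle
degree, the external products of two transcendental classes are linear combinations of algebraic
classes, and the standard conjecture of Hodge type holds for the members and for the products of two
members. -/
structure IsSupersingularFamily {k : Type u} [Field k] {𝒱 : VarClass k} {ops : CycleOps 𝒱}
    (W : WeilCohomology.{u, v} ops) {ι : Type w} (P : ι → Polarized 𝒱) : Prop where
  cyc : ∀ j, (P j).X.IsCyc 1 (P j).D
  hardLefschetz : ∀ j, HardLefschetz W (P j).X (P j).D
  lefschetzB : ∀ j, LefschetzB W (P j).X (P j).D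
  mid : ∀ j, transcendental W (P j).X ≤ W.gr (P j).X (P j).X.dim
  ext : ∀ i j, ExternallyAlgebraic W (P i).X (P j).X
  hodge : ∀ j, HodgeType W (P j).X (P j).D
  hodge_prod : ∀ i j, HodgeType W ((P i).prod ops (P j)).X ((P i).prod ops (P j)).D

end Pool.Agent.K7.H9
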